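import Pool.Agent.H81.JM.Slc

/-!
# The velocity in the natural cells

`vel_ev`: outside of a small set, the natural velocity of the line is bounded in the large cell.
`vel_sub`: hence in the small cells. `slc_fin`: the slice in the natural cells, with the velocity.
-/

set_option autoImplicit false

namespace Pool.JMS

open Finset Real Pool.JMN
open Pool.Agent.H49.Ent Pool.Agent.H32.Dense Pool.STK Pool.KAF Pool.KAL Pool.KS3 Pool.M3F
open Pool.IEN Pool.EXS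

variable {k : ℕ}

/-- The derivative on the unit interval. -/
theorem der (D : ℕ) : ∃ C : ℝ, 1 ≤ C ∧ ∀ g : Polynomial ℝ, g.natDegree ≤ D →
    ∀ τ ∈ Set.Icc (0 : ℝ) 1, |g.derivative.eval τ| ≤ C * sp g := by
  classical
  obtain ⟨C, hC, H⟩ := coef_le 1 D
  have hD : (0 : ℝ) ≤ D := Nat.cast_nonneg D
  refine ⟨((D : ℝ) + 1) * (((D : ℝ) + 1) * C), ?_, ?_⟩
  · have h1 : (1 : ℝ) ≤ ((D : ℝ) + 1) * C := by nlinarith
    nlinarith
  intro g hg τ hτ
  have hs := sp_nonneg g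
  have hev : ∀ x : Fin 1 → ℝ, JMN.ev (fun a : Fin 1 → Fin (D + 1) => g.coeff (a 0)) x =
      g.eval (x 0) := by
    intro x
    unfold JMN.ev
    rw [Polynomial.eval_eq_sum_range' (Nat.lt_succ_of_le hg)]
    rw [← Fin.sum_univ_eq_sum_range (fun i => g.coeff i * x 0 ^ i) (D + 1)]
    refine Fintype.sum_equiv (Equiv.funUnique (Fin 1) (Fin (D + 1))) _ _ fun a => ?_
    rw [Fin.prod_univ_one]
    rfl
  have h1 := H (fun a : Fin 1 → Fin (D + 1) => g.coeff (a 0)) 1 (sp g) one_pos (by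
    intro x hx
    rw [hev]
    exact le_sp g ⟨(hx 0).1, (hx 0).2⟩)
  have hco : ∀ n < D + 1, |g.coeff n| ≤ C * sp g := by
    intro n hn
    have h2 := h1 (fun _ => ⟨n, hn⟩)
    rw [one_pow, mul_one] at h2
    exact h2
  rw [Polynomial.derivative_eval, Polynomial.sum_over_range' _ (fun n => by simp) (D + 1)
    (Nat.lt_succ_of_le hg)]
  refine (Finset.abs_sum_le_sum_abs _ _).trans ?_
  have h3 : ∀ n ∈ range (D + 1), |g.coeff n * (n : ℝ) * τ ^ (n - 1)| ≤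
      ((D : ℝ) + 1) * (C * sp g) := by
    intro n hn
    have h4 := hco n (mem_range.mp hn)
    have h5 : (n : ℝ) ≤ (D : ℝ) + 1 := by exact_mod_cast (mem_range.mp hn).le
    have h6 : |τ ^ (n - 1)| ≤ 1 := by
      rw [abs_pow, abs_of_nonneg hτ.1]
      exact pow_le_one₀ hτ.1 hτ.2
    rw [abs_mul, abs_mul, Nat.abs_cast]
    have h7 : |g.coeff n| * (n : ℝ) ≤ C * sp g * ((D : ℝ) + 1) :=
      mul_le_mul h4 h5 (Nat.cast_nonneg n) (by positivity)
    calc |g.coeff n| * (n : ℝ) * |τ ^ (n - 1)| ≤ (C * sp g * ((D : ℝ) + 1)) * 1 :=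
          mul_le_mul h7 h6 (abs_nonneg _) (by positivity)
      _ = _ := by ring
  refine (Finset.sum_le_sum h3).trans (le_of_eq ?_)
  rw [Finset.sum_const, Finset.card_range, nsmul_eq_mul]
  push_cast
  ring

/-- The natural velocity is at most `W` in the cell. -/
def Vel (W : ℝ) (M : ℕ) (N : Fin (k + 1) → ℕ)
    (G : Fin (k + 1) → MvPolynomial (Fin (k + 1)) ℝ) (b : Fin (k + 1) → ℤ)
    (la lb : Fin (k + 1) → ℝ) : Prop :=
  ∀ i : Fin k, ∀ τ ∈ Set.Icc (0 : ℝ) 1, |(zln M N G b la lb i).derivative.eval τ| ≤ W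

/-- From the large cell to the small one: the identity. -/
theorem zln_sub {M L : ℕ} {N : Fin (k + 1) → ℕ}
    {G : Fin (k + 1) → MvPolynomial (Fin (k + 1)) ℝ} {b : Fin (k + 1) → ℤ}
    {la lb : Fin (k + 1) → ℝ} (hM : 1 ≤ M) (hL : 1 ≤ L) (hN : ∀ i, 1 ≤ N i) (i : Fin k) :
    ∃ κ : ℝ, zln M N G b la lb i =
      Polynomial.C (L : ℝ) * (zln M (fun l => L * N l) G (fun l => b l / (L : ℤ)) la lb i).comp
        (Polynomial.C (1 / (L : ℝ)) *
          (Polynomial.X + Polynomial.C ((b 0 : ℝ) - L * ((b 0 / (L : ℤ) : ℤ) : ℝ)))) +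
      Polynomial.C κ := by
  have hM0 : (0 : ℝ) < M := by exact_mod_cast hM
  have hL0 : (0 : ℝ) < L := by exact_mod_cast hL
  have hN0 : ∀ l, (0 : ℝ) < N l := fun l => by exact_mod_cast hN l
  refine ⟨(L : ℝ) * ((b i.succ / (L : ℤ) : ℤ) : ℝ) - (b i.succ : ℝ), ?_⟩
  refine Polynomial.funext fun u => ?_
  rw [Polynomial.eval_add, Polynomial.eval_mul, Polynomial.eval_C, Polynomial.eval_C,
    Polynomial.eval_comp, Polynomial.eval_mul, Polynomial.eval_C, Polynomial.eval_add,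
    Polynomial.eval_X, Polynomial.eval_C, eval_zln, eval_zln]
  have h1 : (fun l => la l + (ncor M (fun l => L * N l) (fun l => b l / (L : ℤ)) 0 +
      nwid M (fun l => L * N l) 0 * (1 / (L : ℝ) * (u + ((b 0 : ℝ) -
        L * ((b 0 / (L : ℤ) : ℤ) : ℝ))))) * lb l) =
      fun l => la l + (ncor M N b 0 + nwid M N 0 * u) * lb l := by
    funext l
    have h2 : ncor M (fun l => L * N l) (fun l => b l / (L : ℤ)) 0 +
      nwid M (fun l => L * N l) 0 * (1 / (L : ℝ) * (u + ((b 0 : ℝ) -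
        L * ((b 0 / (L : ℤ) : ℤ) : ℝ)))) = ncor M N b 0 + nwid M N 0 * u := by
      unfold ncor nwid
      push_cast
      field_simp
      ring
    rw [h2]
  rw [h1]
  unfold rpos
  have h3 := hN0 i.succ
  push_cast
  field_simp
  ring

/-- From the large cell to the small one. -/
theorem vel_sub {W : ℝ} {M L : ℕ} {N : Fin (k + 1) → ℕ}
    {G : Fin (k + 1) → MvPolynomial (Fin (k + 1)) ℝ} {b : Fin (k + 1) → ℤ}
    {la lb : Fin (k + 1) → ℝ} (hM : 1 ≤ M) (hL : 1 ≤ L) (hN : ∀ i, 1 ≤ N i)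
    (h : Vel W M (fun l => L * N l) G (fun l => b l / (L : ℤ)) la lb) :
    Vel W M N G b la lb := by
  have hL0 : (0 : ℝ) < L := by exact_mod_cast hL
  have hLz : (0 : ℤ) < L := by exact_mod_cast hL
  intro i τ hτ
  obtain ⟨κ, hκ⟩ := zln_sub (G := G) (b := b) (la := la) (lb := lb) hM hL hN i
  have h1 : (0 : ℝ) ≤ (b 0 : ℝ) - L * ((b 0 / (L : ℤ) : ℤ) : ℝ) := by
    have h2 : (L : ℤ) * (b 0 / (L : ℤ)) ≤ b 0 := Int.mul_ediv_self_le hLz.ne'
    have h3 : ((L : ℝ)) * ((b 0 / (L : ℤ) : ℤ) : ℝ) ≤ (b 0 : ℝ) := by exact_mod_cast h2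
    linarith
  have h2 : (b 0 : ℝ) - L * ((b 0 / (L : ℤ) : ℤ) : ℝ) ≤ (L : ℝ) - 1 := by
    have h2 : b 0 < (L : ℤ) * (b 0 / (L : ℤ)) + L := Int.lt_mul_ediv_self_add hLz
    have h3 : b 0 + 1 ≤ (L : ℤ) * (b 0 / (L : ℤ)) + L := by omega
    have h4 : (b 0 : ℝ) + 1 ≤ (L : ℝ) * ((b 0 / (L : ℤ) : ℤ) : ℝ) + L := by exact_mod_cast h3
    linarith
  have h3 := h i (1 / (L : ℝ) * (τ + ((b 0 : ℝ) - L * ((b 0 / (L : ℤ) : ℤ) : ℝ)))) ⟨by
      have h4 : 0 ≤ τ + ((b 0 : ℝ) - L * ((b 0 / (L : ℤ) : ℤ) : ℝ)) := by linarith [hτ.1]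
      positivity, by
      rw [one_div, inv_mul_le_iff₀ hL0]
      linarith [hτ.2]⟩
  rw [hκ]
  rw [Polynomial.derivative_add, Polynomial.derivative_C, add_zero, Polynomial.derivative_C_mul,
    Polynomial.derivative_comp, Polynomial.derivative_C_mul, Polynomial.derivative_add,
    Polynomial.derivative_X, Polynomial.derivative_C, add_zero, mul_one, Polynomial.eval_mul,
    Polynomial.eval_mul, Polynomial.eval_C, Polynomial.eval_C, Polynomial.eval_comp,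
    Polynomial.eval_mul, Polynomial.eval_C, Polynomial.eval_add, Polynomial.eval_X,
    Polynomial.eval_C]
  rw [← mul_assoc, mul_one_div_cancel hL0.ne', one_mul]
  exact h3

/-- **The velocity.** -/
theorem vel_ev (k K₀ : ℕ) : ∃ C : ℝ, 1 ≤ C ∧
    ∀ (V Γ : Type) [Fintype V] (r : V → ℝ) (c : V → Γ) (M : ℕ) (N : Fin (k + 1) → ℕ)
      (G : Γ → Fin (k + 1) → MvPolynomial (Fin (k + 1)) ℝ) (b : Γ → Fin (k + 1) → ℤ)
      (la lb : Γ → Fin (k + 1) → ℝ) (y : V → Fin (k + 1) → ℝ) (h : ℝ),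
      IsLaw r → 1 ≤ M → (∀ i, 1 ≤ N i) → 0 < h → C * Real.exp h ≤ (N 0 : ℝ) →
      (∀ v, 0 < r v → (∀ i, (G (c v) i).totalDegree ≤ K₀) ∧ G (c v) 0 = 0 ∧
        nidx N (ndg M (G (c v)) (y v)) = b (c v) ∧
        ((ndg M (G (c v)) (y v) 0 : ℤ) : ℝ) = M * y v 0 ∧
        ∀ l, y v l = la (c v) l + y v 0 * lb (c v) l) →
      ms r (fun v => ¬ Vel (C * Real.exp h) M N (G (c v)) (b (c v)) (la (c v)) (lb (c v))) ≤
        C * ((Real.log (N 0 : ℝ) -
          CH r (fun v => nrem N (ndg M (G (c v)) (y v)) 0) c) + 1) / h := by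
  classical
  obtain ⟨C₁, hC₁, hder⟩ := der (K₀ + 1)
  obtain ⟨C₂, hC₂, htim⟩ := tim_ev (K₀ + 1)
  have hk0 : (0 : ℝ) ≤ k := Nat.cast_nonneg k
  have hK0 : (0 : ℝ) ≤ K₀ := Nat.cast_nonneg K₀
  refine ⟨2 * C₁ + C₂ + k * (2 * ((K₀ : ℝ) + 2) * C₂), by
    have : (0 : ℝ) ≤ k * (2 * ((K₀ : ℝ) + 2) * C₂) := by positivity
    linarith, ?_⟩
  intro V Γ _ r c M N G b la lb y h hr hM hN hh hCM hdat
  have hr0 := hr.nonneg
  have hexp := Real.exp_pos h
  have hpos : (0 : ℝ) ≤ k * (2 * ((K₀ : ℝ) + 2) * C₂) := by positivity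
  have hN0 : (0 : ℝ) < N 0 := by exact_mod_cast hN 0
  have hone : ∀ i : Fin k, ms r (fun v => 0 < sp (zln M N (G (c v)) (b (c v)) (la (c v))
        (lb (c v)) i) ∧
      |(zln M N (G (c v)) (b (c v)) (la (c v)) (lb (c v)) i).eval
        (((nrem N (ndg M (G (c v)) (y v)) 0 : ℕ) : ℝ) / ((N 0 : ℕ) : ℝ))| ≤
        1 / 2 * (Real.exp (-h) * sp (zln M N (G (c v)) (b (c v)) (la (c v)) (lb (c v)) i))) ≤
      2 * (((K₀ + 1 : ℕ) : ℝ) + 1) * ((Real.log (N 0 : ℝ) -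
        CH r (fun v => nrem N (ndg M (G (c v)) (y v)) 0) c) + C₂) / h := by
    intro i
    have h1 := htim V Γ r c (fun v => nrem N (ndg M (G (c v)) (y v)) 0) (N 0)
      (fun γ => zln M N (G γ) (b γ) (la γ) (lb γ) i) h hr
      (fun v _ => nrem_lt (Ng := N) hN _ 0) (fun v hv => zln_deg (hdat v hv).1 i) hh
      (le_trans (mul_le_mul_of_nonneg_right (by linarith) hexp.le) hCM)
    refine le_trans (le_of_eq ?_) h1
    exact ms_eq r _ _
  have hall := ms_ex hr0 (fun (i : Fin k) v =>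
    0 < sp (zln M N (G (c v)) (b (c v)) (la (c v)) (lb (c v)) i) ∧
      |(zln M N (G (c v)) (b (c v)) (la (c v)) (lb (c v)) i).eval
        (((nrem N (ndg M (G (c v)) (y v)) 0 : ℕ) : ℝ) / ((N 0 : ℕ) : ℝ))| ≤
        1 / 2 * (Real.exp (-h) * sp (zln M N (G (c v)) (b (c v)) (la (c v)) (lb (c v)) i))) hone
  have hdef : 0 ≤ Real.log (N 0 : ℝ) -
      CH r (fun v => nrem N (ndg M (G (c v)) (y v)) 0) c := by
    have h3 := CH_le_H hr (fun v => nrem N (ndg M (G (c v)) (y v)) 0) c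
    have h4 := H_le_log_card hr0 hr.sum_one
      (fun v => nrem N (ndg M (G (c v)) (y v)) 0) (Finset.range (N 0))
      (fun v _ => Finset.mem_range.mpr (nrem_lt (Ng := N) hN _ 0))
    rw [Finset.card_range] at h4
    linarith
  refine (ms_le hr0 ?_).trans (hall.trans ?_)
  · intro v hv hnot
    by_contra hcon
    push Not at hcon
    refine hnot ?_
    obtain ⟨hGd, hG0, hb, hint, hline⟩ := hdat v hv
    intro i τ hτ
    have e1 : rpos M N (G (c v)) (nidx N (ndg M (G (c v)) (y v))) (y v) 0 =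
        ((nrem N (ndg M (G (c v)) (y v)) 0 : ℕ) : ℝ) / ((N 0 : ℕ) : ℝ) :=
      rpos_time hM hN hG0 hint
    have hz : (zln M N (G (c v)) (b (c v)) (la (c v)) (lb (c v)) i).eval
        (((nrem N (ndg M (G (c v)) (y v)) 0 : ℕ) : ℝ) / ((N 0 : ℕ) : ℝ)) =
          rpos M N (G (c v)) (nidx N (ndg M (G (c v)) (y v))) (y v) i.succ := by
      rw [eval_zln, ← e1, ← hb, line_time hM hN hG0 hline]
    have hmem : rpos M N (G (c v)) (nidx N (ndg M (G (c v)) (y v))) (y v) ∈ ucube (k + 1) :=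
      rpos_mem hM hN (mem_own hM hN (G := G (c v)) (y v))
    have h1 : |(zln M N (G (c v)) (b (c v)) (la (c v)) (lb (c v)) i).eval
        (((nrem N (ndg M (G (c v)) (y v)) 0 : ℕ) : ℝ) / ((N 0 : ℕ) : ℝ))| ≤ 1 := by
      rw [hz, abs_le]
      constructor <;> linarith [(hmem i.succ).1, (hmem i.succ).2]
    have h2 : sp (zln M N (G (c v)) (b (c v)) (la (c v)) (lb (c v)) i) ≤ 2 * Real.exp h := by
      rcases (sp_nonneg (zln M N (G (c v)) (b (c v)) (la (c v)) (lb (c v)) i)).eq_or_lt with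
        h0 | h0
      · rw [← h0]
        positivity
      · have h2 := (hcon i h0).le.trans h1
        have h3 : Real.exp h * Real.exp (-h) = 1 := by
          rw [← Real.exp_add, add_neg_cancel, Real.exp_zero]
        have h4 := mul_le_mul_of_nonneg_left h2 (show 0 ≤ 2 * Real.exp h by positivity)
        calc sp (zln M N (G (c v)) (b (c v)) (la (c v)) (lb (c v)) i) =
              2 * Real.exp h * (1 / 2 * (Real.exp (-h) *
                sp (zln M N (G (c v)) (b (c v)) (la (c v)) (lb (c v)) i))) := by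
              linear_combination (-(sp (zln M N (G (c v)) (b (c v)) (la (c v)) (lb (c v)) i))) *
                h3
          _ ≤ _ := h4
          _ = _ := by ring
    have h3 := hder _ (zln_deg (M := M) (N := N) (b := b (c v)) (la := la (c v)) (lb := lb (c v))
      hGd i) τ hτ
    refine h3.trans ?_
    calc C₁ * sp (zln M N (G (c v)) (b (c v)) (la (c v)) (lb (c v)) i) ≤
          C₁ * (2 * Real.exp h) := mul_le_mul_of_nonneg_left h2 (by linarith)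
      _ = (2 * C₁) * Real.exp h := by ring
      _ ≤ _ := mul_le_mul_of_nonneg_right (by linarith) hexp.le
  · rw [Fintype.card_fin]
    have h5 : (k : ℝ) * (2 * (((K₀ + 1 : ℕ) : ℝ) + 1) * ((Real.log (N 0 : ℝ) -
        CH r (fun v => nrem N (ndg M (G (c v)) (y v)) 0) c) + C₂) / h) =
        (k * (2 * ((K₀ : ℝ) + 2)) * ((Real.log (N 0 : ℝ) -
        CH r (fun v => nrem N (ndg M (G (c v)) (y v)) 0) c) + C₂)) / h := by
      push_cast
      ring
    rw [h5]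
    refine div_le_div_of_nonneg_right ?_ hh.le
    set δ : ℝ := Real.log (N 0 : ℝ) -
        CH r (fun v => nrem N (ndg M (G (c v)) (y v)) 0) c with hδ
    have h6 : (0 : ℝ) ≤ k * (2 * ((K₀ : ℝ) + 2)) := by positivity
    have h7 : δ + C₂ ≤ C₂ * (δ + 1) := by nlinarith
    calc (k : ℝ) * (2 * ((K₀ : ℝ) + 2)) * (δ + C₂) ≤
          k * (2 * ((K₀ : ℝ) + 2)) * (C₂ * (δ + 1)) := mul_le_mul_of_nonneg_left h7 h6
      _ = (k * (2 * ((K₀ : ℝ) + 2) * C₂)) * (δ + 1) := by ring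
      _ ≤ _ := mul_le_mul_of_nonneg_right (by linarith) (by linarith)

/-- A bound of `f` on the slice of the small cell at the time of `y` gives a bound on the small
cell. -/
def SF (Θ : ℝ) (M K : ℕ) (N₃ : Fin (k + 1) → ℕ)
    (G : Fin (k + 1) → MvPolynomial (Fin (k + 1)) ℝ) (f : MvPolynomial (Fin (k + 1)) ℝ)
    (y : Fin (k + 1) → ℝ) : Prop :=
  ∀ B : ℝ, (∀ z : Fin k → ℝ, (∀ i,
        (jdg K (nidx N₃ (ndg M G y)) i.succ : ℝ) / K ≤ z i ∧
        z i ≤ ((jdg K (nidx N₃ (ndg M G y)) i.succ : ℝ) + 1) / K) →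
      |MvPolynomial.eval (Fin.cons (rpos M (fun i => K * N₃ i) G
        (nidx (fun i => K * N₃ i) (ndg M G y)) y 0) z : Fin (k + 1) → ℝ) f| ≤ B) →
    cs (rco K (jdg K (nidx N₃ (ndg M G y)))) (1 / K) f ≤ Θ * B

/-- **The slice in the natural cells, with the velocity.** -/
theorem slc_fin (k Kf K₀ : ℕ) : ∃ C : ℝ, 1 ≤ C ∧
    ∀ (V Γ Γ₀ : Type) [Fintype V] (r : V → ℝ) (c : V → Γ) (c₀ : V → Γ₀) (M L K : ℕ)
      (N₃ : Fin (k + 1) → ℕ)
      (G : Γ → Fin (k + 1) → MvPolynomial (Fin (k + 1)) ℝ) (b₂ : Γ → Fin (k + 1) → ℤ)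
      (f : Γ → MvPolynomial (Fin (k + 1)) ℝ) (la lb : Γ → Fin (k + 1) → ℝ)
      (G₀ : Γ₀ → Fin (k + 1) → MvPolynomial (Fin (k + 1)) ℝ) (b₀ : Γ₀ → Fin (k + 1) → ℤ)
      (la₀ lb₀ : Γ₀ → Fin (k + 1) → ℝ) (y : V → Fin (k + 1) → ℝ) (h : ℝ),
      IsLaw r → 1 ≤ M → 1 ≤ L → 1 ≤ K → (∀ i, 1 ≤ N₃ i) → 0 < h →
      C * Real.exp h ≤ ((K * N₃ 0 : ℕ) : ℝ) →
      (∀ v, 0 < r v → (∀ i, (G (c v) i).totalDegree ≤ K₀) ∧ G (c v) 0 = 0 ∧
        (f (c v)).totalDegree ≤ Kf ∧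
        nidx (fun i => K * N₃ i) (ndg M (G (c v)) (y v)) = b₂ (c v) ∧
        ((ndg M (G (c v)) (y v) 0 : ℤ) : ℝ) = M * y v 0 ∧
        ∀ l, y v l = la (c v) l + y v 0 * lb (c v) l) →
      (∀ v, 0 < r v → G₀ (c₀ v) = G (c v) ∧ la₀ (c₀ v) = la (c v) ∧ lb₀ (c₀ v) = lb (c v) ∧
        b₀ (c₀ v) = fun i => b₂ (c v) i / (L : ℤ)) →
      ms r (fun v => ¬ SF (C * Real.exp ((k * Kf + 1 : ℕ) * h)) M K N₃ (G (c v)) (f (c v))
        (y v)) ≤
        C * ((Real.log ((K * N₃ 0 : ℕ) : ℝ) -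
          CH r (fun v => nrem (fun i => K * N₃ i) (ndg M (G (c v)) (y v)) 0) c) +
          (Real.log ((L * (K * N₃ 0) : ℕ) : ℝ) -
          CH r (fun v => nrem (fun i => L * (K * N₃ i)) (ndg M (G₀ (c₀ v)) (y v)) 0) c₀) + 1) /
          h := by
  classical
  obtain ⟨C₁, hC₁, hsl⟩ := slc_nat k Kf K₀
  obtain ⟨C₂, hC₂, hve⟩ := vel_ev k K₀
  have hpw : (1 : ℝ) ≤ (C₂ + 1) ^ (k * Kf) := one_le_pow₀ (by linarith)
  refine ⟨C₁ + C₂ + C₁ * (C₂ + 1) ^ (k * Kf), by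
    have : (0 : ℝ) ≤ C₁ * (C₂ + 1) ^ (k * Kf) := by positivity
    linarith, ?_⟩
  intro V Γ Γ₀ _ r c c₀ M L K N₃ G b₂ f la lb G₀ b₀ la₀ lb₀ y h hr hM hL hK hN₃ hh hCM hdat hcc
  have hr0 := hr.nonneg
  have hexp := Real.exp_pos h
  have hexp1 : 1 ≤ Real.exp h := Real.one_le_exp hh.le
  have hP0 : (0 : ℝ) ≤ C₁ * (C₂ + 1) ^ (k * Kf) := by positivity
  have hN₂ : ∀ i, 1 ≤ K * N₃ i := fun i => Nat.mul_pos hK (hN₃ i)
  have hN₀ : ∀ i, 1 ≤ L * (K * N₃ i) := fun i => Nat.mul_pos hL (hN₂ i)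
  have h1 := hsl V Γ r c M K N₃ G b₂ f la lb y h hr hM hK hN₃ hh
    (le_trans (mul_le_mul_of_nonneg_right (by linarith) hexp.le) hCM) hdat
  have h2 := hve V Γ₀ r c₀ M (fun i => L * (K * N₃ i)) G₀ b₀ la₀ lb₀ y h hr hM hN₀ hh (by
    refine le_trans ?_ (hCM.trans ?_)
    · exact mul_le_mul_of_nonneg_right (by linarith) hexp.le
    · exact_mod_cast Nat.le_mul_of_pos_left (K * N₃ 0) hL) (fun v hv => by
    obtain ⟨hGd, hG0, hfd, hb₂, hint, hline⟩ := hdat v hv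
    obtain ⟨e1, e2, e3, e4⟩ := hcc v hv
    rw [e1, e2, e3, e4]
    refine ⟨hGd, hG0, ?_, hint, hline⟩
    have h3 : (fun i => L * (K * N₃ i)) = fun i => L * ((fun i => K * N₃ i) i) := rfl
    rw [h3, nidx_mul, hb₂])
  set δ₁ : ℝ := Real.log ((K * N₃ 0 : ℕ) : ℝ) -
    CH r (fun v => nrem (fun i => K * N₃ i) (ndg M (G (c v)) (y v)) 0) c with hδ₁
  set δ₂ : ℝ := Real.log ((L * (K * N₃ 0) : ℕ) : ℝ) -
    CH r (fun v => nrem (fun i => L * (K * N₃ i)) (ndg M (G₀ (c₀ v)) (y v)) 0) c₀ with hδ₂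
  have hδ₁0 : 0 ≤ δ₁ := by
    have h3 := CH_le_H hr (fun v => nrem (fun i => K * N₃ i) (ndg M (G (c v)) (y v)) 0) c
    have h4 := H_le_log_card hr0 hr.sum_one
      (fun v => nrem (fun i => K * N₃ i) (ndg M (G (c v)) (y v)) 0) (Finset.range (K * N₃ 0))
      (fun v _ => Finset.mem_range.mpr (nrem_lt (Ng := fun i => K * N₃ i) hN₂ _ 0))
    rw [Finset.card_range] at h4
    linarith
  have hδ₂0 : 0 ≤ δ₂ := by
    have h3 := CH_le_H hr
      (fun v => nrem (fun i => L * (K * N₃ i)) (ndg M (G₀ (c₀ v)) (y v)) 0) c₀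
    have h4 := H_le_log_card hr0 hr.sum_one
      (fun v => nrem (fun i => L * (K * N₃ i)) (ndg M (G₀ (c₀ v)) (y v)) 0)
      (Finset.range (L * (K * N₃ 0)))
      (fun v _ => Finset.mem_range.mpr (nrem_lt (Ng := fun i => L * (K * N₃ i)) hN₀ _ 0))
    rw [Finset.card_range] at h4
    linarith
  refine (ms_le (P' := fun v => ¬ SGd Kf C₁ (Real.exp h) M K N₃ (G (c v)) (f (c v)) (la (c v))
    (lb (c v)) (y v) ∨ ¬ Vel (C₂ * Real.exp h) M (fun i => L * (K * N₃ i)) (G₀ (c₀ v))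
      (b₀ (c₀ v)) (la₀ (c₀ v)) (lb₀ (c₀ v))) hr0 ?_).trans ((ms_or hr0 _ _).trans ?_)
  · intro v hv hnot
    by_contra hcon
    push Not at hcon
    obtain ⟨hsg, hvl⟩ := hcon
    refine hnot ?_
    intro B hB
    obtain ⟨hGd, hG0, hfd, hb₂, hint, hline⟩ := hdat v hv
    obtain ⟨e1, e2, e3, e4⟩ := hcc v hv
    rw [e1, e2, e3, e4] at hvl
    have h3 : Vel (C₂ * Real.exp h) M (fun i => K * N₃ i) (G (c v)) (b₂ (c v)) (la (c v))
      (lb (c v)) := vel_sub hM hL hN₂ hvl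
    rw [← hb₂] at h3
    have h4 := hsg (C₂ * Real.exp h) (by positivity) h3 B hB
    have hB0 : 0 ≤ B := by
      have h5 := hB (fun i => ((jdg K (nidx N₃ (ndg M (G (c v)) (y v))) i.succ : ℕ) : ℝ) / K)
        (fun i => ⟨le_refl _, by
          refine div_le_div_of_nonneg_right ?_ (Nat.cast_nonneg K)
          linarith⟩)
      exact (abs_nonneg _).trans h5
    refine h4.trans ?_
    have h5 : (C₂ * Real.exp h + 1) ^ (k * Kf) ≤ (C₂ + 1) ^ (k * Kf) * Real.exp h ^ (k * Kf) := by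
      rw [← mul_pow]
      exact pow_le_pow_left₀ (by positivity) (by nlinarith) _
    have h6 : Real.exp ((k * Kf + 1 : ℕ) * h) = Real.exp h ^ (k * Kf) * Real.exp h := by
      rw [← pow_succ, ← Real.exp_nat_mul]
    rw [h6]
    calc C₁ * (C₂ * Real.exp h + 1) ^ (k * Kf) * Real.exp h * B ≤
          C₁ * ((C₂ + 1) ^ (k * Kf) * Real.exp h ^ (k * Kf)) * Real.exp h * B := by
          refine mul_le_mul_of_nonneg_right ?_ hB0
          refine mul_le_mul_of_nonneg_right ?_ hexp.le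
          exact mul_le_mul_of_nonneg_left h5 (by linarith)
      _ = (C₁ * (C₂ + 1) ^ (k * Kf)) * (Real.exp h ^ (k * Kf) * Real.exp h) * B := by ring
      _ ≤ _ := by
          refine mul_le_mul_of_nonneg_right ?_ hB0
          exact mul_le_mul_of_nonneg_right (by linarith) (by positivity)
  · refine (add_le_add h1 h2).trans ?_
    rw [← add_div]
    refine div_le_div_of_nonneg_right ?_ hh.le
    have h3 : C₁ * (δ₁ + 1) + C₂ * (δ₂ + 1) ≤ (C₁ + C₂) * (δ₁ + δ₂ + 1) := by nlinarith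
    refine h3.trans ?_
    exact mul_le_mul_of_nonneg_right (by linarith) (by linarith)

end Pool.JMS
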