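import Mathlib

/-!
# Forms are large at one vector of a finite net

A form of degree `rho` in `k + 1` variables with a large coefficient is large at a vector with
first coordinate `1` and the other coordinates in `{0, .., K}`.
-/

set_option autoImplicit false

namespace Pool.JMN

open Finset

/-- The inverse of the Vandermonde matrix of the nodes `0, .., K`. -/
theorem vdm (K : ℕ) : ∃ L : Fin (K + 1) → Fin (K + 1) → ℝ, ∀ β γ : Fin (K + 1),
    ∑ x, L β x * ((x : ℕ) : ℝ) ^ (γ : ℕ) = if β = γ then 1 else 0 := by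
  classical
  obtain ⟨V, hV⟩ : ∃ V : Matrix (Fin (K + 1)) (Fin (K + 1)) ℝ,
    V = Matrix.vandermonde fun x => ((x : ℕ) : ℝ) := ⟨_, rfl⟩
  have hdet : V.det ≠ 0 := by
    rw [hV, Matrix.det_vandermonde_ne_zero_iff]
    intro x y h
    exact Fin.ext (Nat.cast_injective h)
  obtain ⟨W, h1⟩ : ∃ W : Matrix (Fin (K + 1)) (Fin (K + 1)) ℝ, W * V = 1 :=
    ⟨V⁻¹, Matrix.nonsing_inv_mul V (isUnit_iff_ne_zero.2 hdet)⟩
  refine ⟨W, fun β γ => ?_⟩
  have h2 := congrFun (congrFun h1 β) γ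
  rw [Matrix.mul_apply, Matrix.one_apply] at h2
  rw [← h2]
  refine Finset.sum_congr rfl fun x _ => ?_
  have h3 : V x γ = ((x : ℕ) : ℝ) ^ (γ : ℕ) := by rw [hV, Matrix.vandermonde_apply]
  rw [h3]

/-- The coefficients of a polynomial of degree at most `K` in each variable from its values on the
grid. -/
theorem vdm_prod {k K : ℕ} {L : Fin (K + 1) → Fin (K + 1) → ℝ}
    (hL : ∀ β γ : Fin (K + 1), ∑ x, L β x * ((x : ℕ) : ℝ) ^ (γ : ℕ) = if β = γ then 1 else 0)
    (β γ : Fin k → Fin (K + 1)) :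
    ∑ x : Fin k → Fin (K + 1), (∏ i, L (β i) (x i)) * ∏ i, ((x i : ℕ) : ℝ) ^ (γ i : ℕ) =
      if β = γ then 1 else 0 := by
  classical
  have h1 : ∀ x : Fin k → Fin (K + 1), (∏ i, L (β i) (x i)) * ∏ i, ((x i : ℕ) : ℝ) ^ (γ i : ℕ) =
      ∏ i, L (β i) (x i) * ((x i : ℕ) : ℝ) ^ (γ i : ℕ) := fun x => Finset.prod_mul_distrib.symm
  rw [Finset.sum_congr rfl fun x _ => h1 x]
  have h2 := Finset.prod_univ_sum (fun _ : Fin k => (Finset.univ : Finset (Fin (K + 1))))
    (fun i x => L (β i) x * ((x : ℕ) : ℝ) ^ (γ i : ℕ))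
  rw [Fintype.piFinset_univ] at h2
  rw [← h2, Finset.prod_congr rfl fun i _ => hL (β i) (γ i)]
  by_cases h : β = γ
  · rw [if_pos h, h]
    simp
  · rw [if_neg h]
    obtain ⟨i, hi⟩ : ∃ i, β i ≠ γ i := by
      by_contra hcon
      push Not at hcon
      exact h (funext hcon)
    exact Finset.prod_eq_zero (Finset.mem_univ i) (if_neg hi)

/-- **The net lemma.** -/
theorem net (k K : ℕ) (hK : 1 ≤ K) : ∃ c : ℝ, 0 < c ∧ ∀ (rho : ℕ)
    (g : (Fin (k + 1) → Fin (K + 1)) → ℝ), (∀ al, g al ≠ 0 → ∑ i, (al i : ℕ) = rho) →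
    ∀ al0, ∃ e : Fin (k + 1) → ℕ, e 0 = 1 ∧ (∀ i, e i ≤ K) ∧
      c * |g al0| ≤ |∑ al, g al * ∏ i, (e i : ℝ) ^ (al i : ℕ)| := by
  classical
  obtain ⟨L, hL⟩ := vdm K
  obtain ⟨M, hM⟩ : ∃ M : ℝ, M = 1 + ∑ β : Fin k → Fin (K + 1), ∑ x : Fin k → Fin (K + 1),
    |∏ i, L (β i) (x i)| := ⟨_, rfl⟩
  have hM0 : 0 < M := by
    rw [hM]
    have : 0 ≤ ∑ β : Fin k → Fin (K + 1), ∑ x : Fin k → Fin (K + 1), |∏ i, L (β i) (x i)| :=
      Finset.sum_nonneg fun β _ => Finset.sum_nonneg fun x _ => abs_nonneg _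
    linarith
  refine ⟨1 / M, by positivity, fun rho g hg al0 => ?_⟩
  obtain ⟨e, he⟩ : ∃ e : (Fin k → Fin (K + 1)) → Fin (k + 1) → ℕ,
    e = fun x => Fin.cons 1 fun i => (x i : ℕ) := ⟨_, rfl⟩
  have he0 : ∀ x, e x 0 = 1 := fun x => by rw [he]; rfl
  have hes : ∀ x (i : Fin k), e x i.succ = (x i : ℕ) := fun x i => by
    rw [he]
    simp
  have heK : ∀ x i, e x i ≤ K := by
    intro x i
    refine Fin.cases ?_ (fun j => ?_) i
    · rw [he0]
      exact hK
    · rw [hes]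
      exact Nat.lt_succ_iff.mp (x j).isLt
  obtain ⟨P, hP⟩ : ∃ P : (Fin k → Fin (K + 1)) → ℝ, P = fun x =>
    ∑ al, g al * ∏ i, (e x i : ℝ) ^ (al i : ℕ) := ⟨_, rfl⟩
  by_contra hcon
  push Not at hcon
  have hlt : ∀ x, |P x| < 1 / M * |g al0| := fun x => by
    have := hcon (e x) (he0 x) (heK x)
    rw [hP]
    exact this
  have hpos : 0 < |g al0| := by
    have h1 := (abs_nonneg _).trans_lt (hlt fun _ => 0)
    exact (mul_pos_iff_of_pos_left (by positivity)).mp h1
  have hr0 : ∑ i, (al0 i : ℕ) = rho := hg al0 (abs_pos.mp hpos)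
  -- the value of the coefficient
  have key : ∑ x : Fin k → Fin (K + 1), (∏ i, L (al0 i.succ) (x i)) * P x = g al0 := by
    have h1 : ∀ x, P x = ∑ al, g al * ∏ i : Fin k, ((x i : ℕ) : ℝ) ^ (al i.succ : ℕ) := by
      intro x
      rw [hP]
      refine Finset.sum_congr rfl fun al _ => ?_
      rw [Fin.prod_univ_succ, he0, Nat.cast_one, one_pow, one_mul]
      refine congrArg _ (Finset.prod_congr rfl fun i _ => ?_)
      rw [hes]
    have h2 : ∀ x, (∏ i, L (al0 i.succ) (x i)) * P x = ∑ al, g al *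
        ((∏ i, L (al0 i.succ) (x i)) * ∏ i : Fin k, ((x i : ℕ) : ℝ) ^ (al i.succ : ℕ)) := by
      intro x
      rw [h1, Finset.mul_sum]
      exact Finset.sum_congr rfl fun al _ => by ring
    rw [Finset.sum_congr rfl fun x _ => h2 x, Finset.sum_comm]
    have h3 : ∀ al, ∑ x : Fin k → Fin (K + 1), g al *
        ((∏ i, L (al0 i.succ) (x i)) * ∏ i : Fin k, ((x i : ℕ) : ℝ) ^ (al i.succ : ℕ)) =
        if al = al0 then g al else 0 := by
      intro al
      rw [← Finset.mul_sum, vdm_prod hL (fun i => al0 i.succ) (fun i => al i.succ)]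
      by_cases h4 : al = al0
      · rw [if_pos h4, if_pos (by rw [h4]), mul_one]
      · rw [if_neg h4]
        by_cases h5 : g al = 0
        · rw [h5, zero_mul]
        · rw [if_neg, mul_zero]
          intro h6
          refine h4 (funext fun i => ?_)
          have h7 : ∀ j : Fin k, al j.succ = al0 j.succ := fun j => (congrFun h6 j).symm
          refine Fin.cases ?_ h7 i
          have h8 := hg al h5
          rw [← hr0, Fin.sum_univ_succ, Fin.sum_univ_succ,
            Finset.sum_congr rfl fun j _ => by rw [h7 j]] at h8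
          exact Fin.ext (Nat.add_right_cancel h8)
    rw [Finset.sum_congr rfl fun al _ => h3 al, Finset.sum_ite_eq' Finset.univ al0,
      if_pos (Finset.mem_univ _)]
  have h1 : |g al0| ≤ ∑ x : Fin k → Fin (K + 1), |∏ i, L (al0 i.succ) (x i)| *
      (1 / M * |g al0|) := by
    rw [← key]
    refine (Finset.abs_sum_le_sum_abs _ _).trans (Finset.sum_le_sum fun x _ => ?_)
    rw [abs_mul, key]
    exact mul_le_mul_of_nonneg_left (hlt x).le (abs_nonneg _)
  rw [← Finset.sum_mul] at h1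
  have h2 : ∑ x : Fin k → Fin (K + 1), |∏ i, L (al0 i.succ) (x i)| ≤ M - 1 := by
    rw [hM, add_sub_cancel_left]
    exact Finset.single_le_sum (f := fun β : Fin k → Fin (K + 1) =>
      ∑ x : Fin k → Fin (K + 1), |∏ i, L (β i) (x i)|)
      (fun β _ => Finset.sum_nonneg fun x _ => abs_nonneg _)
      (Finset.mem_univ (fun i : Fin k => al0 i.succ))
  have h3 := mul_le_mul_of_nonneg_right h2 (show 0 ≤ 1 / M * |g al0| by positivity)
  have h4 : (M - 1) * (1 / M * |g al0|) = |g al0| - 1 / M * |g al0| := by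
    field_simp
  have h5 : 0 < 1 / M * |g al0| := by positivity
  linarith

end Pool.JMN
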