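import Pool.Agent.H81.JM.Net

/-!
# Coefficient arrays of polynomials: shift, bounds, equivalence of the norms

`q : (Fin k → Fin (K + 1)) → ℝ` is the polynomial of degree at most `K` in each variable.
-/

set_option autoImplicit false

namespace Pool.JMN

open Finset

variable {k K : ℕ}

/-- The value of a polynomial. -/
def ev (q : (Fin k → Fin (K + 1)) → ℝ) (x : Fin k → ℝ) : ℝ :=
  ∑ a, q a * ∏ i, x i ^ (a i : ℕ)

/-- The Taylor coefficients at the point `z`. -/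
def shf (z : Fin k → ℝ) (q : (Fin k → Fin (K + 1)) → ℝ) (a : Fin k → Fin (K + 1)) : ℝ :=
  ∑ b, (∏ i, (((b i : ℕ).choose (a i : ℕ) : ℕ) : ℝ) * z i ^ ((b i : ℕ) - (a i : ℕ))) * q b

/-- The total degree of a monomial. -/
def tdg (a : Fin k → Fin (K + 1)) : ℕ := ∑ i, (a i : ℕ)

theorem tdg_le (a : Fin k → Fin (K + 1)) : tdg a ≤ k * K := by
  unfold tdg
  refine (Finset.sum_le_sum fun i _ => Nat.lt_succ_iff.mp (a i).isLt).trans ?_
  rw [Finset.sum_const, Finset.card_univ, Fintype.card_fin, smul_eq_mul]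

/-- The binomial theorem with one bound for the degree. -/
theorem bin (K : ℕ) {n : ℕ} (hn : n ≤ K) (z h : ℝ) :
    ∑ a : Fin (K + 1), ((n.choose (a : ℕ) : ℕ) : ℝ) * z ^ (n - (a : ℕ)) * h ^ (a : ℕ) =
      (z + h) ^ n := by
  rw [add_comm z h, add_pow, Fin.sum_univ_eq_sum_range (fun a => ((n.choose a : ℕ) : ℝ) *
    z ^ (n - a) * h ^ a)]
  have h1 : Finset.range (n + 1) ⊆ Finset.range (K + 1) :=
    Finset.range_subset_range.2 (by omega)
  rw [← Finset.sum_subset h1]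
  · exact Finset.sum_congr rfl fun a _ => by ring
  · intro a _ ha
    rw [Finset.mem_range] at ha
    rw [Nat.choose_eq_zero_of_lt (by omega), Nat.cast_zero, zero_mul, zero_mul]

theorem ev_shf (z : Fin k → ℝ) (q : (Fin k → Fin (K + 1)) → ℝ) (h : Fin k → ℝ) :
    ev (shf z q) h = ev q (fun i => z i + h i) := by
  classical
  unfold ev shf
  have h1 : ∀ b : Fin k → Fin (K + 1), ∏ i, (z i + h i) ^ (b i : ℕ) =
      ∑ a : Fin k → Fin (K + 1), (∏ i, (((b i : ℕ).choose (a i : ℕ) : ℕ) : ℝ) *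
        z i ^ ((b i : ℕ) - (a i : ℕ))) * ∏ i, h i ^ (a i : ℕ) := by
    intro b
    have h2 := Finset.prod_univ_sum (fun _ : Fin k => (Finset.univ : Finset (Fin (K + 1))))
      (fun i (a : Fin (K + 1)) => (((b i : ℕ).choose (a : ℕ) : ℕ) : ℝ) *
        z i ^ ((b i : ℕ) - (a : ℕ)) * h i ^ (a : ℕ))
    rw [Fintype.piFinset_univ] at h2
    rw [Finset.prod_congr rfl fun i _ => (bin K (Nat.lt_succ_iff.mp (b i).isLt) (z i) (h i)).symm,
      h2]
    exact Finset.sum_congr rfl fun a _ => Finset.prod_mul_distrib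
  have h3 : ∀ a : Fin k → Fin (K + 1), (∑ b : Fin k → Fin (K + 1),
      (∏ i, (((b i : ℕ).choose (a i : ℕ) : ℕ) : ℝ) * z i ^ ((b i : ℕ) - (a i : ℕ))) * q b) *
        ∏ i, h i ^ (a i : ℕ) = ∑ b : Fin k → Fin (K + 1), q b *
        ((∏ i, (((b i : ℕ).choose (a i : ℕ) : ℕ) : ℝ) * z i ^ ((b i : ℕ) - (a i : ℕ))) *
          ∏ i, h i ^ (a i : ℕ)) := by
    intro a
    rw [Finset.sum_mul]
    exact Finset.sum_congr rfl fun b _ => by ring
  rw [Finset.sum_congr rfl fun a _ => h3 a, Finset.sum_comm]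
  refine Finset.sum_congr rfl fun b _ => ?_
  rw [← Finset.mul_sum, h1 b]

/-- A polynomial is determined by its values on the grid. -/
theorem arr_ext {p q : (Fin k → Fin (K + 1)) → ℝ} (h : ∀ x, ev p x = ev q x) : p = q := by
  classical
  obtain ⟨L, hL⟩ := vdm K
  have key : ∀ (g : (Fin k → Fin (K + 1)) → ℝ) (b : Fin k → Fin (K + 1)),
      ∑ x : Fin k → Fin (K + 1), (∏ i, L (b i) (x i)) * ev g (fun i => ((x i : ℕ) : ℝ)) =
        g b := by
    intro g b
    have h2 : ∀ x : Fin k → Fin (K + 1), (∏ i, L (b i) (x i)) *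
        ev g (fun i => ((x i : ℕ) : ℝ)) = ∑ a, g a *
        ((∏ i, L (b i) (x i)) * ∏ i, ((x i : ℕ) : ℝ) ^ (a i : ℕ)) := by
      intro x
      unfold ev
      rw [Finset.mul_sum]
      exact Finset.sum_congr rfl fun a _ => by ring
    rw [Finset.sum_congr rfl fun x _ => h2 x, Finset.sum_comm]
    have h3 : ∀ a : Fin k → Fin (K + 1), ∑ x : Fin k → Fin (K + 1), g a *
        ((∏ i, L (b i) (x i)) * ∏ i, ((x i : ℕ) : ℝ) ^ (a i : ℕ)) =
        if b = a then g a else 0 := by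
      intro a
      rw [← Finset.mul_sum, vdm_prod hL b a]
      split_ifs <;> simp
    rw [Finset.sum_congr rfl fun a _ => h3 a, Finset.sum_ite_eq Finset.univ b,
      if_pos (Finset.mem_univ _)]
  funext b
  rw [← key p b, ← key q b]
  exact Finset.sum_congr rfl fun x _ => by rw [h]

/-- **The shift is an action.** -/
theorem shf_shf (z w : Fin k → ℝ) (q : (Fin k → Fin (K + 1)) → ℝ) :
    shf z (shf w q) = shf (fun i => w i + z i) q := by
  refine arr_ext fun x => ?_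
  rw [ev_shf, ev_shf, ev_shf]
  exact congrArg _ (funext fun i => by ring)

theorem shf_zero (q : (Fin k → Fin (K + 1)) → ℝ) : shf (fun _ => 0) q = q := by
  refine arr_ext fun x => ?_
  rw [ev_shf]
  exact congrArg _ (funext fun i => by ring)

theorem ev_sub (p q : (Fin k → Fin (K + 1)) → ℝ) (x : Fin k → ℝ) :
    ev (fun a => p a - q a) x = ev p x - ev q x := by
  unfold ev
  rw [← Finset.sum_sub_distrib]
  exact Finset.sum_congr rfl fun a _ => by ring

theorem shf_sub (z : Fin k → ℝ) (p q : (Fin k → Fin (K + 1)) → ℝ) (a : Fin k → Fin (K + 1)) :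
    shf z (fun a => p a - q a) a = shf z p a - shf z q a := by
  unfold shf
  rw [← Finset.sum_sub_distrib]
  exact Finset.sum_congr rfl fun b _ => by ring

/-- The number of monomials times the binomial coefficients. -/
noncomputable def cK (k K : ℕ) : ℝ := ((K : ℝ) + 1) ^ k * 2 ^ (K * k)

theorem cK_ge (k K : ℕ) : 1 ≤ cK k K := by
  unfold cK
  have h1 : (1 : ℝ) ≤ ((K : ℝ) + 1) ^ k := one_le_pow₀ (by
    have : (0 : ℝ) ≤ K := Nat.cast_nonneg K
    linarith)
  have h2 : (1 : ℝ) ≤ 2 ^ (K * k) := one_le_pow₀ (by norm_num)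
  nlinarith

/-- **The Taylor coefficients of order at least `|a|` bound the coefficient `a` of the shift.** -/
theorem shf_le {z : Fin k → ℝ} {q : (Fin k → Fin (K + 1)) → ℝ} {ρ m : ℝ} (hρ : 0 < ρ)
    (hm : 0 ≤ m) (hz : ∀ i, |z i| ≤ ρ) (a : Fin k → Fin (K + 1))
    (hq : ∀ b, tdg a ≤ tdg b → |q b| * ρ ^ tdg b ≤ m) :
    |shf z q a| * ρ ^ tdg a ≤ cK k K * m := by
  classical
  have h1 : ∀ b : Fin k → Fin (K + 1), |(∏ i, (((b i : ℕ).choose (a i : ℕ) : ℕ) : ℝ) *
      z i ^ ((b i : ℕ) - (a i : ℕ))) * q b| * ρ ^ tdg a ≤ 2 ^ (K * k) * m := by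
    intro b
    by_cases hab : ∀ i, (a i : ℕ) ≤ (b i : ℕ)
    · have h2 : tdg a ≤ tdg b := Finset.sum_le_sum fun i _ => hab i
      have h3 : |∏ i, (((b i : ℕ).choose (a i : ℕ) : ℕ) : ℝ) *
          z i ^ ((b i : ℕ) - (a i : ℕ))| ≤ 2 ^ (K * k) * ρ ^ (tdg b - tdg a) := by
        rw [Finset.abs_prod]
        have h4 : ∀ i, |(((b i : ℕ).choose (a i : ℕ) : ℕ) : ℝ) *
            z i ^ ((b i : ℕ) - (a i : ℕ))| ≤ 2 ^ K * ρ ^ ((b i : ℕ) - (a i : ℕ)) := by
          intro i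
          rw [abs_mul, abs_pow, Nat.abs_cast]
          refine mul_le_mul ?_ (pow_le_pow_left₀ (abs_nonneg _) (hz i) _)
            (pow_nonneg (abs_nonneg _) _) (by positivity)
          have h5 := Nat.choose_le_two_pow (b i : ℕ) (a i : ℕ)
          have h6 : (2 : ℕ) ^ (b i : ℕ) ≤ 2 ^ K :=
            Nat.pow_le_pow_right (by norm_num) (Nat.lt_succ_iff.mp (b i).isLt)
          exact_mod_cast h5.trans h6
        refine (Finset.prod_le_prod (fun i _ => abs_nonneg _) fun i _ => h4 i).trans ?_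
        rw [Finset.prod_mul_distrib, Finset.prod_const, Finset.card_univ, Fintype.card_fin,
          ← pow_mul, Finset.prod_pow_eq_pow_sum]
        have h7 : ∑ i, ((b i : ℕ) - (a i : ℕ)) = tdg b - tdg a := by
          unfold tdg
          rw [Finset.sum_tsub_distrib _ fun i _ => hab i]
        rw [h7]
      have h8 : ρ ^ (tdg b - tdg a) * ρ ^ tdg a = ρ ^ tdg b := by
        rw [← pow_add, Nat.sub_add_cancel h2]
      rw [abs_mul]
      calc |∏ i, (((b i : ℕ).choose (a i : ℕ) : ℕ) : ℝ) * z i ^ ((b i : ℕ) - (a i : ℕ))| *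
            |q b| * ρ ^ tdg a
          ≤ (2 ^ (K * k) * ρ ^ (tdg b - tdg a)) * |q b| * ρ ^ tdg a := by
            refine mul_le_mul_of_nonneg_right (mul_le_mul_of_nonneg_right h3 (abs_nonneg _))
              (by positivity)
        _ = 2 ^ (K * k) * (|q b| * ρ ^ tdg b) := by
            rw [← h8]
            ring
        _ ≤ 2 ^ (K * k) * m := mul_le_mul_of_nonneg_left (hq b h2) (by positivity)
    · push Not at hab
      obtain ⟨i, hi⟩ := hab
      have h2 : ∏ i, (((b i : ℕ).choose (a i : ℕ) : ℕ) : ℝ) *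
          z i ^ ((b i : ℕ) - (a i : ℕ)) = 0 :=
        Finset.prod_eq_zero (Finset.mem_univ i) (by
          rw [Nat.choose_eq_zero_of_lt hi, Nat.cast_zero, zero_mul])
      rw [h2, zero_mul, abs_zero, zero_mul]
      positivity
  unfold shf
  have h2 : |∑ b : Fin k → Fin (K + 1), (∏ i, (((b i : ℕ).choose (a i : ℕ) : ℕ) : ℝ) *
      z i ^ ((b i : ℕ) - (a i : ℕ))) * q b| * ρ ^ tdg a ≤
      ∑ b : Fin k → Fin (K + 1), 2 ^ (K * k) * m := by
    refine (mul_le_mul_of_nonneg_right (Finset.abs_sum_le_sum_abs _ _) (by positivity)).trans ?_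
    rw [Finset.sum_mul]
    exact Finset.sum_le_sum fun b _ => h1 b
  refine h2.trans (le_of_eq ?_)
  rw [Finset.sum_const, Finset.card_univ, Fintype.card_fun, Fintype.card_fin, Fintype.card_fin,
    nsmul_eq_mul]
  unfold cK
  push_cast
  ring

/-- The value from the coefficients. -/
theorem ev_le {q : (Fin k → Fin (K + 1)) → ℝ} {ρ m : ℝ}
    (hq : ∀ a, |q a| * ρ ^ tdg a ≤ m) {x : Fin k → ℝ} (hx : ∀ i, |x i| ≤ ρ) :
    |ev q x| ≤ ((K : ℝ) + 1) ^ k * m := by
  classical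
  unfold ev
  refine (Finset.abs_sum_le_sum_abs _ _).trans ?_
  have h1 : ∀ a : Fin k → Fin (K + 1), |q a * ∏ i, x i ^ (a i : ℕ)| ≤ m := by
    intro a
    rw [abs_mul, Finset.abs_prod]
    have h2 : ∏ i, |x i ^ (a i : ℕ)| ≤ ρ ^ tdg a := by
      unfold tdg
      rw [← Finset.prod_pow_eq_pow_sum]
      refine Finset.prod_le_prod (fun i _ => abs_nonneg _) fun i _ => ?_
      rw [abs_pow]
      exact pow_le_pow_left₀ (abs_nonneg _) (hx i) _
    exact (mul_le_mul_of_nonneg_left h2 (abs_nonneg _)).trans (hq a)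
  refine (Finset.sum_le_sum fun a _ => h1 a).trans (le_of_eq ?_)
  rw [Finset.sum_const, Finset.card_univ, Fintype.card_fun, Fintype.card_fin, Fintype.card_fin,
    nsmul_eq_mul]
  push_cast
  ring

/-- **The coefficients from the values**: on the box `[0, ρ] ^ k`. -/
theorem coef_le (k K : ℕ) : ∃ C : ℝ, 1 ≤ C ∧ ∀ (q : (Fin k → Fin (K + 1)) → ℝ) (ρ m : ℝ),
    0 < ρ → (∀ x : Fin k → ℝ, (∀ i, 0 ≤ x i ∧ x i ≤ ρ) → |ev q x| ≤ m) →
    ∀ a, |q a| * ρ ^ tdg a ≤ C * m := by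
  classical
  obtain ⟨L, hL⟩ := vdm K
  obtain ⟨M, hM⟩ : ∃ M : ℝ, M = 1 + ∑ b : Fin k → Fin (K + 1), ∑ x : Fin k → Fin (K + 1),
    |∏ i, L (b i) (x i)| := ⟨_, rfl⟩
  have hM1 : 1 ≤ M := by
    rw [hM]
    have : 0 ≤ ∑ b : Fin k → Fin (K + 1), ∑ x : Fin k → Fin (K + 1), |∏ i, L (b i) (x i)| :=
      Finset.sum_nonneg fun b _ => Finset.sum_nonneg fun x _ => abs_nonneg _
    linarith
  have hK1 : (1 : ℝ) ≤ (K : ℝ) + 1 := by
    have : (0 : ℝ) ≤ K := Nat.cast_nonneg K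
    linarith
  refine ⟨((K : ℝ) + 1) ^ (k * K) * M, ?_, fun q ρ m hρ hq a => ?_⟩
  · have h1 : (1 : ℝ) ≤ ((K : ℝ) + 1) ^ (k * K) := one_le_pow₀ hK1
    nlinarith
  have hm : 0 ≤ m := (abs_nonneg _).trans (hq (fun _ => 0) fun i => ⟨le_rfl, hρ.le⟩)
  -- the scaled array
  obtain ⟨g, hg⟩ : ∃ g : (Fin k → Fin (K + 1)) → ℝ, g = fun a =>
    q a * (ρ / ((K : ℝ) + 1)) ^ tdg a := ⟨_, rfl⟩
  have h1 : ∀ x : Fin k → Fin (K + 1), ev g (fun i => ((x i : ℕ) : ℝ)) =
      ev q (fun i => ρ / ((K : ℝ) + 1) * ((x i : ℕ) : ℝ)) := by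
    intro x
    unfold ev
    refine Finset.sum_congr rfl fun b _ => ?_
    rw [hg]
    simp only [mul_pow]
    rw [Finset.prod_mul_distrib, Finset.prod_pow_eq_pow_sum]
    unfold tdg
    ring
  have h2 : ∀ x : Fin k → Fin (K + 1), |ev g (fun i => ((x i : ℕ) : ℝ))| ≤ m := by
    intro x
    rw [h1]
    refine hq _ fun i => ⟨by positivity, ?_⟩
    have h3 : ((x i : ℕ) : ℝ) ≤ (K : ℝ) + 1 := by
      have := (x i).isLt
      exact_mod_cast this.le
    rw [div_mul_eq_mul_div, div_le_iff₀ (by positivity)]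
    exact mul_le_mul_of_nonneg_left h3 hρ.le
  have key : ∑ x : Fin k → Fin (K + 1), (∏ i, L (a i) (x i)) *
      ev g (fun i => ((x i : ℕ) : ℝ)) = g a := by
    have h2 : ∀ x : Fin k → Fin (K + 1), (∏ i, L (a i) (x i)) *
        ev g (fun i => ((x i : ℕ) : ℝ)) = ∑ b, g b *
        ((∏ i, L (a i) (x i)) * ∏ i, ((x i : ℕ) : ℝ) ^ (b i : ℕ)) := by
      intro x
      unfold ev
      rw [Finset.mul_sum]
      exact Finset.sum_congr rfl fun b _ => by ring
    rw [Finset.sum_congr rfl fun x _ => h2 x, Finset.sum_comm]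
    have h3 : ∀ b : Fin k → Fin (K + 1), ∑ x : Fin k → Fin (K + 1), g b *
        ((∏ i, L (a i) (x i)) * ∏ i, ((x i : ℕ) : ℝ) ^ (b i : ℕ)) =
        if a = b then g b else 0 := by
      intro b
      rw [← Finset.mul_sum, vdm_prod hL a b]
      split_ifs <;> simp
    rw [Finset.sum_congr rfl fun b _ => h3 b, Finset.sum_ite_eq Finset.univ a,
      if_pos (Finset.mem_univ _)]
  have h3 : |g a| ≤ M * m := by
    rw [← key]
    refine (Finset.abs_sum_le_sum_abs _ _).trans ?_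
    have h4 : ∀ x : Fin k → Fin (K + 1), |(∏ i, L (a i) (x i)) *
        ev g (fun i => ((x i : ℕ) : ℝ))| ≤ |∏ i, L (a i) (x i)| * m := by
      intro x
      rw [abs_mul]
      exact mul_le_mul_of_nonneg_left (h2 x) (abs_nonneg _)
    refine (Finset.sum_le_sum fun x _ => h4 x).trans ?_
    rw [← Finset.sum_mul]
    refine mul_le_mul_of_nonneg_right ?_ hm
    rw [hM]
    have h5 := Finset.single_le_sum (f := fun b : Fin k → Fin (K + 1) =>
      ∑ x : Fin k → Fin (K + 1), |∏ i, L (b i) (x i)|)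
      (fun b _ => Finset.sum_nonneg fun x _ => abs_nonneg _) (Finset.mem_univ a)
    linarith
  have h4 : |g a| = |q a| * ρ ^ tdg a / ((K : ℝ) + 1) ^ tdg a := by
    rw [hg]
    show |q a * (ρ / ((K : ℝ) + 1)) ^ tdg a| = _
    rw [abs_mul, abs_of_nonneg (show 0 ≤ (ρ / ((K : ℝ) + 1)) ^ tdg a by positivity), div_pow]
    ring
  rw [h4, div_le_iff₀ (by positivity)] at h3
  refine h3.trans ?_
  have h5 : ((K : ℝ) + 1) ^ tdg a ≤ ((K : ℝ) + 1) ^ (k * K) :=
    pow_le_pow_right₀ hK1 (tdg_le a)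
  have h6 : 0 ≤ M * m := by positivity
  calc M * m * ((K : ℝ) + 1) ^ tdg a ≤ M * m * ((K : ℝ) + 1) ^ (k * K) :=
        mul_le_mul_of_nonneg_left h5 h6
    _ = _ := by ring

end Pool.JMN
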