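import Pool.Agent.H81.JM.Rad

/-!
# Algebraic power series: the radius of convergence

A power series `g` which is a root of `S`, where the leading coefficient of `S` and a combination
`d` of `S` and its derivative have no zeros in the disc of radius `a`, has radius at least `a`.
-/

set_option autoImplicit false

namespace Pool.RAY

open Finset PowerSeries

/-- Polynomials as power series. -/
noncomputable abbrev phi : Polynomial ℂ →+* PowerSeries ℂ := Polynomial.coeToPowerSeries.ringHom

theorem phi_apply (p : Polynomial ℂ) : phi p = (p : PowerSeries ℂ) := rfl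

/-- Polynomials as series of radius at least `a`. -/
noncomputable def psi (a : ℝ) : Polynomial ℂ →+* rad a :=
  phi.codRestrict (rad a) fun p => by
    rw [phi_apply]
    exact rad_poly a p

theorem psi_coe (a : ℝ) (p : Polynomial ℂ) : ((psi a p : rad a) : PowerSeries ℂ) = phi p := rfl

theorem subtype_comp_psi (a : ℝ) : (rad a).subtype.comp (psi a) = phi := rfl

/-- The chain rule. -/
theorem chain_rule (S : Polynomial (Polynomial ℂ)) : ∃ T : Polynomial (Polynomial ℂ),
    ∀ g : PowerSeries ℂ, derivative ℂ (S.eval₂ phi g) =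
      T.eval₂ phi g + (Polynomial.derivative S).eval₂ phi g * derivative ℂ g := by
  induction S using Polynomial.induction_on' with
  | add p q hp hq =>
    obtain ⟨T, hT⟩ := hp
    obtain ⟨T', hT'⟩ := hq
    refine ⟨T + T', fun g => ?_⟩
    rw [Polynomial.eval₂_add, map_add, hT, hT', Polynomial.eval₂_add, Polynomial.derivative_add,
      Polynomial.eval₂_add]
    ring
  | monomial n c =>
    refine ⟨Polynomial.monomial n (Polynomial.derivative c), fun g => ?_⟩
    rw [Polynomial.eval₂_monomial, Polynomial.eval₂_monomial, Polynomial.derivative_monomial,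
      Polynomial.eval₂_monomial, Derivation.leibniz, derivative_pow, phi_apply, derivative_coe,
      map_mul, map_natCast, phi_apply, phi_apply]
    simp only [smul_eq_mul]
    ring

/-- **The radius of an algebraic series.** -/
theorem rad_root {a : ℝ} (ha : 0 < a) {S U V : Polynomial (Polynomial ℂ)} {d : Polynomial ℂ}
    (hS : U * S + V * Polynomial.derivative S = Polynomial.C d)
    (hd : ∀ t : ℂ, ‖t‖ < a → d.eval t ≠ 0) (hl : ∀ t : ℂ, ‖t‖ < a → S.leadingCoeff.eval t ≠ 0)
    {g : PowerSeries ℂ} (hg : S.eval₂ phi g = 0) : Rad a g := by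
  classical
  obtain ⟨di, hdi, hdd⟩ := inv_poly ha hd
  obtain ⟨li, hli, hll⟩ := inv_poly ha hl
  obtain ⟨T, hT⟩ := chain_rule S
  have h1 := hT g
  rw [hg, map_zero] at h1
  -- the derivative of the root
  have h2 : V.eval₂ phi g * (Polynomial.derivative S).eval₂ phi g = (d : PowerSeries ℂ) := by
    have h3 := congrArg (Polynomial.eval₂ phi g) hS
    rw [Polynomial.eval₂_add, Polynomial.eval₂_mul, Polynomial.eval₂_mul, hg, mul_zero, zero_add,
      Polynomial.eval₂_C, phi_apply] at h3
    exact h3
  have h3 : derivative ℂ g = -(di * (V.eval₂ phi g * T.eval₂ phi g)) := by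
    have h4 : (d : PowerSeries ℂ) * derivative ℂ g = -(V.eval₂ phi g * T.eval₂ phi g) := by
      rw [← h2]
      linear_combination (-(V.eval₂ phi g)) * h1
    have h5 : derivative ℂ g = di * ((d : PowerSeries ℂ) * derivative ℂ g) := by
      rw [← mul_assoc, mul_comm di, hdd, one_mul]
    rw [h5, h4]
    ring
  -- the ring of the coefficients
  obtain ⟨D, hD⟩ : ∃ D : rad a, (D : PowerSeries ℂ) = di := ⟨⟨di, hdi⟩, rfl⟩
  obtain ⟨E, hE⟩ : ∃ E : rad a, (E : PowerSeries ℂ) = li := ⟨⟨li, hli⟩, rfl⟩
  obtain ⟨s, hs⟩ : ∃ s : rad a →+* PowerSeries ℂ, s = (rad a).subtype := ⟨_, rfl⟩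
  have hsap : ∀ x : rad a, s x = (x : PowerSeries ℂ) := fun x => by rw [hs]; rfl
  have hspsi : ∀ (Q : Polynomial (Polynomial ℂ)), (Q.map (psi a)).eval₂ s g =
      Q.eval₂ phi g := by
    intro Q
    rw [Polynomial.eval₂_map, hs, subtype_comp_psi]
  obtain ⟨L, hL⟩ : ∃ L : Polynomial (rad a), L = Polynomial.C E * S.map (psi a) := ⟨_, rfl⟩
  have hE1 : E * psi a S.leadingCoeff = 1 := by
    refine Subtype.ext ?_
    show (E : PowerSeries ℂ) * phi S.leadingCoeff = 1
    rw [hE, phi_apply, mul_comm]
    exact hll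
  have hLm : L.Monic := by
    unfold Polynomial.Monic
    have h4 : (S.map (psi a)).natDegree = S.natDegree := by
      refine Polynomial.natDegree_map_of_leadingCoeff_ne_zero _ ?_
      intro h
      rw [h, mul_zero] at hE1
      exact one_ne_zero (α := PowerSeries ℂ) (congrArg Subtype.val hE1).symm
    have h5 : L.coeff S.natDegree = 1 := by
      rw [hL, Polynomial.coeff_C_mul, Polynomial.coeff_map]
      exact hE1
    have h6 : L.natDegree = S.natDegree := by
      refine le_antisymm ?_ ?_
      · rw [hL]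
        exact (Polynomial.natDegree_C_mul_le _ _).trans h4.le
      · refine Polynomial.le_natDegree_of_ne_zero ?_
        rw [h5]
        intro h
        exact one_ne_zero (α := PowerSeries ℂ) (congrArg Subtype.val h)
    unfold Polynomial.leadingCoeff
    rw [h6, h5]
  have hLg : L.eval₂ s g = 0 := by
    rw [hL, Polynomial.eval₂_mul, hspsi, hg, mul_zero]
  -- every polynomial in the root is a combination of the first powers
  have hred : ∀ Q : Polynomial (rad a), ∃ c : Fin (L.natDegree + 1) → rad a,
      Q.eval₂ s g = ∑ j, (c j : PowerSeries ℂ) * g ^ (j : ℕ) := by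
    intro Q
    have h4 : Q.eval₂ s g = (Q %ₘ L).eval₂ s g := by
      have h5 := congrArg (Polynomial.eval₂ s g) (Polynomial.modByMonic_add_div Q L)
      rw [Polynomial.eval₂_add, Polynomial.eval₂_mul, hLg, zero_mul, add_zero] at h5
      exact h5.symm
    refine ⟨fun j => (Q %ₘ L).coeff j, ?_⟩
    rw [h4, Polynomial.eval₂_eq_sum_range' s (n := L.natDegree + 1) (lt_of_le_of_lt
      (Polynomial.natDegree_modByMonic_le Q hLm) (Nat.lt_succ_self _)),
      Fin.sum_univ_eq_sum_range (fun j => (((Q %ₘ L).coeff j : rad a) : PowerSeries ℂ) * g ^ j)]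
    exact Finset.sum_congr rfl fun j _ => by rw [hsap]
  have hder : ∀ i : Fin (L.natDegree + 1), ∃ c : Fin (L.natDegree + 1) → rad a,
      derivative ℂ (g ^ (i : ℕ)) = ∑ j, (c j : PowerSeries ℂ) * g ^ (j : ℕ) := by
    intro i
    obtain ⟨c, hc⟩ := hred (-(Polynomial.C ((i : ℕ) : rad a) * Polynomial.X ^ ((i : ℕ) - 1) *
      (Polynomial.C D * ((V * T).map (psi a)))))
    refine ⟨c, ?_⟩
    rw [← hc, derivative_pow, h3, Polynomial.eval₂_neg, Polynomial.eval₂_mul,
      Polynomial.eval₂_mul, Polynomial.eval₂_mul, Polynomial.eval₂_C, Polynomial.eval₂_C,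
      Polynomial.eval₂_X_pow, hspsi, Polynomial.eval₂_mul, hsap, hsap, hD]
    have h5 : (((i : ℕ) : rad a) : PowerSeries ℂ) = ((i : ℕ) : PowerSeries ℂ) := by
      push_cast
      rfl
    rw [h5]
    ring
  choose c hc using hder
  have h4 := rad_ode (y := fun i : Fin (L.natDegree + 1) => g ^ (i : ℕ))
    (N := fun i j => (c i j : PowerSeries ℂ)) (fun i j => (c i j).2) hc
  rcases Nat.eq_zero_or_pos L.natDegree with h5 | h5
  · exfalso
    have h6 : L = 1 := hLm.natDegree_eq_zero.1 h5
    rw [h6, Polynomial.eval₂_one] at hLg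
    exact one_ne_zero hLg
  · have h6 := h4 ⟨1, by omega⟩
    simpa using h6

end Pool.RAY
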