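import Pool.Agent.H81.JM.Arr

/-!
# Coefficient arrays and `MvPolynomial`
-/

set_option autoImplicit false

namespace Pool.JMN

open Finset

variable {k K : ℕ}

/-- The exponent of an index. -/
noncomputable def expo (a : Fin k → Fin (K + 1)) : Fin k →₀ ℕ :=
  Finsupp.equivFunOnFinite.symm fun i => (a i : ℕ)

theorem expo_apply (a : Fin k → Fin (K + 1)) (i : Fin k) : expo a i = (a i : ℕ) := rfl

theorem expo_inj : Function.Injective (expo : (Fin k → Fin (K + 1)) → (Fin k →₀ ℕ)) := by
  intro a b h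
  funext i
  have := DFunLike.congr_fun h i
  rw [expo_apply, expo_apply] at this
  exact Fin.ext this

/-- The array of a polynomial. -/
noncomputable def arr (K : ℕ) (P : MvPolynomial (Fin k) ℝ) (a : Fin k → Fin (K + 1)) : ℝ :=
  P.coeff (expo a)

/-- The polynomial of an array. -/
noncomputable def mvp (q : (Fin k → Fin (K + 1)) → ℝ) : MvPolynomial (Fin k) ℝ :=
  ∑ a, MvPolynomial.monomial (expo a) (q a)

/-- **The value.** -/
theorem ev_arr {P : MvPolynomial (Fin k) ℝ} (hP : ∀ i, P.degreeOf i ≤ K) (x : Fin k → ℝ) :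
    ev (arr K P) x = MvPolynomial.eval x P := by
  classical
  rw [MvPolynomial.eval_eq']
  unfold ev arr
  have h1 : ∀ d ∈ P.support, ∃ a : Fin k → Fin (K + 1), expo a = d := by
    intro d hd
    refine ⟨fun i => ⟨d i, ?_⟩, ?_⟩
    · exact Nat.lt_succ_iff.mpr ((MvPolynomial.le_degreeOf_of_mem_support i hd).trans (hP i))
    · ext i
      rfl
  have h2 : P.support ⊆ (Finset.univ : Finset (Fin k → Fin (K + 1))).image expo := by
    intro d hd
    obtain ⟨a, ha⟩ := h1 d hd
    exact Finset.mem_image.2 ⟨a, Finset.mem_univ _, ha⟩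
  rw [Finset.sum_subset h2, Finset.sum_image fun a _ b _ h => expo_inj h]
  · rfl
  · intro d _ hd
    rw [MvPolynomial.notMem_support_iff.1 hd, zero_mul]

theorem eval_mvp (q : (Fin k → Fin (K + 1)) → ℝ) (x : Fin k → ℝ) :
    MvPolynomial.eval x (mvp q) = ev q x := by
  classical
  unfold mvp ev
  rw [map_sum]
  refine Finset.sum_congr rfl fun a _ => ?_
  rw [MvPolynomial.eval_monomial, Finsupp.prod_fintype _ _ fun i => pow_zero _]
  rfl

/-- A polynomial of total degree at most `K`. -/
theorem ev_arr_tot {P : MvPolynomial (Fin k) ℝ} (hP : P.totalDegree ≤ K) (x : Fin k → ℝ) :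
    ev (arr K P) x = MvPolynomial.eval x P :=
  ev_arr (fun i => (MvPolynomial.degreeOf_le_totalDegree P i).trans hP) x

end Pool.JMN
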