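import Pool.Agent.H81.JM.Alg

/-!
# The values of an algebraic series

The sum of the series in the disc of convergence; the values of a root of `S` are roots of `S`;
they do not leave the disc of radius `r` if `S` has no roots on its boundary; Cauchy's bound.
-/

set_option autoImplicit false

namespace Pool.RAY

open Finset PowerSeries

theorem rad_summable {a : ℝ} {f : PowerSeries ℂ} (hf : Rad a f) {t : ℂ} (ht : ‖t‖ < a) :
    Summable fun n => ‖coeff n f * t ^ n‖ := by
  obtain ⟨b, hb, hba⟩ := exists_between ht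
  have hb0 : 0 < b := (norm_nonneg t).trans_lt hb
  obtain ⟨M, hM⟩ := hf b hb0 hba
  have hx1 : ‖t‖ / b < 1 := (div_lt_one hb0).2 hb
  refine Summable.of_nonneg_of_le (fun n => norm_nonneg _) (fun n => ?_)
    ((summable_geometric_of_lt_one (by positivity) hx1).mul_left M)
  have h1 := mul_le_mul_of_nonneg_right (hM n) (pow_nonneg (show 0 ≤ ‖t‖ / b by positivity) n)
  rw [mul_assoc, ← mul_pow, mul_div_cancel₀ _ hb0.ne'] at h1
  rw [norm_mul, norm_pow]
  exact h1

/-- The sum of the series at the point `t`. -/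
noncomputable def evs (t : ℂ) (f : PowerSeries ℂ) : ℂ := ∑' n, coeff n f * t ^ n

theorem evs_hasSum {a : ℝ} {f : PowerSeries ℂ} (hf : Rad a f) {t : ℂ} (ht : ‖t‖ < a) :
    HasSum (fun n => coeff n f * t ^ n) (evs t f) :=
  (rad_summable hf ht).of_norm.hasSum

theorem evs_zero (f : PowerSeries ℂ) : evs 0 f = coeff 0 f := by
  unfold evs
  rw [tsum_eq_single 0]
  · rw [pow_zero, mul_one]
  · intro n hn
    rw [zero_pow hn, mul_zero]

/-- The sum as a homomorphism. -/
noncomputable def evh {a : ℝ} {t : ℂ} (ht : ‖t‖ < a) : rad a →+* ℂ where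
  toFun f := evs t (f : PowerSeries ℂ)
  map_one' := by
    show evs t (1 : PowerSeries ℂ) = 1
    unfold evs
    rw [tsum_eq_single 0]
    · rw [pow_zero, mul_one, coeff_one, if_pos rfl]
    · intro n hn
      rw [coeff_one, if_neg hn, zero_mul]
  map_zero' := by
    show evs t (0 : PowerSeries ℂ) = 0
    unfold evs
    simp
  map_add' f g := by
    show evs t ((f : PowerSeries ℂ) + g) = evs t f + evs t g
    have h1 := (evs_hasSum f.2 ht).add (evs_hasSum g.2 ht)
    refine ((evs_hasSum (f.2.add g.2) ht).unique ?_)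
    refine h1.congr_fun ?_
    intro n
    rw [map_add]
    ring
  map_mul' f g := by
    show evs t ((f : PowerSeries ℂ) * g) = evs t f * evs t g
    unfold evs
    rw [tsum_mul_tsum_eq_tsum_sum_antidiagonal_of_summable_norm (rad_summable f.2 ht)
      (rad_summable g.2 ht)]
    refine tsum_congr fun n => ?_
    rw [coeff_mul, Finset.sum_mul]
    refine Finset.sum_congr rfl fun p hp => ?_
    rw [← HasAntidiagonal.mem_antidiagonal.1 hp, pow_add]
    ring

theorem evh_psi {a : ℝ} {t : ℂ} (ht : ‖t‖ < a) :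
    (evh ht).comp (psi a) = Polynomial.evalRingHom t := by
  refine Polynomial.ringHom_ext (fun c => ?_) ?_
  · show evs t (phi (Polynomial.C c)) = Polynomial.eval t (Polynomial.C c)
    rw [phi_apply, Polynomial.coe_C, Polynomial.eval_C]
    unfold evs
    rw [tsum_eq_single 0]
    · rw [pow_zero, mul_one, coeff_C, if_pos rfl]
    · intro n hn
      rw [coeff_C, if_neg hn, zero_mul]
  · show evs t (phi Polynomial.X) = Polynomial.eval t Polynomial.X
    rw [phi_apply, Polynomial.coe_X, Polynomial.eval_X]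
    unfold evs
    rw [tsum_eq_single 1]
    · rw [pow_one, coeff_X, if_pos rfl, one_mul]
    · intro n hn
      rw [coeff_X, if_neg hn, zero_mul]

/-- **The values of a root are roots.** -/
theorem evs_root {a : ℝ} {S : Polynomial (Polynomial ℂ)} {g : PowerSeries ℂ} (hr : Rad a g)
    (hg : S.eval₂ phi g = 0) {t : ℂ} (ht : ‖t‖ < a) :
    (S.map (Polynomial.evalRingHom t)).eval (evs t g) = 0 := by
  obtain ⟨G, hG⟩ : ∃ G : rad a, (G : PowerSeries ℂ) = g := ⟨⟨g, hr⟩, rfl⟩
  have h1 : S.eval₂ (psi a) G = 0 := by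
    refine Subtype.ext ?_
    have h2 := Polynomial.hom_eval₂ S (psi a) (rad a).subtype G
    rw [subtype_comp_psi] at h2
    have h3 : (rad a).subtype G = g := hG
    rw [h3, hg] at h2
    exact h2
  have h2 := Polynomial.hom_eval₂ S (psi a) (evh ht) G
  rw [h1, map_zero, evh_psi ht] at h2
  rw [Polynomial.eval_map]
  have h3 : evh ht G = evs t g := by
    rw [← hG]
    rfl
  rw [← h3]
  exact h2.symm

/-- **The values do not cross a circle without roots.** -/
theorem evs_circ {a r : ℝ} {S : Polynomial (Polynomial ℂ)} {g : PowerSeries ℂ} (hr : Rad a g)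
    (hg : S.eval₂ phi g = 0)
    (hc : ∀ t : ℂ, ‖t‖ < a → ∀ N : ℂ, ‖N‖ = r →
      (S.map (Polynomial.evalRingHom t)).eval N ≠ 0) {t : ℂ} (ht : ‖t‖ < a) :
    ‖coeff 0 g‖ < r ↔ ‖evs t g‖ < r := by
  obtain ⟨F, hF⟩ : ∃ F : ℝ → ℝ, F = fun u : ℝ => ‖evs ((u : ℂ) * t) g‖ := ⟨_, rfl⟩
  have hut : ∀ u ∈ Set.Icc (0 : ℝ) 1, ‖((u : ℂ) * t)‖ ≤ ‖t‖ := by
    intro u hu
    rw [norm_mul, Complex.norm_real, Real.norm_of_nonneg hu.1]
    exact mul_le_of_le_one_left (norm_nonneg _) hu.2
  have hcont : ContinuousOn F (Set.Icc 0 1) := by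
    rw [hF]
    refine ContinuousOn.norm ?_
    unfold evs
    refine continuousOn_tsum (u := fun n => ‖coeff n g * t ^ n‖) (fun n => ?_)
      (rad_summable hr ht) (fun n u hu => ?_)
    · exact ((continuous_const.mul (((Complex.continuous_ofReal).mul
        continuous_const).pow n))).continuousOn
    · rw [norm_mul, norm_mul, norm_pow, norm_pow]
      exact mul_le_mul_of_nonneg_left (pow_le_pow_left₀ (norm_nonneg _) (hut u hu) n)
        (norm_nonneg _)
  have hne : ∀ u ∈ Set.Icc (0 : ℝ) 1, F u ≠ r := by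
    intro u hu h
    have h1 := (hut u hu).trans_lt ht
    refine hc _ h1 (evs ((u : ℂ) * t) g) ?_ (evs_root hr hg h1)
    rw [hF] at h
    exact h
  have h0 : F 0 = ‖coeff 0 g‖ := by
    rw [hF]
    show ‖evs (((0 : ℝ) : ℂ) * t) g‖ = _
    rw [Complex.ofReal_zero, zero_mul, evs_zero]
  have h1 : F 1 = ‖evs t g‖ := by
    rw [hF]
    show ‖evs (((1 : ℝ) : ℂ) * t) g‖ = _
    rw [Complex.ofReal_one, one_mul]
  rw [← h0, ← h1]
  constructor
  · intro h
    by_contra hcon
    push Not at hcon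
    obtain ⟨u, hu, h2⟩ := intermediate_value_Icc zero_le_one hcont
      (show r ∈ Set.Icc (F 0) (F 1) from ⟨h.le, hcon⟩)
    exact hne u hu h2
  · intro h
    by_contra hcon
    push Not at hcon
    obtain ⟨u, hu, h2⟩ := intermediate_value_Icc' zero_le_one hcont
      (show r ∈ Set.Icc (F 1) (F 0) from ⟨h.le, hcon⟩)
    exact hne u hu h2

/-- **Cauchy's bound.** -/
theorem evs_cauchy {a r : ℝ} (ha : 0 < a) {g : PowerSeries ℂ} (hr : Rad a g)
    (hb : ∀ t : ℂ, ‖t‖ < a → ‖evs t g‖ ≤ r) (n : ℕ) : ‖coeff n g‖ * a ^ n ≤ r := by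
  -- smaller radii
  have key : ∀ b : ℝ, 0 < b → b < a → ‖coeff n g‖ * b ^ n ≤ r := by
    intro b hb0 hba
    obtain ⟨b', hb', hb'a⟩ := exists_between hba
    have hb'0 : 0 < b' := hb0.trans hb'
    obtain ⟨M, hM⟩ := hr b' hb'0 hb'a
    obtain ⟨P, hP⟩ : ∃ P : FormalMultilinearSeries ℂ ℂ ℂ,
      P = FormalMultilinearSeries.ofScalars ℂ (fun n => coeff n g) := ⟨_, rfl⟩
    have hPn : ∀ m, ‖P m‖ = ‖coeff m g‖ := by
      intro m
      rw [hP, FormalMultilinearSeries.ofScalars_norm]
    obtain ⟨R, hR⟩ : ∃ R : NNReal, (R : ℝ) = b' := ⟨⟨b', hb'0.le⟩, rfl⟩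
    obtain ⟨Q, hQ⟩ : ∃ Q : NNReal, (Q : ℝ) = b := ⟨⟨b, hb0.le⟩, rfl⟩
    have hrad : (R : ENNReal) ≤ P.radius := by
      refine P.le_radius_of_bound M fun m => ?_
      rw [hPn, hR]
      exact hM m
    have hR0 : (0 : ENNReal) < R := by
      rw [ENNReal.coe_pos]
      exact_mod_cast hR ▸ hb'0
    have h1 := (P.hasFPowerSeriesOnBall (hR0.trans_le hrad)).mono hR0 hrad
    have hsum : P.sum = fun t => evs t g := by
      funext t
      have h2 := FormalMultilinearSeries.ofScalars_sum_eq (E := ℂ) (fun n => coeff n g) t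
      rw [hP]
      refine h2.trans ?_
      unfold evs
      exact tsum_congr fun m => by rw [smul_eq_mul]
    rw [hsum] at h1
    have hdiff : DifferentiableOn ℂ (fun t => evs t g) (Metric.closedBall 0 (Q : ℝ)) := by
      refine h1.differentiableOn.mono ?_
      intro t ht
      rw [Metric.mem_closedBall, dist_zero_right, hQ] at ht
      rw [Metric.mem_eball, edist_zero_right]
      have h3 : ‖t‖ < R := by
        rw [hR]
        exact ht.trans_lt hb'
      rw [← ofReal_norm, ← ENNReal.ofReal_coe_nnreal]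
      exact (ENNReal.ofReal_lt_ofReal_iff (by rw [hR]; exact hb'0)).2 h3
    have hQ0 : 0 < Q := by
      rw [← NNReal.coe_pos, hQ]
      exact hb0
    have h2 := hdiff.hasFPowerSeriesOnBall hQ0
    have h3 : P = cauchyPowerSeries (fun t => evs t g) 0 Q :=
      h1.hasFPowerSeriesAt.eq_formalMultilinearSeries h2.hasFPowerSeriesAt
    have h4 := norm_cauchyPowerSeries_le (fun t => evs t g) 0 (Q : ℝ) n
    rw [← h3, hPn, hQ, abs_of_pos hb0] at h4
    have h5 : ∫ θ : ℝ in (0 : ℝ)..2 * Real.pi, ‖evs (circleMap 0 b θ) g‖ ≤ 2 * Real.pi * r := by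
      have h6 := intervalIntegral.norm_integral_le_of_norm_le_const (a := (0 : ℝ))
        (b := 2 * Real.pi) (C := r) (f := fun θ => ‖evs (circleMap 0 b θ) g‖) (fun θ _ => by
          rw [norm_norm]
          refine hb _ ?_
          rw [norm_circleMap_zero, abs_of_pos hb0]
          exact hba)
      rw [sub_zero, abs_of_pos Real.two_pi_pos] at h6
      rw [mul_comm r] at h6
      exact (le_abs_self _).trans h6
    have h6 : (2 * Real.pi)⁻¹ * ∫ θ : ℝ in (0 : ℝ)..2 * Real.pi, ‖evs (circleMap 0 b θ) g‖ ≤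
        r := by
      rw [inv_mul_le_iff₀ Real.two_pi_pos]
      exact h5
    have h7 := h4.trans (mul_le_mul_of_nonneg_right h6 (by positivity))
    rw [inv_pow, ← div_eq_mul_inv, le_div_iff₀ (by positivity)] at h7
    exact h7
  -- the limit
  by_contra hcon
  push Not at hcon
  have hc : Continuous fun b : ℝ => ‖coeff n g‖ * b ^ n := by fun_prop
  have h1 := (hc.tendsto a).eventually (lt_mem_nhds hcon)
  obtain ⟨ε, hε, h2⟩ := Metric.eventually_nhds_iff.1 h1
  obtain ⟨δ, hδ⟩ : ∃ δ, δ = min (ε / 2) (a / 2) := ⟨_, rfl⟩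
  have hδ0 : 0 < δ := by rw [hδ]; positivity
  have hδ1 : δ ≤ ε / 2 := by rw [hδ]; exact min_le_left _ _
  have hδ2 : δ ≤ a / 2 := by rw [hδ]; exact min_le_right _ _
  have h3 := h2 (y := a - δ) (by
    rw [Real.dist_eq, abs_lt]
    constructor <;> linarith)
  have h4 := key (a - δ) (by linarith) (by linarith)
  linarith

end Pool.RAY
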