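import Pool.Agent.H81.JM.Evl

/-!
# The branches as power series in several variables

`P` is a polynomial in one variable with coefficients in the polynomials on `ℂ ^ k`, `z` a point,
`ν` a simple root of `P(z, .)`. There is a series `∑ G n`, `G n` homogeneous of degree `n`, which
is a root of `P(z + y, .)` with `G 0 = ν`.
-/

set_option autoImplicit false

namespace Pool.RAY

open Finset

variable {k : ℕ}

/-- The polynomial at the point `z + X y`. -/
noncomputable def thz (z : Fin k → ℂ) :
    MvPolynomial (Fin k) ℂ →+* PowerSeries (MvPolynomial (Fin k) ℂ) :=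
  MvPolynomial.eval₂Hom (PowerSeries.C.comp MvPolynomial.C)
    fun i => PowerSeries.C (MvPolynomial.C (z i)) +
      PowerSeries.X * PowerSeries.C (MvPolynomial.X i)

/-- The polynomial on the line through `z` in the direction `y`. -/
noncomputable def ray (z y : Fin k → ℂ) : MvPolynomial (Fin k) ℂ →+* Polynomial ℂ :=
  MvPolynomial.eval₂Hom Polynomial.C
    fun i => Polynomial.C (z i) + Polynomial.X * Polynomial.C (y i)

/-- The scaling by `2`. -/
noncomputable def scl (k : ℕ) : MvPolynomial (Fin k) ℂ →+* MvPolynomial (Fin k) ℂ :=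
  MvPolynomial.eval₂Hom MvPolynomial.C fun i => MvPolynomial.C 2 * MvPolynomial.X i

theorem thz_C (z : Fin k → ℂ) (c : ℂ) :
    thz z (MvPolynomial.C c) = PowerSeries.C (MvPolynomial.C c) := by
  unfold thz
  rw [MvPolynomial.eval₂Hom_C]
  rfl

theorem thz_X (z : Fin k → ℂ) (i : Fin k) : thz z (MvPolynomial.X i) =
    PowerSeries.C (MvPolynomial.C (z i)) + PowerSeries.X * PowerSeries.C (MvPolynomial.X i) := by
  unfold thz
  rw [MvPolynomial.eval₂Hom_X']

theorem ray_C (z y : Fin k → ℂ) (c : ℂ) : ray z y (MvPolynomial.C c) = Polynomial.C c := by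
  unfold ray
  rw [MvPolynomial.eval₂Hom_C]

theorem ray_X (z y : Fin k → ℂ) (i : Fin k) : ray z y (MvPolynomial.X i) =
    Polynomial.C (z i) + Polynomial.X * Polynomial.C (y i) := by
  unfold ray
  rw [MvPolynomial.eval₂Hom_X']

theorem scl_C (c : ℂ) : scl k (MvPolynomial.C c) = MvPolynomial.C c := by
  unfold scl
  rw [MvPolynomial.eval₂Hom_C]

theorem scl_X (i : Fin k) :
    scl k (MvPolynomial.X i) = MvPolynomial.C 2 * MvPolynomial.X i := by
  unfold scl
  rw [MvPolynomial.eval₂Hom_X']

/-- The constant term. -/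
theorem thz_const (z : Fin k → ℂ) : (PowerSeries.constantCoeff (R := MvPolynomial (Fin k) ℂ)).comp
    (thz z) = MvPolynomial.C.comp (MvPolynomial.eval z) := by
  refine MvPolynomial.ringHom_ext (fun c => ?_) fun i => ?_
  · rw [RingHom.comp_apply, RingHom.comp_apply, thz_C, PowerSeries.constantCoeff_C,
      MvPolynomial.eval_C]
  · rw [RingHom.comp_apply, RingHom.comp_apply, thz_X, map_add, map_mul,
      PowerSeries.constantCoeff_C, PowerSeries.constantCoeff_X, zero_mul, add_zero,
      MvPolynomial.eval_X]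

/-- The line through `z`. -/
theorem thz_ray (z y : Fin k → ℂ) :
    (PowerSeries.map (MvPolynomial.eval y)).comp (thz z) = phi.comp (ray z y) := by
  refine MvPolynomial.ringHom_ext (fun c => ?_) fun i => ?_
  · rw [RingHom.comp_apply, RingHom.comp_apply, thz_C, ray_C, PowerSeries.map_C,
      MvPolynomial.eval_C, phi_apply, Polynomial.coe_C]
  · rw [RingHom.comp_apply, RingHom.comp_apply, thz_X, ray_X, map_add, map_mul,
      PowerSeries.map_C, PowerSeries.map_C, PowerSeries.map_X, MvPolynomial.eval_C,
      MvPolynomial.eval_X, phi_apply, Polynomial.coe_add, Polynomial.coe_mul, Polynomial.coe_C,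
      Polynomial.coe_C, Polynomial.coe_X]

theorem ray_eval (z y : Fin k → ℂ) (t : ℂ) :
    (Polynomial.evalRingHom t).comp (ray z y) = MvPolynomial.eval fun i => z i + t * y i := by
  refine MvPolynomial.ringHom_ext (fun c => ?_) fun i => ?_
  · rw [RingHom.comp_apply, ray_C, Polynomial.coe_evalRingHom, Polynomial.eval_C,
      MvPolynomial.eval_C]
  · rw [RingHom.comp_apply, ray_X, Polynomial.coe_evalRingHom, Polynomial.eval_add,
      Polynomial.eval_mul, Polynomial.eval_C, Polynomial.eval_C, Polynomial.eval_X,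
      MvPolynomial.eval_X]

/-- The scaling in the space and in the variable of the series. -/
theorem thz_scl (z : Fin k → ℂ) : (PowerSeries.map (scl k)).comp (thz z) =
    (PowerSeries.rescale (MvPolynomial.C 2 : MvPolynomial (Fin k) ℂ)).comp (thz z) := by
  have hC : ∀ c : MvPolynomial (Fin k) ℂ, PowerSeries.rescale
      (MvPolynomial.C 2 : MvPolynomial (Fin k) ℂ) (PowerSeries.C c) = PowerSeries.C c := by
    intro c
    ext1 n
    rw [PowerSeries.coeff_rescale, PowerSeries.coeff_C]
    split_ifs with h
    · rw [h, pow_zero, one_mul]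
    · rw [mul_zero]
  have hX : PowerSeries.rescale (MvPolynomial.C 2 : MvPolynomial (Fin k) ℂ) PowerSeries.X =
      PowerSeries.C (MvPolynomial.C 2) * PowerSeries.X := by
    ext1 n
    rw [PowerSeries.coeff_rescale, PowerSeries.coeff_C_mul, PowerSeries.coeff_X]
    split_ifs with h
    · rw [h, pow_one]
    · rw [mul_zero, mul_zero]
  refine MvPolynomial.ringHom_ext (fun c => ?_) fun i => ?_
  · rw [RingHom.comp_apply, RingHom.comp_apply, thz_C, PowerSeries.map_C, scl_C, hC]
  · rw [RingHom.comp_apply, RingHom.comp_apply, thz_X, map_add, map_mul, map_add, map_mul,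
      PowerSeries.map_C, PowerSeries.map_C, PowerSeries.map_X, scl_C, scl_X, hC, hC, hX, map_mul]
    ring

/-- The coefficients of the scaled polynomial. -/
theorem coeff_scl (p : MvPolynomial (Fin k) ℂ) (s : Fin k →₀ ℕ) :
    MvPolynomial.coeff s (scl k p) = 2 ^ s.degree * MvPolynomial.coeff s p := by
  classical
  induction p using MvPolynomial.induction_on' with
  | monomial u c =>
    have h1 : scl k (MvPolynomial.monomial u c) =
        MvPolynomial.C (2 ^ u.degree) * MvPolynomial.monomial u c := by
      rw [MvPolynomial.monomial_eq, map_mul, scl_C, Finsupp.prod_fintype _ _ fun i => pow_zero _,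
        map_prod]
      have h2 : ∀ i, scl k (MvPolynomial.X i ^ u i) =
          MvPolynomial.C 2 ^ u i * MvPolynomial.X i ^ u i := by
        intro i
        rw [map_pow, scl_X, mul_pow]
      rw [Finset.prod_congr rfl fun i _ => h2 i, Finset.prod_mul_distrib,
        Finset.prod_pow_eq_pow_sum, map_pow]
      have h3 : u.degree = ∑ i, u i := by
        rw [Finsupp.degree_eq_sum]
      rw [h3]
      ring
    rw [h1, MvPolynomial.coeff_C_mul, MvPolynomial.coeff_monomial]
    split_ifs with h
    · rw [h]
    · rw [mul_zero, mul_zero]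
  | add p q hp hq =>
    rw [map_add, MvPolynomial.coeff_add, hp, hq, MvPolynomial.coeff_add]
    ring

/-- **Uniqueness of a simple root.** -/
theorem root_unique {A : Type} [CommRing A] {f : Polynomial (PowerSeries A)}
    {x y : PowerSeries A} (hx : f.eval x = 0) (hy : f.eval y = 0)
    (hxy : PowerSeries.constantCoeff x = PowerSeries.constantCoeff y)
    (hu : IsUnit (PowerSeries.constantCoeff (f.derivative.eval y))) : x = y := by
  obtain ⟨c, hc⟩ := Polynomial.binomExpansion f y (x - y)
  have e1 : y + (x - y) = x := by ring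
  rw [e1, hx, hy, zero_add] at hc
  have h1 : IsUnit (f.derivative.eval y + c * (x - y)) := by
    rw [PowerSeries.isUnit_iff_constantCoeff, map_add, map_mul, map_sub, hxy, sub_self, mul_zero,
      add_zero]
    exact hu
  have h2 : (f.derivative.eval y + c * (x - y)) * (x - y) = 0 := by
    linear_combination -hc
  exact sub_eq_zero.1 ((h1.mul_right_eq_zero).1 h2)

/-- **The branch.** -/
theorem hens {P : Polynomial (MvPolynomial (Fin k) ℂ)} {z : Fin k → ℂ} {ν : ℂ}
    (hl : MvPolynomial.eval z P.leadingCoeff ≠ 0)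
    (hr : (P.map (MvPolynomial.eval z)).eval ν = 0)
    (hs : ((Polynomial.derivative P).map (MvPolynomial.eval z)).eval ν ≠ 0) :
    ∃ G : PowerSeries (MvPolynomial (Fin k) ℂ), P.eval₂ (thz z) G = 0 ∧
      PowerSeries.constantCoeff G = MvPolynomial.C ν ∧
      ∀ n, (PowerSeries.coeff n G).IsHomogeneous n := by
  classical
  -- constant terms of values
  have hcst : ∀ (Q : Polynomial (MvPolynomial (Fin k) ℂ))
      (σ : MvPolynomial (Fin k) ℂ →+* PowerSeries (MvPolynomial (Fin k) ℂ)),
      (PowerSeries.constantCoeff (R := MvPolynomial (Fin k) ℂ)).comp σ =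
        MvPolynomial.C.comp (MvPolynomial.eval z) →
      ∀ x : PowerSeries (MvPolynomial (Fin k) ℂ),
      PowerSeries.constantCoeff x = MvPolynomial.C ν →
      PowerSeries.constantCoeff ((Q.map σ).eval x) =
        MvPolynomial.C ((Q.map (MvPolynomial.eval z)).eval ν) := by
    intro Q σ hσ x hx
    rw [Polynomial.eval_map, Polynomial.hom_eval₂, hσ, hx, Polynomial.eval_map,
      Polynomial.hom_eval₂]
  obtain ⟨l, hl'⟩ : ∃ l, l = thz z P.leadingCoeff := ⟨_, rfl⟩
  have hlu : IsUnit l := by
    rw [PowerSeries.isUnit_iff_constantCoeff, hl']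
    have h1 := congrArg (fun f => f P.leadingCoeff) (thz_const z)
    have h2 : PowerSeries.constantCoeff (thz z P.leadingCoeff) =
        MvPolynomial.C (MvPolynomial.eval z P.leadingCoeff) := h1
    rw [h2]
    exact (isUnit_iff_ne_zero.2 hl).map MvPolynomial.C
  obtain ⟨u, hu⟩ := hlu.exists_left_inv
  have huc : IsUnit (PowerSeries.constantCoeff u) := by
    have h1 := congrArg PowerSeries.constantCoeff hu
    rw [map_mul, map_one] at h1
    exact IsUnit.of_mul_eq_one _ h1
  obtain ⟨f, hf⟩ : ∃ f : Polynomial (PowerSeries (MvPolynomial (Fin k) ℂ)),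
    f = Polynomial.C u * P.map (thz z) := ⟨_, rfl⟩
  have hl0 : thz z P.leadingCoeff ≠ 0 := by
    rw [← hl']
    exact hlu.ne_zero
  have hdeg : (P.map (thz z)).natDegree = P.natDegree :=
    Polynomial.natDegree_map_of_leadingCoeff_ne_zero _ hl0
  have hmon : f.Monic := by
    unfold Polynomial.Monic Polynomial.leadingCoeff
    have h5 : f.coeff P.natDegree = 1 := by
      rw [hf, Polynomial.coeff_C_mul, Polynomial.coeff_map]
      show u * thz z P.leadingCoeff = 1
      rw [← hl', hu]
    have h6 : f.natDegree = P.natDegree := by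
      refine le_antisymm ?_ ?_
      · rw [hf]
        exact (Polynomial.natDegree_C_mul_le _ _).trans hdeg.le
      · refine Polynomial.le_natDegree_of_ne_zero ?_
        rw [h5]
        exact one_ne_zero
    rw [h6, h5]
  obtain ⟨a₀, ha₀⟩ : ∃ a₀ : PowerSeries (MvPolynomial (Fin k) ℂ),
    a₀ = PowerSeries.C (MvPolynomial.C ν) := ⟨_, rfl⟩
  have ha₀c : PowerSeries.constantCoeff a₀ = MvPolynomial.C ν := by
    rw [ha₀, PowerSeries.constantCoeff_C]
  obtain ⟨G, hG, hGa⟩ := HenselianRing.is_henselian
    (I := Ideal.span {(PowerSeries.X : PowerSeries (MvPolynomial (Fin k) ℂ))}) f hmon a₀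
    (by
      rw [Ideal.mem_span_singleton, PowerSeries.X_dvd_iff, hf, Polynomial.eval_mul, map_mul,
        hcst P (thz z) (thz_const z) a₀ ha₀c, hr, map_zero, mul_zero])
    (by
      refine IsUnit.map _ ?_
      rw [PowerSeries.isUnit_iff_constantCoeff, hf, Polynomial.derivative_C_mul,
        Polynomial.eval_mul, map_mul, Polynomial.derivative_map,
        hcst _ (thz z) (thz_const z) a₀ ha₀c, Polynomial.eval_C]
      exact huc.mul ((isUnit_iff_ne_zero.2 hs).map MvPolynomial.C))
  have hGc : PowerSeries.constantCoeff G = MvPolynomial.C ν := by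
    rw [Ideal.mem_span_singleton, PowerSeries.X_dvd_iff, map_sub, ha₀c, sub_eq_zero] at hGa
    exact hGa
  have hroot : P.eval₂ (thz z) G = 0 := by
    have h1 : f.eval G = 0 := hG
    rw [hf, Polynomial.eval_mul, Polynomial.eval_C, Polynomial.eval_map] at h1
    have h2 : l * (u * P.eval₂ (thz z) G) = P.eval₂ (thz z) G := by
      rw [← mul_assoc, mul_comm l, hu, one_mul]
    rw [← h2, h1, mul_zero]
  refine ⟨G, hroot, hGc, fun n => ?_⟩
  -- homogeneity
  obtain ⟨σ, hσ⟩ : ∃ σ, σ = (PowerSeries.map (scl k)).comp (thz z) := ⟨_, rfl⟩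
  have hσ2 : σ = (PowerSeries.rescale (MvPolynomial.C 2 : MvPolynomial (Fin k) ℂ)).comp
      (thz z) := by rw [hσ, thz_scl]
  have hσc : (PowerSeries.constantCoeff (R := MvPolynomial (Fin k) ℂ)).comp σ =
      MvPolynomial.C.comp (MvPolynomial.eval z) := by
    rw [← thz_const z, hσ2]
    refine RingHom.ext fun x => ?_
    show PowerSeries.constantCoeff (PowerSeries.rescale _ (thz z x)) =
      PowerSeries.constantCoeff (thz z x)
    rw [← PowerSeries.coeff_zero_eq_constantCoeff_apply,
      ← PowerSeries.coeff_zero_eq_constantCoeff_apply, PowerSeries.coeff_rescale, pow_zero,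
      one_mul]
  have hc1 : PowerSeries.constantCoeff (PowerSeries.map (scl k) G) = MvPolynomial.C ν := by
    rw [← PowerSeries.coeff_zero_eq_constantCoeff_apply, PowerSeries.coeff_map,
      PowerSeries.coeff_zero_eq_constantCoeff_apply, hGc, scl_C]
  have hc2 : PowerSeries.constantCoeff (PowerSeries.rescale
      (MvPolynomial.C 2 : MvPolynomial (Fin k) ℂ) G) = MvPolynomial.C ν := by
    rw [← PowerSeries.coeff_zero_eq_constantCoeff_apply, PowerSeries.coeff_rescale, pow_zero,
      one_mul, PowerSeries.coeff_zero_eq_constantCoeff_apply, hGc]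
  have h1 : (P.map σ).eval (PowerSeries.map (scl k) G) = 0 := by
    rw [Polynomial.eval_map, hσ, ← Polynomial.hom_eval₂, hroot, map_zero]
  have h2 : (P.map σ).eval (PowerSeries.rescale
      (MvPolynomial.C 2 : MvPolynomial (Fin k) ℂ) G) = 0 := by
    rw [Polynomial.eval_map, hσ2, ← Polynomial.hom_eval₂, hroot, map_zero]
  have h3 := root_unique h1 h2 (hc1.trans hc2.symm) (by
    rw [Polynomial.derivative_map, hcst _ σ hσc _ hc2]
    exact (isUnit_iff_ne_zero.2 hs).map MvPolynomial.C)
  have h4 := congrArg (PowerSeries.coeff n) h3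
  rw [PowerSeries.coeff_map, PowerSeries.coeff_rescale] at h4
  intro s hs0
  have h5 := congrArg (MvPolynomial.coeff s) h4
  rw [coeff_scl, ← map_pow, MvPolynomial.coeff_C_mul] at h5
  have h6 : (2 : ℂ) ^ s.degree = 2 ^ n := mul_right_cancel₀ hs0 h5
  have h7 : s.degree = n := by
    have h8 : (2 : ℕ) ^ s.degree = 2 ^ n := by exact_mod_cast h6
    exact Nat.pow_right_injective le_rfl h8
  rw [← h7, Finsupp.degree_eq_weight_one]
  rfl

end Pool.RAY
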