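import Pool.Agent.H81.JM.Arr

/-!
# The profile of a polynomial: from the maxima on boxes to the Taylor coefficients

`g i` is `- log2` of the maximum of `|f|` on the box of radius `2 ^ (- i X)` around `y`, up to `h`.
-/

set_option autoImplicit false

namespace Pool.JMN

open Finset

variable {k K : ℕ}

/-- The intercepts of a profile: `j * (i * X) + abn j ≥ g i` for all `i ≤ S`. -/
noncomputable def abn (X S : ℕ) (g : ℕ → ℝ) (j : ℕ) : ℕ :=
  (Finset.range (S + 1)).sup fun i => ⌈g i - j * (i * X)⌉₊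

theorem abn_ge (X S : ℕ) (g : ℕ → ℝ) (j : ℕ) {i : ℕ} (hi : i ≤ S) :
    g i ≤ j * (i * X) + abn X S g j := by
  have h1 : ⌈g i - j * (i * X)⌉₊ ≤ abn X S g j :=
    Finset.le_sup (f := fun i : ℕ => ⌈g i - j * (i * X)⌉₊) (Finset.mem_range.2 (by omega))
  have h2 := Nat.le_ceil (g i - j * (i * X))
  have h3 : ((⌈g i - j * (i * X)⌉₊ : ℕ) : ℝ) ≤ abn X S g j := by exact_mod_cast h1
  linarith

theorem abn_att (X S : ℕ) {g : ℕ → ℝ} (hg : 0 ≤ g 0) (j : ℕ) :
    ∃ i ≤ S, (abn X S g j : ℝ) ≤ g i - j * (i * X) + 1 := by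
  classical
  obtain ⟨i, hi, h1⟩ := Finset.exists_mem_eq_sup (Finset.range (S + 1))
    ⟨0, Finset.mem_range.2 (by omega)⟩ (fun i : ℕ => ⌈g i - j * (i * X)⌉₊)
  rw [Finset.mem_range] at hi
  have h2 : abn X S g j = ⌈g i - j * (i * X)⌉₊ := h1
  rcases le_or_gt (g i - j * (i * X)) 0 with h3 | h3
  · refine ⟨0, Nat.zero_le _, ?_⟩
    rw [h2, Nat.ceil_eq_zero.2 h3]
    simp only [Nat.cast_zero, zero_mul, mul_zero, sub_zero]
    linarith
  · refine ⟨i, by omega, ?_⟩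
    rw [h2]
    exact (Nat.ceil_lt_add_one h3.le).le

theorem rp_nat (n : ℕ) : (2 : ℝ) ^ (n : ℝ) = 2 ^ n := Real.rpow_natCast 2 n

theorem rp_pos (x : ℝ) : (0 : ℝ) < 2 ^ x := Real.rpow_pos_of_pos (by norm_num) x

theorem rp_mono {x y : ℝ} (h : x ≤ y) : (2 : ℝ) ^ x ≤ 2 ^ y :=
  Real.rpow_le_rpow_of_exponent_le (by norm_num) h

theorem rp_le_iff {x y : ℝ} : (2 : ℝ) ^ x ≤ 2 ^ y ↔ x ≤ y :=
  Real.rpow_le_rpow_left_iff (by norm_num)

theorem rp_box (X i j : ℕ) : (1 / (2 : ℝ) ^ (i * X)) ^ j = 2 ^ (-((j : ℝ) * (i * X))) := by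
  rw [div_pow, one_pow, ← pow_mul, Real.rpow_neg (by norm_num), one_div]
  congr 1
  rw [← rp_nat]
  congr 1
  push_cast
  ring

/-- **The Taylor coefficients from the maxima.** -/
theorem prof_sup (k K : ℕ) : ∃ c : ℕ, ∀ (X S h : ℕ) (g : ℕ → ℝ), 0 ≤ g 0 →
    ∀ (f : (Fin k → Fin (K + 1)) → ℝ) (y : Fin k → ℝ),
    (∀ i ≤ S, ∀ z : Fin k → ℝ, (∀ l, |z l - y l| ≤ 1 / 2 ^ (i * X)) →
      |ev f z| ≤ (2 : ℝ) ^ ((h : ℝ) - g i)) →
    (∀ i ≤ S, ∃ z : Fin k → ℝ, (∀ l, |z l - y l| ≤ 1 / 2 ^ (i * X)) ∧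
      (2 : ℝ) ^ (-(g i) - h) ≤ |ev f z|) →
    (∀ al, |shf y f al| ≤ 2 ^ (h + c) / 2 ^ abn X S g (tdg al)) ∧
    (∀ i ≤ S, ∃ al : Fin k → Fin (K + 1),
      (2 : ℝ) ^ (-(g i) - h - c) ≤ |shf y f al| * (1 / (2 : ℝ) ^ (i * X)) ^ tdg al ∧
      ((tdg al * (i * X) + abn X S g (tdg al) : ℕ) : ℝ) ≤ g i + (2 * h + 2 * c : ℕ)) := by
  classical
  obtain ⟨C, hC1, hC⟩ := coef_le k K
  obtain ⟨c₁, hc₁⟩ : ∃ n : ℕ, C ≤ 2 ^ n := by
    obtain ⟨n, hn⟩ := pow_unbounded_of_one_lt C (by norm_num : (1 : ℝ) < 2)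
    exact ⟨n, hn.le⟩
  obtain ⟨c₂, hc₂⟩ : ∃ n : ℕ, ((K : ℝ) + 1) ^ k ≤ 2 ^ n := by
    obtain ⟨n, hn⟩ := pow_unbounded_of_one_lt (((K : ℝ) + 1) ^ k) (by norm_num : (1 : ℝ) < 2)
    exact ⟨n, hn.le⟩
  refine ⟨c₁ + c₂ + 1, fun X S h g hg f y hup hlo => ?_⟩
  have hu : ∀ al, |shf y f al| ≤ 2 ^ (h + (c₁ + 1)) / 2 ^ abn X S g (tdg al) := by
    intro al
    obtain ⟨i, hi, h1⟩ := abn_att X S hg (tdg al)
    have h2 := hC (shf y f) (1 / 2 ^ (i * X)) ((2 : ℝ) ^ ((h : ℝ) - g i)) (by positivity)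
      (fun x hx => by
        rw [ev_shf]
        refine hup i hi _ fun l => ?_
        have e : y l + x l - y l = x l := by ring
        rw [e, abs_of_nonneg (hx l).1]
        exact (hx l).2) al
    rw [rp_box] at h2
    have h3 : |shf y f al| ≤ (2 : ℝ) ^ ((c₁ : ℝ) + (h - g i) + (tdg al : ℝ) * (i * X)) := by
      have e1 : (2 : ℝ) ^ (-((tdg al : ℝ) * (i * X))) * 2 ^ ((tdg al : ℝ) * (i * X)) = 1 := by
        rw [← Real.rpow_add (by norm_num), neg_add_cancel, Real.rpow_zero]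
      have h4 := mul_le_mul_of_nonneg_right h2 (rp_pos ((tdg al : ℝ) * (i * X))).le
      rw [mul_assoc, e1, mul_one] at h4
      refine h4.trans ?_
      rw [Real.rpow_add (by norm_num), Real.rpow_add (by norm_num), rp_nat]
      exact mul_le_mul_of_nonneg_right (mul_le_mul_of_nonneg_right hc₁ (rp_pos _).le)
        (rp_pos _).le
    refine h3.trans ?_
    rw [le_div_iff₀ (by positivity), ← rp_nat, ← rp_nat, ← Real.rpow_add (by norm_num)]
    refine rp_mono ?_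
    push_cast
    linarith
  refine ⟨fun al => (hu al).trans (div_le_div_of_nonneg_right
    (pow_le_pow_right₀ (by norm_num) (by omega)) (by positivity)), fun i hi => ?_⟩
  obtain ⟨z, hz, h1⟩ := hlo i hi
  -- some coefficient is large
  obtain ⟨al, hal⟩ : ∃ al : Fin k → Fin (K + 1),
      (2 : ℝ) ^ (-(g i) - h - (c₂ + 1 : ℕ)) ≤
        |shf y f al| * (1 / (2 : ℝ) ^ (i * X)) ^ tdg al := by
    by_contra hcon
    push Not at hcon
    have h2 := ev_le (q := shf y f) (ρ := 1 / (2 : ℝ) ^ (i * X))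
      (m := (2 : ℝ) ^ (-(g i) - h - (c₂ + 1 : ℕ))) (fun a => (hcon a).le)
      (x := fun l => z l - y l) hz
    rw [ev_shf] at h2
    have e1 : (fun l => y l + (z l - y l)) = z := funext fun l => by ring
    rw [e1] at h2
    have h3 := h2.trans (mul_le_mul_of_nonneg_right hc₂ (rp_pos _).le)
    rw [← rp_nat, ← Real.rpow_add (by norm_num)] at h3
    have h4 := rp_le_iff.1 (h1.trans h3)
    push_cast at h4
    linarith
  refine ⟨al, (rp_mono ?_).trans hal, ?_⟩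
  · push_cast
    have : (0 : ℝ) ≤ c₁ := Nat.cast_nonneg _
    linarith
  · rw [rp_box] at hal
    have h2 := hal.trans (mul_le_mul_of_nonneg_right (hu al) (rp_pos _).le)
    rw [← rp_nat, ← rp_nat, ← Real.rpow_sub (by norm_num), ← Real.rpow_add (by norm_num)] at h2
    have h3 := rp_le_iff.1 h2
    push_cast at h3 ⊢
    have : (0 : ℝ) ≤ c₁ := Nat.cast_nonneg _
    have : (0 : ℝ) ≤ c₂ := Nat.cast_nonneg _
    linarith

/-- **The dominating order.** -/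
theorem prof_low (k K : ℕ) : ∃ c : ℕ, ∀ (X S h : ℕ) (g : ℕ → ℝ), 0 ≤ g 0 →
    ∀ (f : (Fin k → Fin (K + 1)) → ℝ) (y : Fin k → ℝ),
    (∀ i ≤ S, ∀ z : Fin k → ℝ, (∀ l, |z l - y l| ≤ 1 / 2 ^ (i * X)) →
      |ev f z| ≤ (2 : ℝ) ^ ((h : ℝ) - g i)) →
    (∀ i ≤ S, ∃ z : Fin k → ℝ, (∀ l, |z l - y l| ≤ 1 / 2 ^ (i * X)) ∧
      (2 : ℝ) ^ (-(g i) - h) ≤ |ev f z|) →
    (∀ al, |shf y f al| ≤ 2 ^ (2 * h + c) / 2 ^ abn X S g (tdg al)) ∧
    (∀ i ≤ S, ∃ j ≤ k * K,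
      ((j * (i * X) + abn X S g j : ℕ) : ℝ) ≤ g i + (2 * h + c : ℕ)) ∧
    (2 * h + c < X → ∀ s, 1 ≤ s → s < S → ∀ rho,
      (∀ j ≤ k * K, rho * ((s - 1) * X) + abn X S g rho ≤ j * ((s - 1) * X) + abn X S g j) →
      (∀ j ≤ k * K, rho * ((s + 1) * X) + abn X S g rho ≤ j * ((s + 1) * X) + abn X S g j) →
      ∃ al : Fin k → Fin (K + 1), tdg al = rho ∧
        1 / (2 : ℝ) ^ (abn X S g rho + (2 * h + c)) ≤ |shf y f al|) := by
  obtain ⟨c, hc⟩ := prof_sup k K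
  refine ⟨2 * c, fun X S h g hg f y hup hlo => ?_⟩
  obtain ⟨h1, h2⟩ := hc X S h g hg f y hup hlo
  refine ⟨fun al => (h1 al).trans (div_le_div_of_nonneg_right
    (pow_le_pow_right₀ (by norm_num) (by omega)) (by positivity)), fun i hi => ?_,
    fun hX s hs1 hsS rho hm hp => ?_⟩
  · obtain ⟨al, -, h3⟩ := h2 i hi
    exact ⟨tdg al, tdg_le al, h3⟩
  · obtain ⟨al, h3, h4⟩ := h2 s (by omega)
    have hj := tdg_le al
    have hg1 := abn_ge X S g rho (show s ≤ S by omega)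
    have h5 : tdg al * (s * X) + abn X S g (tdg al) ≤
        rho * (s * X) + abn X S g rho + (2 * h + 2 * c) := by
      have h6 : ((tdg al * (s * X) + abn X S g (tdg al) : ℕ) : ℝ) ≤
          ((rho * (s * X) + abn X S g rho + (2 * h + 2 * c) : ℕ) : ℝ) := by
        push_cast at h4 ⊢
        linarith
      exact_mod_cast h6
    have hal : tdg al = rho := by
      rcases lt_trichotomy (tdg al) rho with h6 | h6 | h6
      · exfalso
        have h7 := hp (tdg al) hj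
        obtain ⟨d, rfl⟩ := Nat.exists_eq_add_of_lt h6
        have e1 : (tdg al + d + 1) * ((s + 1) * X) = (tdg al + d + 1) * (s * X) +
            (tdg al * X + (d * X + X)) := by ring
        have e2 : tdg al * ((s + 1) * X) = tdg al * (s * X) + tdg al * X := by ring
        rw [e1, e2] at h7
        have e3 : 0 ≤ d * X := Nat.zero_le _
        omega
      · exact h6
      · exfalso
        obtain ⟨t, rfl⟩ := Nat.exists_eq_add_of_le hs1
        have h7 := hm (tdg al) hj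
        obtain ⟨d, hd⟩ := Nat.exists_eq_add_of_lt h6
        have e0 : 1 + t - 1 = t := by omega
        rw [e0] at h7
        rw [hd] at h5 h7
        have e1 : (rho + d + 1) * ((1 + t) * X) = (rho + d + 1) * (t * X) +
            (rho * X + (d * X + X)) := by ring
        have e2 : rho * ((1 + t) * X) = rho * (t * X) + rho * X := by ring
        rw [e1, e2] at h5
        have e3 : 0 ≤ d * X := Nat.zero_le _
        omega
    refine ⟨al, hal, ?_⟩
    rw [rp_box, hal] at h3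
    have e1 : (2 : ℝ) ^ (-((rho : ℝ) * (s * X))) * 2 ^ ((rho : ℝ) * (s * X)) = 1 := by
      rw [← Real.rpow_add (by norm_num), neg_add_cancel, Real.rpow_zero]
    have h6 := mul_le_mul_of_nonneg_right h3 (rp_pos ((rho : ℝ) * (s * X))).le
    rw [mul_assoc, e1, mul_one, ← Real.rpow_add (by norm_num)] at h6
    refine le_trans ?_ h6
    rw [one_div, ← rp_nat, ← Real.rpow_neg (by norm_num)]
    refine rp_mono ?_
    push_cast
    have : (0 : ℝ) ≤ c := Nat.cast_nonneg _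
    have : (0 : ℝ) ≤ h := Nat.cast_nonneg _
    linarith

end Pool.JMN
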