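import Mathlib

/-!
# Power series with a given radius of convergence

`Rad a f`: the radius of convergence of `f` is at least `a`. The series with this property are a
ring, polynomials without zeros in the disc of radius `a` are invertible in it, and the solutions
of linear differential equations over this ring are in it.
-/

set_option autoImplicit false

namespace Pool.RAY

open Finset PowerSeries

/-- The radius of convergence is at least `a`. -/
def Rad (a : ℝ) (f : PowerSeries ℂ) : Prop :=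
  ∀ b : ℝ, 0 < b → b < a → ∃ M : ℝ, ∀ n : ℕ, ‖coeff n f‖ * b ^ n ≤ M

theorem geo_le {x : ℝ} (hx0 : 0 ≤ x) (hx1 : x < 1) (n : ℕ) :
    ∑ i ∈ Finset.range n, x ^ i ≤ 1 / (1 - x) := by
  have h1 : 0 < 1 - x := by linarith
  rw [le_div_iff₀ h1]
  have h2 := mul_geom_sum x n
  have h3 : 0 ≤ x ^ n := pow_nonneg hx0 n
  nlinarith

theorem lin_le {x : ℝ} (hx0 : 0 ≤ x) (hx1 : x < 1) (n : ℕ) :
    ((n : ℝ) + 1) * x ^ n ≤ 1 / (1 - x) := by
  refine le_trans ?_ (geo_le hx0 hx1 (n + 1))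
  have h1 : ∑ _i ∈ Finset.range (n + 1), x ^ n ≤ ∑ i ∈ Finset.range (n + 1), x ^ i :=
    Finset.sum_le_sum fun i hi =>
      pow_le_pow_of_le_one hx0 hx1.le (Nat.lt_succ_iff.mp (Finset.mem_range.1 hi))
  rw [Finset.sum_const, Finset.card_range, nsmul_eq_mul] at h1
  push_cast at h1
  exact h1

theorem rad_pos {f : PowerSeries ℂ} {b M : ℝ} (h : ∀ n : ℕ, ‖coeff n f‖ * b ^ n ≤ M) :
    0 ≤ M := by
  have h1 := h 0
  rw [pow_zero, mul_one] at h1
  exact (norm_nonneg _).trans h1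

theorem Rad.mono {a a' : ℝ} {f : PowerSeries ℂ} (h : Rad a f) (haa : a' ≤ a) : Rad a' f :=
  fun b hb hba => h b hb (hba.trans_le haa)

theorem rad_C (a : ℝ) (c : ℂ) : Rad a (C c) := by
  intro b hb _
  refine ⟨‖c‖, fun n => ?_⟩
  rw [coeff_C]
  split_ifs with h
  · rw [h, pow_zero, mul_one]
  · rw [norm_zero, zero_mul]
    exact norm_nonneg _

theorem rad_zero (a : ℝ) : Rad a 0 := by
  have := rad_C a 0
  rwa [map_zero] at this

theorem rad_one (a : ℝ) : Rad a 1 := by
  have := rad_C a 1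
  rwa [map_one] at this

theorem rad_X (a : ℝ) : Rad a (X : PowerSeries ℂ) := by
  intro b hb _
  refine ⟨b, fun n => ?_⟩
  rw [coeff_X]
  split_ifs with h
  · rw [h, pow_one, norm_one, one_mul]
  · rw [norm_zero, zero_mul]
    exact hb.le

theorem Rad.neg {a : ℝ} {f : PowerSeries ℂ} (h : Rad a f) : Rad a (-f) := by
  intro b hb hba
  obtain ⟨M, hM⟩ := h b hb hba
  refine ⟨M, fun n => ?_⟩
  rw [map_neg, norm_neg]
  exact hM n

theorem Rad.add {a : ℝ} {f g : PowerSeries ℂ} (hf : Rad a f) (hg : Rad a g) :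
    Rad a (f + g) := by
  intro b hb hba
  obtain ⟨M, hM⟩ := hf b hb hba
  obtain ⟨M', hM'⟩ := hg b hb hba
  refine ⟨M + M', fun n => ?_⟩
  rw [map_add]
  have h1 := mul_le_mul_of_nonneg_right (norm_add_le (coeff n f) (coeff n g))
    (pow_nonneg hb.le n)
  rw [add_mul] at h1
  linarith [hM n, hM' n]

theorem Rad.mul {a : ℝ} {f g : PowerSeries ℂ} (hf : Rad a f) (hg : Rad a g) :
    Rad a (f * g) := by
  intro b hb hba
  obtain ⟨b', hb', hb'a⟩ := exists_between hba
  have hb'0 : 0 < b' := hb.trans hb'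
  obtain ⟨M, hM⟩ := hf b' hb'0 hb'a
  obtain ⟨M', hM'⟩ := hg b' hb'0 hb'a
  have hM0 := rad_pos hM
  have hM'0 := rad_pos hM'
  have hx0 : 0 ≤ b / b' := by positivity
  have hx1 : b / b' < 1 := (div_lt_one hb'0).2 hb'
  refine ⟨M * M' * (1 / (1 - b / b')), fun n => ?_⟩
  rw [coeff_mul]
  have h1 : ∀ p ∈ HasAntidiagonal.antidiagonal n, ‖coeff p.1 f * coeff p.2 g‖ * b ^ n ≤
      M * M' * (b / b') ^ n := by
    intro p hp
    have hpn := HasAntidiagonal.mem_antidiagonal.1 hp
    have h2 := mul_le_mul (hM p.1) (hM' p.2) (by positivity) hM0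
    have h3 : ‖coeff p.1 f‖ * b' ^ p.1 * (‖coeff p.2 g‖ * b' ^ p.2) =
        ‖coeff p.1 f * coeff p.2 g‖ * b' ^ n := by
      rw [norm_mul, ← hpn, pow_add]
      ring
    rw [h3] at h2
    have h4 := mul_le_mul_of_nonneg_right h2 (pow_nonneg hx0 n)
    have h5 : ‖coeff p.1 f * coeff p.2 g‖ * b' ^ n * (b / b') ^ n =
        ‖coeff p.1 f * coeff p.2 g‖ * b ^ n := by
      rw [mul_assoc, ← mul_pow, mul_div_cancel₀ _ hb'0.ne']
    rwa [h5] at h4
  have h2 := mul_le_mul_of_nonneg_right (norm_sum_le (HasAntidiagonal.antidiagonal n)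
    fun p => coeff p.1 f * coeff p.2 g) (pow_nonneg hb.le n)
  rw [Finset.sum_mul] at h2
  refine h2.trans ((Finset.sum_le_sum h1).trans ?_)
  rw [Finset.sum_const, Finset.Nat.card_antidiagonal, nsmul_eq_mul]
  have h3 := mul_le_mul_of_nonneg_left (lin_le hx0 hx1 n) (mul_nonneg hM0 hM'0)
  push_cast
  linarith

/-- The ring of the series of radius at least `a`. -/
def rad (a : ℝ) : Subring (PowerSeries ℂ) where
  carrier := {f | Rad a f}
  mul_mem' hf hg := Rad.mul hf hg
  one_mem' := rad_one a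
  add_mem' hf hg := Rad.add hf hg
  zero_mem' := rad_zero a
  neg_mem' hf := Rad.neg hf

theorem mem_rad {a : ℝ} {f : PowerSeries ℂ} : f ∈ rad a ↔ Rad a f := Iff.rfl

theorem rad_poly (a : ℝ) (p : Polynomial ℂ) : Rad a (p : PowerSeries ℂ) := by
  induction p using Polynomial.induction_on' with
  | add p q hp hq =>
    rw [Polynomial.coe_add]
    exact hp.add hq
  | monomial n c =>
    rw [Polynomial.coe_monomial, monomial_eq_mk, ]
    intro b hb _
    refine ⟨‖c‖ * b ^ n, fun l => ?_⟩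
    rw [coeff_mk]
    split_ifs with h
    · rw [h]
    · rw [norm_zero, zero_mul]
      positivity

/-- Linear factors. -/
theorem inv_lin {a : ℝ} (ha : 0 < a) {ζ : ℂ} (hζ : a ≤ ‖ζ‖) :
    ∃ q : PowerSeries ℂ, Rad a q ∧ ((X : PowerSeries ℂ) - C ζ) * q = 1 := by
  have hζ0 : ζ ≠ 0 := by
    intro h
    rw [h, norm_zero] at hζ
    linarith
  refine ⟨PowerSeries.mk fun n => -(ζ⁻¹) ^ (n + 1), ?_, ?_⟩
  · intro b hb hba
    refine ⟨‖ζ⁻¹‖, fun n => ?_⟩
    rw [coeff_mk, norm_neg, norm_pow, pow_succ, norm_inv, mul_right_comm, ← mul_pow]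
    have h1 : ‖ζ‖⁻¹ * b ≤ 1 := by
      rw [inv_mul_le_iff₀ (norm_pos_iff.2 hζ0), mul_one]
      exact (hba.le).trans hζ
    have h2 : (‖ζ‖⁻¹ * b) ^ n ≤ 1 := pow_le_one₀ (by positivity) h1
    have h3 : 0 ≤ ‖ζ‖⁻¹ := by positivity
    nlinarith
  · ext n
    rw [sub_mul, map_sub, coeff_C_mul, coeff_mk, coeff_one]
    cases n with
    | zero =>
      rw [coeff_zero_X_mul, if_pos rfl, zero_add, pow_one]
      field_simp
      ring
    | succ n =>
      rw [coeff_succ_X_mul, coeff_mk, if_neg (Nat.succ_ne_zero n), pow_succ _ (n + 1)]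
      field_simp
      ring

/-- **Polynomials without zeros are invertible.** -/
theorem inv_poly {a : ℝ} (ha : 0 < a) {p : Polynomial ℂ} (hp : ∀ t : ℂ, ‖t‖ < a → p.eval t ≠ 0) :
    ∃ q : PowerSeries ℂ, Rad a q ∧ (p : PowerSeries ℂ) * q = 1 := by
  have hp0 : p ≠ 0 := by
    intro h
    refine hp 0 (by rwa [norm_zero]) ?_
    rw [h, Polynomial.eval_zero]
  have key : ∀ s : Multiset ℂ, (∀ ζ ∈ s, a ≤ ‖ζ‖) → ∃ q : PowerSeries ℂ, Rad a q ∧
      (((s.map fun ζ => Polynomial.X - Polynomial.C ζ).prod : Polynomial ℂ) :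
        PowerSeries ℂ) * q = 1 := by
    intro s
    induction s using Multiset.induction_on with
    | empty =>
      intro _
      refine ⟨1, rad_one a, ?_⟩
      rw [Multiset.map_zero, Multiset.prod_zero, Polynomial.coe_one, one_mul]
    | cons ζ s ih =>
      intro h
      obtain ⟨q, hq, h1⟩ := ih fun ξ hξ => h ξ (Multiset.mem_cons_of_mem hξ)
      obtain ⟨q', hq', h2⟩ := inv_lin ha (h ζ (Multiset.mem_cons_self ζ s))
      refine ⟨q' * q, hq'.mul hq, ?_⟩
      rw [Multiset.map_cons, Multiset.prod_cons, Polynomial.coe_mul, Polynomial.coe_sub,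
        Polynomial.coe_X, Polynomial.coe_C, mul_mul_mul_comm, h1, h2, one_mul]
  obtain ⟨q, hq, h1⟩ := key p.roots fun ζ hζ => by
    by_contra hcon
    push Not at hcon
    exact hp ζ hcon (Polynomial.isRoot_of_mem_roots hζ)
  have h2 : p.leadingCoeff ≠ 0 := Polynomial.leadingCoeff_ne_zero.2 hp0
  refine ⟨C (p.leadingCoeff⁻¹) * q, (rad_C a _).mul hq, ?_⟩
  have h3 := (IsAlgClosed.splits p).eq_prod_roots
  have h4 : (p : PowerSeries ℂ) = C p.leadingCoeff *
      (((p.roots.map fun ζ => Polynomial.X - Polynomial.C ζ).prod : Polynomial ℂ) :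
        PowerSeries ℂ) := by
    rw [← Polynomial.coe_C, ← Polynomial.coe_mul, ← h3]
  rw [h4, mul_mul_mul_comm, ← map_mul, mul_inv_cancel₀ h2, map_one, h1, one_mul]

/-- **Linear differential equations.** -/
theorem rad_ode {ι : Type} [Fintype ι] {a : ℝ} {y : ι → PowerSeries ℂ}
    {N : ι → ι → PowerSeries ℂ} (hN : ∀ i j, Rad a (N i j))
    (hy : ∀ i, derivative ℂ (y i) = ∑ j, N i j * y j) (i : ι) : Rad a (y i) := by
  classical
  intro b hb hba
  obtain ⟨b', hb', hb'a⟩ := exists_between hba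
  have hb'0 : 0 < b' := hb.trans hb'
  choose M hM using fun i j => hN i j b' hb'0 hb'a
  have hM0 : ∀ i j, 0 ≤ M i j := fun i j => rad_pos (hM i j)
  obtain ⟨T, hT⟩ : ∃ T, T = ∑ i, ∑ j, M i j := ⟨_, rfl⟩
  have hMT : ∀ i j, M i j ≤ T := by
    intro i j
    rw [hT]
    refine (Finset.single_le_sum (f := fun j => M i j) (fun j _ => hM0 i j)
      (Finset.mem_univ j)).trans ?_
    exact Finset.single_le_sum (f := fun i => ∑ j, M i j)
      (fun i _ => Finset.sum_nonneg fun j _ => hM0 i j) (Finset.mem_univ i)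
  have hT0 : 0 ≤ T := (hM0 i i).trans (hMT i i)
  obtain ⟨x, hx⟩ : ∃ x, x = b / b' := ⟨_, rfl⟩
  have hx0 : 0 ≤ x := by rw [hx]; positivity
  have hx1 : x < 1 := by rw [hx]; exact (div_lt_one hb'0).2 hb'
  -- the size of the coefficients
  obtain ⟨Z, hZ⟩ : ∃ Z : ℕ → ℝ, Z = fun n => ∑ i, ‖coeff n (y i)‖ * b ^ n := ⟨_, rfl⟩
  have hZ0 : ∀ n, 0 ≤ Z n := fun n => by
    rw [hZ]
    exact Finset.sum_nonneg fun i _ => by positivity
  obtain ⟨c, hc⟩ : ∃ c : ℝ, c = Fintype.card ι * T * b := ⟨_, rfl⟩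
  have hc0 : 0 ≤ c := by rw [hc]; positivity
  have hrec : ∀ n : ℕ, ((n : ℝ) + 1) * Z (n + 1) ≤ c * ∑ p ∈ HasAntidiagonal.antidiagonal n,
      x ^ p.1 * Z p.2 := by
    intro n
    have h1 : ∀ i, ((n : ℝ) + 1) * (‖coeff (n + 1) (y i)‖ * b ^ (n + 1)) ≤
        T * b * ∑ p ∈ HasAntidiagonal.antidiagonal n, x ^ p.1 * Z p.2 := by
      intro i
      have h2 := congrArg (coeff n) (hy i)
      rw [coeff_derivative, map_sum] at h2
      have h3 : ((n : ℝ) + 1) * ‖coeff (n + 1) (y i)‖ = ‖coeff (n + 1) (y i) * ((n : ℂ) + 1)‖ := by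
        rw [norm_mul]
        have : ‖((n : ℂ) + 1)‖ = (n : ℝ) + 1 := by
          have e1 : ((n : ℂ) + 1) = ((n + 1 : ℕ) : ℂ) := by push_cast; ring
          rw [e1, Complex.norm_natCast]
          push_cast
          ring
        rw [this]
        ring
      have h4 : ‖∑ j, coeff n (N i j * y j)‖ * b ^ (n + 1) ≤
          T * b * ∑ p ∈ HasAntidiagonal.antidiagonal n, x ^ p.1 * Z p.2 := by
        have h5 : ∀ j, ‖coeff n (N i j * y j)‖ * b ^ n ≤
            T * ∑ p ∈ HasAntidiagonal.antidiagonal n, x ^ p.1 * (‖coeff p.2 (y j)‖ * b ^ p.2) := by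
          intro j
          rw [coeff_mul]
          have h6 := mul_le_mul_of_nonneg_right (norm_sum_le (HasAntidiagonal.antidiagonal n)
            fun p => coeff p.1 (N i j) * coeff p.2 (y j)) (pow_nonneg hb.le n)
          rw [Finset.sum_mul] at h6
          refine h6.trans ?_
          rw [Finset.mul_sum]
          refine Finset.sum_le_sum fun p hp => ?_
          have hpn := HasAntidiagonal.mem_antidiagonal.1 hp
          have h7 : ‖coeff p.1 (N i j)‖ * b ^ p.1 ≤ T * x ^ p.1 := by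
            have h8 := mul_le_mul_of_nonneg_right ((hM i j p.1).trans (hMT i j))
              (pow_nonneg hx0 p.1)
            have h9 : ‖coeff p.1 (N i j)‖ * b' ^ p.1 * x ^ p.1 =
                ‖coeff p.1 (N i j)‖ * b ^ p.1 := by
              rw [hx, mul_assoc, ← mul_pow, mul_div_cancel₀ _ hb'0.ne']
            rwa [h9] at h8
          rw [norm_mul, ← hpn, pow_add]
          calc ‖coeff p.1 (N i j)‖ * ‖coeff p.2 (y j)‖ * (b ^ p.1 * b ^ p.2)
              = (‖coeff p.1 (N i j)‖ * b ^ p.1) * (‖coeff p.2 (y j)‖ * b ^ p.2) := by ring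
            _ ≤ (T * x ^ p.1) * (‖coeff p.2 (y j)‖ * b ^ p.2) :=
                mul_le_mul_of_nonneg_right h7 (by positivity)
            _ = _ := by ring
        have h6 : ‖∑ j, coeff n (N i j * y j)‖ * b ^ n ≤
            T * ∑ p ∈ HasAntidiagonal.antidiagonal n, x ^ p.1 * Z p.2 := by
          have h7 := mul_le_mul_of_nonneg_right (norm_sum_le Finset.univ
            fun j => coeff n (N i j * y j)) (pow_nonneg hb.le n)
          rw [Finset.sum_mul] at h7
          refine h7.trans ((Finset.sum_le_sum fun j _ => h5 j).trans (le_of_eq ?_))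
          rw [← Finset.mul_sum, Finset.sum_comm]
          refine congrArg _ (Finset.sum_congr rfl fun p _ => ?_)
          rw [hZ, Finset.mul_sum]
        rw [pow_succ]
        have h7 := mul_le_mul_of_nonneg_right h6 hb.le
        linarith
      calc ((n : ℝ) + 1) * (‖coeff (n + 1) (y i)‖ * b ^ (n + 1))
          = ‖∑ j, coeff n (N i j * y j)‖ * b ^ (n + 1) := by
            rw [← mul_assoc, h3, h2]
        _ ≤ _ := h4
    have h2 : ((n : ℝ) + 1) * Z (n + 1) = ∑ i, ((n : ℝ) + 1) *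
        (‖coeff (n + 1) (y i)‖ * b ^ (n + 1)) := by
      rw [hZ, Finset.mul_sum]
    rw [h2]
    refine (Finset.sum_le_sum fun i _ => h1 i).trans (le_of_eq ?_)
    rw [Finset.sum_const, Finset.card_univ, nsmul_eq_mul, hc]
    ring
  -- the bound
  obtain ⟨n₀, hn₀⟩ := exists_nat_gt (c * (1 / (1 - x)))
  obtain ⟨Q, hQ⟩ : ∃ Q, Q = ∑ n ∈ Finset.range (n₀ + 1), Z n := ⟨_, rfl⟩
  have hQ0 : 0 ≤ Q := by
    rw [hQ]
    exact Finset.sum_nonneg fun n _ => hZ0 n
  have hbd : ∀ n, Z n ≤ Q := by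
    intro n
    induction n using Nat.strong_induction_on with
    | _ n ih =>
      rcases le_or_gt n n₀ with h | h
      · rw [hQ]
        exact Finset.single_le_sum (f := Z) (fun n _ => hZ0 n)
          (Finset.mem_range.2 (by omega))
      · obtain ⟨l, rfl⟩ : ∃ l, n = l + 1 := ⟨n - 1, by omega⟩
        have h1 := hrec l
        have h2 : ∑ p ∈ HasAntidiagonal.antidiagonal l, x ^ p.1 * Z p.2 ≤ 1 / (1 - x) * Q := by
          refine le_trans ?_ (mul_le_mul_of_nonneg_right (geo_le hx0 hx1 (l + 1)) hQ0)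
          rw [Finset.sum_mul, Finset.Nat.sum_antidiagonal_eq_sum_range_succ
            (f := fun u v => x ^ u * Z v)]
          refine Finset.sum_le_sum fun u hu => ?_
          refine mul_le_mul_of_nonneg_left (ih _ ?_) (pow_nonneg hx0 u)
          omega
        have h3 := mul_le_mul_of_nonneg_left h2 hc0
        have h4 : c * (1 / (1 - x)) * Q ≤ ((l : ℝ) + 1) * Q := by
          refine mul_le_mul_of_nonneg_right (hn₀.le.trans ?_) hQ0
          have : n₀ ≤ l + 1 := by omega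
          exact_mod_cast this
        have h5 : ((l : ℝ) + 1) * Z (l + 1) ≤ ((l : ℝ) + 1) * Q := by linarith
        exact le_of_mul_le_mul_left h5 (by positivity)
  refine ⟨Q, fun n => ?_⟩
  refine le_trans ?_ (hbd n)
  rw [hZ]
  exact Finset.single_le_sum (f := fun i => ‖coeff n (y i)‖ * b ^ n)
    (fun i _ => by positivity) (Finset.mem_univ i)

end Pool.RAY
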