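import Pool.Agent.H81.JM.Hen

/-!
# The roots of a polynomial on a polydisc without branch points

`P` is a polynomial in one variable with coefficients in the polynomials on `ℂ ^ k`. If on a
polydisc of radius `a` around `z` the leading coefficient of `P` and a combination `d` of `P` and
its derivative have no zeros, and `P` has no roots of modulus `r`, then all roots of modulus less
than `r` are the sums of series of homogeneous polynomials with Cauchy's bounds.
-/

set_option autoImplicit false

namespace Pool.RAY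

open Finset

variable {k : ℕ}

/-- The factorization over the ring of the series. -/
theorem fac_rad {a : ℝ} {S : Polynomial (Polynomial ℂ)} {m : ℕ} (hm : S.natDegree = m)
    (hl0 : S.leadingCoeff ≠ 0) {g : Fin m → PowerSeries ℂ}
    (hg : ∀ i, S.eval₂ phi (g i) = 0) (hr : ∀ i, Rad a (g i)) (hinj : Function.Injective g)
    {t : ℂ} (ht : ‖t‖ < a) (ν : ℂ) : (S.map (Polynomial.evalRingHom t)).eval ν =
      S.leadingCoeff.eval t * ∏ i, (ν - evs t (g i)) := by
  classical
  have hphi : Function.Injective phi := fun p q h => by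
    rw [phi_apply, phi_apply] at h
    exact Polynomial.coe_injective ℂ h
  obtain ⟨f, hf⟩ : ∃ f, f = S.map phi := ⟨_, rfl⟩
  have hfl : f.leadingCoeff = phi S.leadingCoeff := by
    rw [hf, Polynomial.leadingCoeff_map_of_injective hphi]
  have hfd : f.natDegree = m := by
    rw [hf, Polynomial.natDegree_map_eq_of_injective hphi, hm]
  have hf0 : f ≠ 0 := by
    intro h
    rw [h, Polynomial.leadingCoeff_zero] at hfl
    exact hl0 (hphi (by rw [← hfl, map_zero]))
  have hsub : (Finset.univ.image g).val ≤ f.roots := by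
    rw [Multiset.le_iff_subset (Finset.nodup _)]
    intro x hx
    obtain ⟨i, -, rfl⟩ := Finset.mem_image.1 (Finset.mem_def.2 hx)
    rw [Polynomial.mem_roots hf0, Polynomial.IsRoot.def, hf, Polynomial.eval_map]
    exact hg i
  have hcard : (Finset.univ.image g).val.card = m := by
    rw [Finset.card_val, Finset.card_image_of_injective _ hinj, Finset.card_univ,
      Fintype.card_fin]
  have hroots : (Finset.univ.image g).val = f.roots := by
    refine Multiset.eq_of_le_of_card_le hsub ?_
    rw [hcard, ← hfd]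
    exact Polynomial.card_roots' f
  have hprod : f = Polynomial.C (phi S.leadingCoeff) *
      ∏ i, (Polynomial.X - Polynomial.C (g i)) := by
    have h1 := Polynomial.C_leadingCoeff_mul_prod_multiset_X_sub_C (p := f) (by
      rw [← hroots, hcard, hfd])
    rw [← h1, hfl, ← hroots]
    have h2 : (((Finset.univ.image g).val.map fun a =>
        Polynomial.X - Polynomial.C a).prod : Polynomial (PowerSeries ℂ)) =
        ∏ x ∈ Finset.univ.image g, (Polynomial.X - Polynomial.C x) := rfl
    rw [h2, Finset.prod_image fun i _ j _ h => hinj h]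
  -- the same over the ring of the series of radius `a`
  obtain ⟨G, hG⟩ : ∃ G : Fin m → rad a, ∀ i, (G i : PowerSeries ℂ) = g i :=
    ⟨fun i => ⟨g i, hr i⟩, fun i => rfl⟩
  have h1 : S.map (psi a) = Polynomial.C (psi a S.leadingCoeff) *
      ∏ i, (Polynomial.X - Polynomial.C (G i)) := by
    refine Polynomial.map_injective (rad a).subtype Subtype.val_injective ?_
    rw [Polynomial.map_map, subtype_comp_psi, ← hf, hprod, Polynomial.map_mul, Polynomial.map_C,
      Polynomial.map_prod]
    congr 1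
    refine Finset.prod_congr rfl fun i _ => ?_
    rw [Polynomial.map_sub, Polynomial.map_X, Polynomial.map_C]
    have : (rad a).subtype (G i) = g i := hG i
    rw [this]
  have h2 := congrArg (Polynomial.eval₂ (evh ht) ν) h1
  rw [Polynomial.eval₂_map, evh_psi ht, Polynomial.eval₂_mul, Polynomial.eval₂_C,
    Polynomial.eval₂_finsetProd] at h2
  rw [Polynomial.eval_map, h2]
  congr 1
  · have h3 := congrArg (fun F => F S.leadingCoeff) (evh_psi ht)
    exact h3
  · refine Finset.prod_congr rfl fun i _ => ?_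
    rw [Polynomial.eval₂_sub, Polynomial.eval₂_X, Polynomial.eval₂_C]
    have : evh ht (G i) = evs t (g i) := by
      rw [← hG i]
      rfl
    rw [this]

/-- **ROOT-RAY.** -/
theorem root_ray {P U V : Polynomial (MvPolynomial (Fin k) ℂ)} {d : MvPolynomial (Fin k) ℂ}
    (hS : U * P + V * Polynomial.derivative P = Polynomial.C d) (z : Fin k → ℂ) {a r : ℝ}
    (ha : 0 < a)
    (H : ∀ w : Fin k → ℂ, (∀ l, ‖w l - z l‖ < a) → MvPolynomial.eval w d ≠ 0 ∧
      MvPolynomial.eval w P.leadingCoeff ≠ 0 ∧
      ∀ N : ℂ, ‖N‖ = r → (P.map (MvPolynomial.eval w)).eval N ≠ 0) :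
    ∃ G : Fin P.natDegree → ℕ → MvPolynomial (Fin k) ℂ, (∀ i n, (G i n).IsHomogeneous n) ∧
      ∀ s : ℝ, 0 < s → s < a → ∀ w : Fin k → ℂ, (∀ l, ‖w l - z l‖ ≤ s) →
      ∀ ν : ℂ, (P.map (MvPolynomial.eval w)).eval ν = 0 → ‖ν‖ < r →
      ∃ i, (∀ n, ‖MvPolynomial.eval (fun l => w l - z l) (G i n)‖ * (a / s) ^ n ≤ r) ∧
        HasSum (fun n => MvPolynomial.eval (fun l => w l - z l) (G i n)) ν := by
  classical
  obtain ⟨hdz, hlz, -⟩ := H z fun l => by rwa [sub_self, norm_zero]
  obtain ⟨m, hm⟩ : ∃ m, m = P.natDegree := ⟨_, rfl⟩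
  rw [← hm]
  -- the roots at `z`
  obtain ⟨Q, hQ⟩ : ∃ Q, Q = P.map (MvPolynomial.eval z) := ⟨_, rfl⟩
  have hQl : Q.leadingCoeff = MvPolynomial.eval z P.leadingCoeff := by
    rw [hQ, Polynomial.leadingCoeff_map_of_leadingCoeff_ne_zero _ hlz]
  have hQd : Q.natDegree = m := by
    rw [hQ, Polynomial.natDegree_map_of_leadingCoeff_ne_zero _ hlz, hm]
  have hQ0 : Q ≠ 0 := by
    intro h
    rw [h, Polynomial.leadingCoeff_zero] at hQl
    exact hlz hQl.symm
  have hsimple : ∀ ν, Q.eval ν = 0 →
      ((Polynomial.derivative P).map (MvPolynomial.eval z)).eval ν ≠ 0 := by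
    intro ν hν h
    have h1 := congrArg (fun p => (p.map (MvPolynomial.eval z)).eval ν) hS
    rw [Polynomial.map_add, Polynomial.map_mul, Polynomial.map_mul, Polynomial.eval_add,
      Polynomial.eval_mul, Polynomial.eval_mul, ← hQ, hν, h, mul_zero, mul_zero, add_zero,
      Polynomial.map_C, Polynomial.eval_C] at h1
    exact hdz h1.symm
  have hnd : Q.roots.Nodup := by
    rw [Multiset.nodup_iff_count_le_one]
    intro ν
    rw [Polynomial.count_roots]
    by_contra hcon
    push Not at hcon
    have h1 : 2 ≤ Q.rootMultiplicity ν := hcon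
    have h2 : (Polynomial.X - Polynomial.C ν) ^ 2 ∣ Q :=
      (Polynomial.le_rootMultiplicity_iff hQ0).1 h1
    obtain ⟨R, hR⟩ := h2
    have h3 : Q.eval ν = 0 := by
      rw [hR, Polynomial.eval_mul, Polynomial.eval_pow, Polynomial.eval_sub, Polynomial.eval_X,
        Polynomial.eval_C, sub_self, zero_pow two_ne_zero, zero_mul]
    refine hsimple ν h3 ?_
    rw [← Polynomial.derivative_map, ← hQ, hR, Polynomial.derivative_mul,
      Polynomial.derivative_pow, Polynomial.eval_add, Polynomial.eval_mul, Polynomial.eval_mul,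
      Polynomial.eval_mul, Polynomial.eval_mul, Polynomial.eval_pow, Polynomial.eval_pow,
      Polynomial.eval_sub, Polynomial.eval_X]
    simp
  have hcardQ : Q.roots.toFinset.card = m := by
    rw [Multiset.toFinset_card_of_nodup hnd, ← hQd]
    exact (IsAlgClosed.splits Q).natDegree_eq_card_roots.symm
  obtain ⟨e, -⟩ : ∃ e : Fin m ≃ Q.roots.toFinset, True :=
    ⟨(Finset.equivFinOfCardEq hcardQ).symm, trivial⟩
  have hev : ∀ i, Q.eval (e i : ℂ) = 0 := by
    intro i
    have h1 := (e i).2
    rw [Multiset.mem_toFinset, Polynomial.mem_roots hQ0] at h1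
    exact h1
  -- the branches
  choose G hG1 hG2 hG3 using fun i => hens (P := P) (z := z) (ν := (e i : ℂ)) hlz
    (by rw [← hQ]; exact hev i) (hsimple _ (hev i))
  refine ⟨fun i n => PowerSeries.coeff n (G i), fun i n => hG3 i n,
    fun s hs0 hsa w hw ν hν hνr => ?_⟩
  obtain ⟨y, hy⟩ : ∃ y : Fin k → ℂ, y = fun l => w l - z l := ⟨_, rfl⟩
  have hy' : ∀ l, ‖y l‖ ≤ s := fun l => by rw [hy]; exact hw l
  rw [← hy]
  have hb0 : 0 < a / s := by positivity
  have hb1 : ‖(1 : ℂ)‖ < a / s := by
    rw [norm_one, lt_div_iff₀ hs0, one_mul]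
    exact hsa
  -- the polynomial on the ray
  obtain ⟨S, hSS⟩ : ∃ S, S = P.map (ray z y) := ⟨_, rfl⟩
  have hpt : ∀ t : ℂ, ‖t‖ < a / s → ∀ l, ‖(z l + t * y l) - z l‖ < a := by
    intro t ht l
    rw [add_sub_cancel_left, norm_mul]
    have h1 := mul_le_mul_of_nonneg_left (hy' l) (norm_nonneg t)
    rw [lt_div_iff₀ hs0] at ht
    linarith
  have hevr : ∀ (t : ℂ) (p : MvPolynomial (Fin k) ℂ), (ray z y p).eval t =
      MvPolynomial.eval (fun i => z i + t * y i) p := by
    intro t p
    have h1 := congrArg (fun F => F p) (ray_eval z y t)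
    exact h1
  have hl0 : ray z y P.leadingCoeff ≠ 0 := by
    intro h
    have h1 := hevr 0 P.leadingCoeff
    rw [h, Polynomial.eval_zero] at h1
    refine hlz ?_
    rw [h1]
    congr 1
    exact congrArg _ (funext fun i => by ring)
  have hSl : S.leadingCoeff = ray z y P.leadingCoeff := by
    rw [hSS, Polynomial.leadingCoeff_map_of_leadingCoeff_ne_zero _ hl0]
  have hSd : S.natDegree = m := by
    rw [hSS, Polynomial.natDegree_map_of_leadingCoeff_ne_zero _ hl0, hm]
  have hSm : ∀ t : ℂ, S.map (Polynomial.evalRingHom t) =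
      P.map (MvPolynomial.eval fun i => z i + t * y i) := by
    intro t
    rw [hSS, Polynomial.map_map, ray_eval]
  have hSb : U.map (ray z y) * S + V.map (ray z y) * Polynomial.derivative S =
      Polynomial.C (ray z y d) := by
    rw [hSS, Polynomial.derivative_map, ← Polynomial.map_mul, ← Polynomial.map_mul,
      ← Polynomial.map_add, hS, Polynomial.map_C]
  obtain ⟨g, hg⟩ : ∃ g : Fin m → PowerSeries ℂ,
    g = fun i => PowerSeries.map (MvPolynomial.eval y) (G i) := ⟨_, rfl⟩
  have hgc : ∀ i n, PowerSeries.coeff n (g i) =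
      MvPolynomial.eval y (PowerSeries.coeff n (G i)) := by
    intro i n
    rw [hg]
    exact PowerSeries.coeff_map _ _ _
  have hg0 : ∀ i, PowerSeries.coeff 0 (g i) = (e i : ℂ) := by
    intro i
    rw [hgc, PowerSeries.coeff_zero_eq_constantCoeff_apply, hG2 i, MvPolynomial.eval_C]
  have hgr : ∀ i, S.eval₂ phi (g i) = 0 := by
    intro i
    rw [hSS, Polynomial.eval₂_map, ← thz_ray, hg, ← Polynomial.hom_eval₂, hG1 i, map_zero]
  have hrad : ∀ i, Rad (a / s) (g i) := by
    intro i
    refine rad_root hb0 hSb (fun t ht => ?_) (fun t ht => ?_) (hgr i)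
    · rw [hevr]
      exact (H _ (hpt t ht)).1
    · rw [hSl, hevr]
      exact (H _ (hpt t ht)).2.1
  have hinj : Function.Injective g := by
    intro i j h
    have h1 := congrArg (PowerSeries.coeff 0) h
    rw [hg0, hg0] at h1
    exact e.injective (Subtype.ext h1)
  -- the root is one of the values
  have hw1 : (fun i => z i + 1 * y i) = w := by
    funext i
    rw [hy]
    ring
  have h1 := fac_rad hSd (by rw [hSl]; exact hl0) hgr hrad hinj hb1 ν
  rw [hSm, hw1, hν, hSl, hevr, hw1] at h1
  have h2 : ∏ i, (ν - evs 1 (g i)) = 0 := by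
    rcases mul_eq_zero.1 h1.symm with h3 | h3
    · exact absurd h3 (by
        have h4 := (H _ (hpt 1 hb1)).2.1
        rwa [hw1] at h4)
    · exact h3
  obtain ⟨i, -, hi⟩ := Finset.prod_eq_zero_iff.1 h2
  have hνi : evs 1 (g i) = ν := (sub_eq_zero.1 hi).symm
  have hcirc : ∀ t : ℂ, ‖t‖ < a / s → ∀ N : ℂ, ‖N‖ = r →
      (S.map (Polynomial.evalRingHom t)).eval N ≠ 0 := by
    intro t ht N hN
    rw [hSm]
    exact (H _ (hpt t ht)).2.2 N hN
  have hzero : ‖PowerSeries.coeff 0 (g i)‖ < r := by
    rw [evs_circ (hrad i) (hgr i) hcirc hb1, hνi]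
    exact hνr
  refine ⟨i, fun n => ?_, ?_⟩
  · have h3 := evs_cauchy hb0 (hrad i) (r := r)
      (fun t ht => ((evs_circ (hrad i) (hgr i) hcirc ht).1 hzero).le) n
    rw [hgc] at h3
    exact h3
  · have h3 := evs_hasSum (hrad i) hb1
    rw [hνi] at h3
    refine h3.congr_fun ?_
    intro n
    rw [one_pow, mul_one, hgc]

end Pool.RAY
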