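import Pool.Agent.H81.JM.Ray
import Pool.Agent.H81.JM.Brg

/-!
# The roots of a polynomial near a real point: approximation by real polynomials
-/

set_option autoImplicit false

namespace Pool.RAY

open Finset

variable {k : ℕ}

/-- The real parts of the coefficients. -/
noncomputable def reP (p : MvPolynomial (Fin k) ℂ) : MvPolynomial (Fin k) ℝ :=
  ∑ s ∈ p.support, MvPolynomial.monomial s (MvPolynomial.coeff s p).re

theorem eval_reP (p : MvPolynomial (Fin k) ℂ) (w : Fin k → ℝ) :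
    MvPolynomial.eval w (reP p) = (MvPolynomial.eval (fun l => (w l : ℂ)) p).re := by
  classical
  unfold reP
  rw [map_sum, MvPolynomial.eval_eq', Complex.re_sum]
  refine Finset.sum_congr rfl fun s _ => ?_
  rw [MvPolynomial.eval_monomial, Finsupp.prod_fintype _ _ fun i => pow_zero _]
  have h1 : (∏ i, (w i : ℂ) ^ s i) = ((∏ i, w i ^ s i : ℝ) : ℂ) := by
    push_cast
    rfl
  rw [h1, Complex.re_mul_ofReal]

theorem reP_deg (p : MvPolynomial (Fin k) ℂ) : (reP p).totalDegree ≤ p.totalDegree := by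
  classical
  unfold reP
  refine (MvPolynomial.totalDegree_finsetSum _ _).trans (Finset.sup_le fun s hs => ?_)
  refine (MvPolynomial.totalDegree_monomial_le _ _).trans ?_
  exact MvPolynomial.le_totalDegree hs

/-- The translated partial sum. -/
noncomputable def psm (z : Fin k → ℂ) (G : ℕ → MvPolynomial (Fin k) ℂ) (K : ℕ) :
    MvPolynomial (Fin k) ℂ :=
  ∑ n ∈ Finset.range (K + 1), MvPolynomial.aeval
    (fun l => (MvPolynomial.X l - MvPolynomial.C (z l) : MvPolynomial (Fin k) ℂ)) (G n)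

theorem eval_psm (z w : Fin k → ℂ) (G : ℕ → MvPolynomial (Fin k) ℂ) (K : ℕ) :
    MvPolynomial.eval w (psm z G K) =
      ∑ n ∈ Finset.range (K + 1), MvPolynomial.eval (fun l => w l - z l) (G n) := by
  unfold psm
  rw [map_sum]
  refine Finset.sum_congr rfl fun n _ => ?_
  have h1 : (MvPolynomial.eval w).comp (MvPolynomial.aeval
      (fun l => (MvPolynomial.X l - MvPolynomial.C (z l) :
        MvPolynomial (Fin k) ℂ))).toRingHom = MvPolynomial.eval fun l => w l - z l := by
    refine MvPolynomial.ringHom_ext (fun c => ?_) fun i => ?_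
    · simp
    · simp
  exact congrArg (fun F => F (G n)) h1

theorem psm_deg (z : Fin k → ℂ) {G : ℕ → MvPolynomial (Fin k) ℂ}
    (hG : ∀ n, (G n).IsHomogeneous n) (K : ℕ) : (psm z G K).totalDegree ≤ K := by
  classical
  unfold psm
  refine (MvPolynomial.totalDegree_finsetSum _ _).trans (Finset.sup_le fun n hn => ?_)
  have hn' := Nat.lt_succ_iff.mp (Finset.mem_range.1 hn)
  refine le_trans ?_ ((hG n).totalDegree_le.trans hn')
  rw [MvPolynomial.aeval_def, MvPolynomial.eval₂_eq']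
  refine (MvPolynomial.totalDegree_finsetSum _ _).trans (Finset.sup_le fun s hs => ?_)
  refine (MvPolynomial.totalDegree_mul _ _).trans ?_
  have h1 : (algebraMap ℂ (MvPolynomial (Fin k) ℂ) (MvPolynomial.coeff s (G n))).totalDegree
      = 0 := MvPolynomial.totalDegree_C _
  rw [h1, zero_add]
  refine (MvPolynomial.totalDegree_finsetProd _ _).trans ?_
  have h2 : ∀ i ∈ (Finset.univ : Finset (Fin k)),
      ((MvPolynomial.X i - MvPolynomial.C (z i) : MvPolynomial (Fin k) ℂ) ^ s i).totalDegree ≤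
        s i := by
    intro i _
    refine (MvPolynomial.totalDegree_pow _ _).trans ?_
    have h3 : (MvPolynomial.X i - MvPolynomial.C (z i) : MvPolynomial (Fin k) ℂ).totalDegree ≤
        1 := by
      refine (MvPolynomial.totalDegree_sub_C_le _ _).trans ?_
      rw [MvPolynomial.totalDegree_X]
    calc s i * _ ≤ s i * 1 := Nat.mul_le_mul_left _ h3
      _ = s i := mul_one _
  refine (Finset.sum_le_sum h2).trans ?_
  have h3 := MvPolynomial.le_totalDegree hs
  refine le_trans (le_of_eq ?_) h3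
  rw [Finsupp.sum_fintype _ _ fun _ => rfl]

/-- **ROOT-RAY for real points.** -/
theorem root_ray_real {P U V : Polynomial (MvPolynomial (Fin k) ℂ)}
    {d : MvPolynomial (Fin k) ℂ}
    (hS : U * P + V * Polynomial.derivative P = Polynomial.C d) (z : Fin k → ℝ) {a r : ℝ}
    (ha : 0 < a)
    (H : ∀ w : Fin k → ℂ, (∀ l, ‖w l - z l‖ < a) → MvPolynomial.eval w d ≠ 0 ∧
      MvPolynomial.eval w P.leadingCoeff ≠ 0 ∧
      ∀ N : ℂ, ‖N‖ = r → (P.map (MvPolynomial.eval w)).eval N ≠ 0) (K : ℕ) :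
    ∃ b : Fin P.natDegree → MvPolynomial (Fin k) ℝ, (∀ i, (b i).totalDegree ≤ K) ∧
      ∀ s : ℝ, 0 < s → s ≤ a / 2 → ∀ w : Fin k → ℝ, (∀ l, |w l - z l| ≤ s) →
      ∀ (N : ℝ) (ν : ℂ), (P.map (MvPolynomial.eval fun l => (w l : ℂ))).eval ν = 0 →
      ‖ν‖ < r → ∃ i, |N - MvPolynomial.eval w (b i)| ≤
        ‖(N : ℂ) - ν‖ + 2 * r * (s / a) ^ (K + 1) := by
  classical
  obtain ⟨G, hG1, hG2⟩ := root_ray hS (fun l => (z l : ℂ)) ha H
  refine ⟨fun i => reP (psm (fun l => (z l : ℂ)) (G i) K),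
    fun i => (reP_deg _).trans (psm_deg _ (hG1 i) K), fun s hs0 hsa w hw N ν hν hνr => ?_⟩
  obtain ⟨i, hi1, hi2⟩ := hG2 s hs0 (by linarith) (fun l => (w l : ℂ)) (fun l => by
    rw [← Complex.ofReal_sub, Complex.norm_real]
    exact hw l) ν hν hνr
  refine ⟨i, ?_⟩
  have hr0 : 0 ≤ r := (norm_nonneg _).trans hνr.le
  obtain ⟨x, hx⟩ : ∃ x, x = s / a := ⟨_, rfl⟩
  have hx0 : 0 ≤ x := by rw [hx]; positivity
  have hx1 : x ≤ 1 / 2 := by
    rw [hx, div_le_iff₀ ha]
    linarith
  have hx2 : x < 1 := by linarith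
  have hax : a / s * x = 1 := by
    rw [hx]
    field_simp
  -- the terms
  obtain ⟨c, hc⟩ : ∃ c : ℕ → ℂ,
    c = fun n => MvPolynomial.eval (fun l => (w l : ℂ) - (z l : ℂ)) (G i n) := ⟨_, rfl⟩
  have hcn : ∀ n, ‖c n‖ ≤ r * x ^ n := by
    intro n
    have h1 := mul_le_mul_of_nonneg_right (hi1 n) (pow_nonneg hx0 n)
    rw [mul_assoc, ← mul_pow, hax, one_pow, mul_one] at h1
    rw [hc]
    exact h1
  have hsum : HasSum c ν := by rw [hc]; exact hi2
  have h1 : ‖ν - ∑ n ∈ Finset.range (K + 1), c n‖ ≤ 2 * r * x ^ (K + 1) := by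
    have h2 := hsum.summable.sum_add_tsum_nat_add (K + 1)
    rw [hsum.tsum_eq] at h2
    have h3 : ν - ∑ n ∈ Finset.range (K + 1), c n = ∑' n, c (n + (K + 1)) := by
      rw [← h2]
      ring
    rw [h3]
    have h4 : HasSum (fun n => r * x ^ (n + (K + 1))) (r * x ^ (K + 1) * (1 - x)⁻¹) := by
      have h5 := (hasSum_geometric_of_lt_one hx0 hx2).mul_left (r * x ^ (K + 1))
      refine h5.congr_fun ?_
      intro n
      rw [pow_add]
      ring
    refine (tsum_of_norm_bounded h4 fun n => hcn (n + (K + 1))).trans ?_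
    have h6 : (1 - x)⁻¹ ≤ 2 := by
      rw [inv_le_comm₀ (by linarith) (by norm_num)]
      linarith
    have h7 := mul_le_mul_of_nonneg_left h6 (show 0 ≤ r * x ^ (K + 1) by positivity)
    linarith
  rw [eval_reP, eval_psm]
  have e1 : (∑ n ∈ Finset.range (K + 1), MvPolynomial.eval
      (fun l => (w l : ℂ) - (z l : ℂ)) (G i n)) = ∑ n ∈ Finset.range (K + 1), c n := by
    rw [hc]
  rw [e1]
  have h2 : N - (∑ n ∈ Finset.range (K + 1), c n).re =
      ((N : ℂ) - ∑ n ∈ Finset.range (K + 1), c n).re := by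
    rw [Complex.sub_re, Complex.ofReal_re]
  rw [h2, ← hx]
  refine (Complex.abs_re_le_norm _).trans ?_
  have e2 : (N : ℂ) - ∑ n ∈ Finset.range (K + 1), c n =
      ((N : ℂ) - ν) + (ν - ∑ n ∈ Finset.range (K + 1), c n) := by ring
  rw [e2]
  exact (norm_add_le _ _).trans (add_le_add le_rfl h1)

end Pool.RAY
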