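import Pool.Agent.H81.JM.Sli
import Pool.Agent.H86.EXT.Lon

/-!
# The slice in the natural cells

`zln`: the natural coordinates of a line, polynomials in the relative time of the cell. `slc_nat`:
outside of a small set, a bound of `f` on the slice of the small cell at the time of the point gives
a bound on the small cell. `vel_ev`: the natural velocity.
-/

set_option autoImplicit false

namespace Pool.JMS

open Finset Real Pool.JMN
open Pool.Agent.H49.Ent Pool.Agent.H32.Dense Pool.STK Pool.KAF Pool.KAL Pool.KS3 Pool.M3F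
open Pool.IEN Pool.EXS

variable {k : ℕ}

/-! ### Cubes -/

/-- From the slice of a cube to the cube. -/
theorem gd_cube (k Kf : ℕ) : ∃ C₁ : ℝ, 1 ≤ C₁ ∧ ∀ (C H W : ℝ) (f : MvPolynomial (Fin (k + 1)) ℝ)
    (ζ : Fin k → Polynomial ℝ) (t : ℝ), 0 ≤ C → 0 ≤ H → Gd Kf C H f ζ t → f.totalDegree ≤ Kf →
    0 ≤ W → (∀ i, ∀ τ ∈ Set.Icc (0 : ℝ) 1, |(ζ i).derivative.eval τ| ≤ W) →
    ∀ (K : ℕ) (j : Fin (k + 1) → ℕ) (B : ℝ), 1 ≤ K → (j 0 : ℝ) / K ≤ t → t ≤ ((j 0 : ℝ) + 1) / K →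
      (∀ i : Fin k, (j i.succ : ℝ) / K ≤ (ζ i).eval t ∧ (ζ i).eval t ≤ ((j i.succ : ℝ) + 1) / K) →
      (∀ z : Fin k → ℝ, (∀ i, (j i.succ : ℝ) / K ≤ z i ∧ z i ≤ ((j i.succ : ℝ) + 1) / K) →
        |MvPolynomial.eval (Fin.cons t z : Fin (k + 1) → ℝ) f| ≤ B) →
      cs (rco K j) (1 / K) f ≤ C * (W + 1) ^ (k * Kf) * H * (C₁ * B) := by
  classical
  obtain ⟨C₂, hC₂, hco⟩ := coef_le k Kf
  refine ⟨((Kf : ℝ) + 1) ^ k * (2 ^ (k * Kf) * C₂), ?_, ?_⟩
  · have h1 : (1 : ℝ) ≤ ((Kf : ℝ) + 1) ^ k := one_le_pow₀ (by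
      have : (0 : ℝ) ≤ Kf := Nat.cast_nonneg Kf
      linarith)
    have h2 : (1 : ℝ) ≤ 2 ^ (k * Kf) := one_le_pow₀ (by norm_num)
    have h3 : (1 : ℝ) ≤ 2 ^ (k * Kf) * C₂ := by nlinarith
    nlinarith
  intro C H W f ζ t hC hH hG hf hW hζW K j B hK ht0 ht1 hz hB
  have hK0 : (0 : ℝ) < K := by exact_mod_cast hK
  have hK1 : (1 : ℝ) ≤ K := by exact_mod_cast hK
  have hs0 : (0 : ℝ) < 1 / K := by positivity
  have hs1 : (1 : ℝ) / K ≤ 1 := by
    rw [div_le_one hK0]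
    exact hK1
  have hadd : ∀ n : ℕ, ((n : ℝ) + 1) / K = (n : ℝ) / K + 1 / K := fun n => by rw [add_div]
  have hB0 : 0 ≤ B := (abs_nonneg _).trans (hB (fun i => (ζ i).eval t) hz)
  -- the slice: from the cube to the ball
  have hball : ∀ z : Fin k → ℝ, (∀ i, |z i - (ζ i).eval t| ≤ 1 / K) →
      |MvPolynomial.eval (Fin.cons t z : Fin (k + 1) → ℝ) f| ≤
        ((Kf : ℝ) + 1) ^ k * (2 ^ (k * Kf) * C₂) * B := by
    intro z hzz
    have h1 := hco (JMN.shf (fun i => (j i.succ : ℝ) / K) (fun b => (slp Kf f b).eval t)) (1 / K) B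
      hs0 (fun x hx => by
        rw [ev_shf, ev_slp hf]
        refine hB _ fun i => ?_
        rw [hadd]
        constructor <;> linarith [(hx i).1, (hx i).2])
    have h2 := ev_le (q := JMN.shf (fun i => (j i.succ : ℝ) / K) (fun b => (slp Kf f b).eval t))
      (ρ := 2 * (1 / K)) (m := 2 ^ (k * Kf) * (C₂ * B)) (fun a => by
        have h3 := h1 a
        have h4 : (2 : ℝ) ^ tdg a ≤ 2 ^ (k * Kf) := pow_le_pow_right₀ (by norm_num) (tdg_le a)
        rw [mul_pow]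
        calc |JMN.shf (fun i => (j i.succ : ℝ) / K) (fun b => (slp Kf f b).eval t) a| *
              (2 ^ tdg a * (1 / K) ^ tdg a) =
              2 ^ tdg a * (|JMN.shf (fun i => (j i.succ : ℝ) / K)
                (fun b => (slp Kf f b).eval t) a| * (1 / K) ^ tdg a) := by ring
          _ ≤ 2 ^ tdg a * (C₂ * B) := mul_le_mul_of_nonneg_left h3 (by positivity)
          _ ≤ 2 ^ (k * Kf) * (C₂ * B) := mul_le_mul_of_nonneg_right h4 (by positivity))
      (x := fun i => z i - (j i.succ : ℝ) / K) (fun i => by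
        have h5 := hz i
        have h6 := abs_le.mp (hzz i)
        rw [hadd] at h5
        rw [abs_le]
        constructor <;> linarith [h5.1, h5.2, h6.1, h6.2])
    rw [ev_shf, ev_slp hf] at h2
    have h0 : (fun i => (j i.succ : ℝ) / K + (z i - (j i.succ : ℝ) / K)) = z :=
      funext fun i => by ring
    rw [h0] at h2
    calc _ ≤ _ := h2
      _ = _ := by ring
  refine SML.cs_le f (by positivity) fun y hy => ?_
  have hy0 := hy 0
  unfold rco at hy0
  have h7 := hG W hW hζW (1 / K) _ hs0 hs1 hball (y 0) (fun i => y i.succ) (by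
    rw [hadd] at ht1
    rw [abs_le]
    constructor <;> linarith [hy0.1, hy0.2]) (fun i => by
    have h8 := hy i.succ
    unfold rco at h8
    have h9 := hz i
    rw [hadd] at h9
    rw [abs_le]
    constructor <;> linarith [h8.1, h8.2, h9.1, h9.2])
  have h10 : (Fin.cons (y 0) (fun i => y i.succ) : Fin (k + 1) → ℝ) = y := by
    funext l
    refine Fin.cases ?_ (fun i => ?_) l
    · rw [Fin.cons_zero]
    · rw [Fin.cons_succ]
  rw [h10] at h7
  exact h7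

/-! ### The natural coordinates of a line -/

/-- The natural coordinates of a line, as polynomials in the relative time of the cell. -/
noncomputable def zln (M : ℕ) (N : Fin (k + 1) → ℕ)
    (G : Fin (k + 1) → MvPolynomial (Fin (k + 1)) ℝ) (b : Fin (k + 1) → ℤ)
    (la lb : Fin (k + 1) → ℝ) (i : Fin k) : Polynomial ℝ :=
  lq (fun l => la l + ncor M N b 0 * lb l) (fun l => nwid M N 0 * lb l)
    (MvPolynomial.C (1 / nwid M N i.succ) *
      (MvPolynomial.X i.succ - G i.succ - MvPolynomial.C (ncor M N b i.succ)))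

theorem eval_zln (M : ℕ) (N : Fin (k + 1) → ℕ)
    (G : Fin (k + 1) → MvPolynomial (Fin (k + 1)) ℝ) (b : Fin (k + 1) → ℤ)
    (la lb : Fin (k + 1) → ℝ) (i : Fin k) (u : ℝ) :
    (zln M N G b la lb i).eval u =
      rpos M N G b (fun l => la l + (ncor M N b 0 + nwid M N 0 * u) * lb l) i.succ := by
  unfold zln
  rw [eval_lq]
  have h1 : (fun o => la o + ncor M N b 0 * lb o + u * (nwid M N 0 * lb o)) =
      fun l => la l + (ncor M N b 0 + nwid M N 0 * u) * lb l := funext fun l => by ring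
  rw [h1, map_mul, map_sub, map_sub, MvPolynomial.eval_C, MvPolynomial.eval_C,
    MvPolynomial.eval_X]
  unfold rpos ncor nwid
  rw [one_div, div_eq_inv_mul _ ((N i.succ : ℝ) / M)]

theorem zln_deg {M : ℕ} {N : Fin (k + 1) → ℕ}
    {G : Fin (k + 1) → MvPolynomial (Fin (k + 1)) ℝ} {b : Fin (k + 1) → ℤ}
    {la lb : Fin (k + 1) → ℝ} {K₀ : ℕ} (hG : ∀ i, (G i).totalDegree ≤ K₀) (i : Fin k) :
    (zln M N G b la lb i).natDegree ≤ K₀ + 1 := by
  unfold zln
  refine deg_lq _ _ ?_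
  refine (MvPolynomial.totalDegree_mul _ _).trans ?_
  rw [MvPolynomial.totalDegree_C, zero_add]
  refine (MvPolynomial.totalDegree_sub _ _).trans (max_le ?_ ?_)
  · refine (MvPolynomial.totalDegree_sub _ _).trans (max_le ?_ ?_)
    · rw [MvPolynomial.totalDegree_X]
      omega
    · exact (hG _).trans (Nat.le_succ _)
  · rw [MvPolynomial.totalDegree_C]
    exact Nat.zero_le _

/-- The relative time. -/
theorem rpos_time {M : ℕ} {N : Fin (k + 1) → ℕ}
    {G : Fin (k + 1) → MvPolynomial (Fin (k + 1)) ℝ} {y : Fin (k + 1) → ℝ} (hM : 1 ≤ M)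
    (hN : ∀ i, 1 ≤ N i) (hG : G 0 = 0) (hy : ((ndg M G y 0 : ℤ) : ℝ) = M * y 0) :
    rpos M N G (nidx N (ndg M G y)) y 0 = (nrem N (ndg M G y) 0 : ℝ) / N 0 := by
  have hM0 : (0 : ℝ) < M := by exact_mod_cast hM
  have hN0 : (0 : ℝ) < N 0 := by exact_mod_cast hN 0
  have h1 : (nrem N (ndg M G y) 0 : ℝ) = (ndg M G y 0 : ℝ) - (nidx N (ndg M G y) 0 : ℝ) * N 0 := by
    exact_mod_cast nrem_cast hN (ndg M G y) 0
  unfold rpos
  rw [hG, map_zero, sub_zero, h1, hy]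
  field_simp

/-- The point of the line. -/
theorem line_time {M : ℕ} {N : Fin (k + 1) → ℕ}
    {G : Fin (k + 1) → MvPolynomial (Fin (k + 1)) ℝ} {b : Fin (k + 1) → ℤ}
    {y la lb : Fin (k + 1) → ℝ} (hM : 1 ≤ M) (hN : ∀ i, 1 ≤ N i) (hG : G 0 = 0)
    (hy : ∀ l, y l = la l + y 0 * lb l) :
    (fun l => la l + (ncor M N b 0 + nwid M N 0 * rpos M N G b y 0) * lb l) = y := by
  have hM0 : (0 : ℝ) < M := by exact_mod_cast hM
  have hN0 : (0 : ℝ) < N 0 := by exact_mod_cast hN 0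
  have h1 : ncor M N b 0 + nwid M N 0 * rpos M N G b y 0 = y 0 := by
    unfold rpos ncor nwid
    rw [hG, map_zero, sub_zero]
    field_simp
    ring
  funext l
  rw [h1]
  exact (hy l).symm

/-- The good event in the small cell. -/
def SGd (Kf : ℕ) (C H : ℝ) (M K : ℕ) (N₃ : Fin (k + 1) → ℕ)
    (G : Fin (k + 1) → MvPolynomial (Fin (k + 1)) ℝ) (f : MvPolynomial (Fin (k + 1)) ℝ)
    (la lb y : Fin (k + 1) → ℝ) : Prop :=
  ∀ W : ℝ, 0 ≤ W → (∀ i, ∀ τ ∈ Set.Icc (0 : ℝ) 1,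
      |(zln M (fun i => K * N₃ i) G (nidx (fun i => K * N₃ i) (ndg M G y))
        la lb i).derivative.eval τ| ≤ W) →
    ∀ B : ℝ, (∀ z : Fin k → ℝ, (∀ i,
        (jdg K (nidx N₃ (ndg M G y)) i.succ : ℝ) / K ≤ z i ∧
        z i ≤ ((jdg K (nidx N₃ (ndg M G y)) i.succ : ℝ) + 1) / K) →
      |MvPolynomial.eval (Fin.cons (rpos M (fun i => K * N₃ i) G
        (nidx (fun i => K * N₃ i) (ndg M G y)) y 0) z : Fin (k + 1) → ℝ) f| ≤ B) →
    cs (rco K (jdg K (nidx N₃ (ndg M G y)))) (1 / K) f ≤ C * (W + 1) ^ (k * Kf) * H * B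

theorem nidx_mul {K : ℕ} {N₃ : Fin (k + 1) → ℕ} (n : Fin (k + 1) → ℤ) :
    nidx (fun i => K * N₃ i) n = fun i => nidx N₃ n i / (K : ℤ) := by
  funext i
  unfold nidx
  rw [Int.ediv_ediv_of_nonneg (by positivity)]
  congr 1
  push_cast
  ring

/-- **The slice in the natural cells.** -/
theorem slc_nat (k Kf K₀ : ℕ) : ∃ C : ℝ, 1 ≤ C ∧
    ∀ (V Γ : Type) [Fintype V] (r : V → ℝ) (c : V → Γ) (M K : ℕ) (N₃ : Fin (k + 1) → ℕ)
      (G : Γ → Fin (k + 1) → MvPolynomial (Fin (k + 1)) ℝ) (b₂ : Γ → Fin (k + 1) → ℤ)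
      (f : Γ → MvPolynomial (Fin (k + 1)) ℝ) (la lb : Γ → Fin (k + 1) → ℝ)
      (y : V → Fin (k + 1) → ℝ) (h : ℝ),
      IsLaw r → 1 ≤ M → 1 ≤ K → (∀ i, 1 ≤ N₃ i) → 0 < h →
      C * Real.exp h ≤ ((K * N₃ 0 : ℕ) : ℝ) →
      (∀ v, 0 < r v → (∀ i, (G (c v) i).totalDegree ≤ K₀) ∧ G (c v) 0 = 0 ∧
        (f (c v)).totalDegree ≤ Kf ∧
        nidx (fun i => K * N₃ i) (ndg M (G (c v)) (y v)) = b₂ (c v) ∧
        ((ndg M (G (c v)) (y v) 0 : ℤ) : ℝ) = M * y v 0 ∧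
        ∀ l, y v l = la (c v) l + y v 0 * lb (c v) l) →
      ms r (fun v => ¬ SGd Kf C (Real.exp h) M K N₃ (G (c v)) (f (c v)) (la (c v)) (lb (c v))
        (y v)) ≤
        C * ((Real.log ((K * N₃ 0 : ℕ) : ℝ) -
          CH r (fun v => nrem (fun i => K * N₃ i) (ndg M (G (c v)) (y v)) 0) c) + 1) / h := by
  classical
  obtain ⟨C₁, hC₁, hsl⟩ := slice_ev k Kf (K₀ + 1)
  obtain ⟨C₂, hC₂, hcu⟩ := gd_cube k Kf
  refine ⟨C₁ * C₂, by nlinarith, ?_⟩
  intro V Γ _ r c M K N₃ G b₂ f la lb y h hr hM hK hN₃ hh hCM hdat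
  have hr0 := hr.nonneg
  have hexp := Real.exp_pos h
  have hN₂ : ∀ i, 1 ≤ K * N₃ i := fun i => Nat.mul_pos hK (hN₃ i)
  have h1 := hsl V Γ r c (fun v => nrem (fun i => K * N₃ i) (ndg M (G (c v)) (y v)) 0) (K * N₃ 0) f
    (fun γ => zln M (fun i => K * N₃ i) (G γ) (b₂ γ) (la γ) (lb γ)) h hr
    (fun v _ => nrem_lt (Ng := fun i => K * N₃ i) hN₂ _ 0) (fun v hv => (hdat v hv).2.2.1)
    (fun v hv i => zln_deg (hdat v hv).1 i) hh (by
      refine le_trans ?_ hCM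
      refine mul_le_mul_of_nonneg_right ?_ hexp.le
      nlinarith)
  have hdef : 0 ≤ Real.log ((K * N₃ 0 : ℕ) : ℝ) -
      CH r (fun v => nrem (fun i => K * N₃ i) (ndg M (G (c v)) (y v)) 0) c := by
    have h3 := CH_le_H hr (fun v => nrem (fun i => K * N₃ i) (ndg M (G (c v)) (y v)) 0) c
    have h4 := H_le_log_card hr0 hr.sum_one
      (fun v => nrem (fun i => K * N₃ i) (ndg M (G (c v)) (y v)) 0) (Finset.range (K * N₃ 0))
      (fun v _ => Finset.mem_range.mpr (nrem_lt (Ng := fun i => K * N₃ i) hN₂ _ 0))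
    rw [Finset.card_range] at h4
    linarith
  refine (ms_le hr0 ?_).trans (h1.trans ?_)
  · intro v hv hnot hgd
    refine hnot ?_
    obtain ⟨hGd, hG0, hfd, hb₂, hint, hline⟩ := hdat v hv
    intro W hW hvel B hB
    have e1 : rpos M (fun i => K * N₃ i) (G (c v)) (nidx (fun i => K * N₃ i)
        (ndg M (G (c v)) (y v))) (y v) 0 =
        ((nrem (fun i => K * N₃ i) (ndg M (G (c v)) (y v)) 0 : ℕ) : ℝ) / ((K * N₃ 0 : ℕ) : ℝ) :=
      rpos_time hM hN₂ hG0 hint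
    have hown := mem_own hM hN₃ (G := G (c v)) (y v)
    have hsub := rpos_sub hM hK hN₃ hown
    rw [← nidx_mul] at hsub
    have hz : ∀ i : Fin k, (zln M (fun i => K * N₃ i) (G (c v)) (b₂ (c v)) (la (c v)) (lb (c v))
        i).eval (((nrem (fun i => K * N₃ i) (ndg M (G (c v)) (y v)) 0 : ℕ) : ℝ) /
          ((K * N₃ 0 : ℕ) : ℝ)) = rpos M (fun i => K * N₃ i) (G (c v))
            (nidx (fun i => K * N₃ i) (ndg M (G (c v)) (y v))) (y v) i.succ := by
      intro i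
      rw [eval_zln, ← e1, ← hb₂, line_time hM hN₂ hG0 hline]
    have h5 := hcu C₁ (Real.exp h) W (f (c v)) _ _ (by linarith) hexp.le hgd hfd hW (by
      rw [← hb₂]
      exact hvel) K (jdg K (nidx N₃ (ndg M (G (c v)) (y v)))) B hK (by
        rw [← e1]
        exact (hsub 0).1) (by
        rw [← e1]
        exact (hsub 0).2) (fun i => by
        rw [hz]
        exact hsub i.succ) (by
        rw [← e1]
        exact hB)
    refine h5.trans (le_of_eq ?_)
    ring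
  · refine div_le_div_of_nonneg_right ?_ hh.le
    refine mul_le_mul_of_nonneg_right ?_ (by linarith)
    nlinarith

end Pool.JMS
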