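import Pool.Agent.H81.JM.Brg
import Pool.Agent.H86.IE.Tim
import Pool.Agent.H86.IE.Lnw

/-!
# The slice at a typical time

`f` is a polynomial in the time and `k` more variables, `ζ` a curve (polynomials in the time).
`sli`: if the time `t` is typical for the Taylor coefficients of `f` along the curve, the supremum
of `f` over a space-time box at the point of the curve is bounded by the supremum over the slice of
the box at the time `t`. `slice_ev`: the event form.
-/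

set_option autoImplicit false

namespace Pool.JMS

open Finset Real Pool.JMN
open Pool.Agent.H49.Ent Pool.Agent.H32.Dense Pool.STK Pool.KAF Pool.KAL Pool.KS3 Pool.M3F
open Pool.IEN

variable {k : ℕ}

/-- The slice of an array. -/
noncomputable def slp (K : ℕ) (f : MvPolynomial (Fin (k + 1)) ℝ) (b : Fin k → Fin (K + 1)) :
    Polynomial ℝ :=
  ∑ j : Fin (K + 1), Polynomial.C (arr K f (Fin.cons j b)) * Polynomial.X ^ (j : ℕ)

/-- The Taylor coefficients along the curve. -/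
noncomputable def tcf (K : ℕ) (f : MvPolynomial (Fin (k + 1)) ℝ) (ζ : Fin k → Polynomial ℝ)
    (a : Fin k → Fin (K + 1)) : Polynomial ℝ :=
  ∑ b : Fin k → Fin (K + 1), (∏ i, (Polynomial.C (((b i : ℕ).choose (a i : ℕ) : ℕ) : ℝ) *
    ζ i ^ ((b i : ℕ) - (a i : ℕ)))) * slp K f b

theorem slp_deg (K : ℕ) (f : MvPolynomial (Fin (k + 1)) ℝ) (b : Fin k → Fin (K + 1)) :
    (slp K f b).natDegree ≤ K := by
  unfold slp
  refine Polynomial.natDegree_sum_le_of_forall_le _ _ fun j _ => ?_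
  refine (Polynomial.natDegree_C_mul_X_pow_le _ _).trans ?_
  exact Nat.lt_succ_iff.mp j.isLt

theorem tcf_deg (K E : ℕ) (f : MvPolynomial (Fin (k + 1)) ℝ) (ζ : Fin k → Polynomial ℝ)
    (hζ : ∀ i, (ζ i).natDegree ≤ E) (a : Fin k → Fin (K + 1)) :
    (tcf K f ζ a).natDegree ≤ k * (K * E) + K := by
  unfold tcf
  refine Polynomial.natDegree_sum_le_of_forall_le _ _ fun b _ => ?_
  refine Polynomial.natDegree_mul_le.trans (add_le_add ?_ (slp_deg K f b))
  refine (Polynomial.natDegree_prod_le _ _).trans ?_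
  have h1 : ∀ i ∈ (univ : Finset (Fin k)),
      (Polynomial.C (((b i : ℕ).choose (a i : ℕ) : ℕ) : ℝ) *
        ζ i ^ ((b i : ℕ) - (a i : ℕ))).natDegree ≤ K * E := by
    intro i _
    refine (Polynomial.natDegree_C_mul_le _ _).trans ?_
    refine Polynomial.natDegree_pow_le.trans ?_
    have h2 : (b i : ℕ) - (a i : ℕ) ≤ K := (Nat.sub_le _ _).trans (Nat.lt_succ_iff.mp (b i).isLt)
    exact Nat.mul_le_mul h2 (hζ i)
  refine (Finset.sum_le_sum h1).trans (le_of_eq ?_)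
  rw [Finset.sum_const, Finset.card_univ, Fintype.card_fin, smul_eq_mul]

/-- The array at one time. -/
theorem ev_slp {K : ℕ} {f : MvPolynomial (Fin (k + 1)) ℝ} (hf : f.totalDegree ≤ K) (τ : ℝ)
    (z : Fin k → ℝ) :
    JMN.ev (fun b => (slp K f b).eval τ) z =
      MvPolynomial.eval (Fin.cons τ z : Fin (k + 1) → ℝ) f := by
  classical
  rw [← ev_arr_tot hf]
  unfold JMN.ev
  rw [← Fintype.sum_equiv (Fin.consEquiv (fun _ : Fin (k + 1) => Fin (K + 1)))
    (fun x => arr K f (Fin.cons x.1 x.2) * (τ ^ (x.1 : ℕ) * ∏ i, z i ^ (x.2 i : ℕ)))]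
  · rw [Fintype.sum_prod_type, Finset.sum_comm]
    refine Finset.sum_congr rfl fun b _ => ?_
    unfold slp
    beta_reduce
    rw [Polynomial.eval_finsetSum, Finset.sum_mul]
    refine Finset.sum_congr rfl fun j _ => ?_
    rw [Polynomial.eval_mul, Polynomial.eval_C, Polynomial.eval_pow, Polynomial.eval_X, mul_assoc]
  · intro x
    rw [Fin.prod_univ_succ]
    simp [Fin.consEquiv]

/-- The Taylor coefficients at one time. -/
theorem eval_tcf (K : ℕ) (f : MvPolynomial (Fin (k + 1)) ℝ) (ζ : Fin k → Polynomial ℝ)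
    (a : Fin k → Fin (K + 1)) (τ : ℝ) :
    (tcf K f ζ a).eval τ =
      JMN.shf (fun i => (ζ i).eval τ) (fun b => (slp K f b).eval τ) a := by
  classical
  unfold tcf JMN.shf
  rw [Polynomial.eval_finsetSum]
  refine Finset.sum_congr rfl fun b _ => ?_
  rw [Polynomial.eval_mul, Polynomial.eval_prod]
  congr 1
  refine Finset.prod_congr rfl fun i _ => ?_
  rw [Polynomial.eval_mul, Polynomial.eval_C, Polynomial.eval_pow]

/-- Growth outside of the unit interval. -/
theorem gro (D : ℕ) : ∃ C : ℝ, 1 ≤ C ∧ ∀ g : Polynomial ℝ, g.natDegree ≤ D → ∀ τ : ℝ, |τ| ≤ 2 →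
    |g.eval τ| ≤ C * sp g := by
  classical
  obtain ⟨C, hC, H⟩ := coef_le 1 D
  refine ⟨((D : ℝ) + 1) ^ 1 * (2 ^ (1 * D) * C), ?_, ?_⟩
  · have h1 : (1 : ℝ) ≤ ((D : ℝ) + 1) ^ 1 := by
      have : (0 : ℝ) ≤ D := Nat.cast_nonneg D
      rw [pow_one]
      linarith
    have h2 : (1 : ℝ) ≤ 2 ^ (1 * D) := one_le_pow₀ (by norm_num)
    have h3 : (1 : ℝ) ≤ 2 ^ (1 * D) * C := by nlinarith
    nlinarith
  intro g hg τ hτ
  have hev : ∀ x : Fin 1 → ℝ, JMN.ev (fun a : Fin 1 → Fin (D + 1) => g.coeff (a 0)) x =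
      g.eval (x 0) := by
    intro x
    unfold JMN.ev
    rw [Polynomial.eval_eq_sum_range' (Nat.lt_succ_of_le hg)]
    rw [← Fin.sum_univ_eq_sum_range (fun i => g.coeff i * x 0 ^ i) (D + 1)]
    refine Fintype.sum_equiv (Equiv.funUnique (Fin 1) (Fin (D + 1))) _ _ fun a => ?_
    rw [Fin.prod_univ_one]
    rfl
  have h1 := H (fun a : Fin 1 → Fin (D + 1) => g.coeff (a 0)) 1 (sp g) one_pos (by
    intro x hx
    rw [hev]
    exact le_sp g ⟨(hx 0).1, (hx 0).2⟩)
  have h2 := ev_le (q := fun a : Fin 1 → Fin (D + 1) => g.coeff (a 0)) (ρ := 2)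
    (m := 2 ^ (1 * D) * (C * sp g)) (fun a => by
      have h3 := h1 a
      rw [one_pow, mul_one] at h3
      have h4 : (2 : ℝ) ^ tdg a ≤ 2 ^ (1 * D) := pow_le_pow_right₀ (by norm_num) (tdg_le a)
      have h5 : (0 : ℝ) ≤ 2 ^ tdg a := by positivity
      calc _ ≤ (C * sp g) * 2 ^ tdg a := mul_le_mul_of_nonneg_right h3 h5
        _ ≤ (C * sp g) * 2 ^ (1 * D) := mul_le_mul_of_nonneg_left h4 (by
            have := sp_nonneg g
            positivity)
        _ = _ := mul_comm _ _) (x := fun _ => τ) (fun _ => hτ)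
  rw [hev] at h2
  calc _ ≤ _ := h2
    _ = _ := by ring

/-- **The slice**, at a time which is typical for the Taylor coefficients along the curve. -/
theorem sli (k K E : ℕ) : ∃ C : ℝ, 1 ≤ C ∧ ∀ (f : MvPolynomial (Fin (k + 1)) ℝ)
    (ζ : Fin k → Polynomial ℝ) (t H W : ℝ), f.totalDegree ≤ K → (∀ i, (ζ i).natDegree ≤ E) →
    0 ≤ t → t ≤ 1 → 0 ≤ H → 0 ≤ W →
    (∀ i, ∀ τ ∈ Set.Icc (0 : ℝ) 1, |(ζ i).derivative.eval τ| ≤ W) →
    (∀ a, sp (tcf K f ζ a) ≤ H * |(tcf K f ζ a).eval t|) →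
    ∀ s B : ℝ, 0 < s → s ≤ 1 →
      (∀ z : Fin k → ℝ, (∀ i, |z i - (ζ i).eval t| ≤ s) →
        |MvPolynomial.eval (Fin.cons t z : Fin (k + 1) → ℝ) f| ≤ B) →
      ∀ (τ : ℝ) (z : Fin k → ℝ), |τ - t| ≤ s → (∀ i, |z i - (ζ i).eval t| ≤ s) →
        |MvPolynomial.eval (Fin.cons τ z : Fin (k + 1) → ℝ) f| ≤
          C * (W + 1) ^ (k * K) * H * B := by
  classical
  obtain ⟨C₁, hC₁, hco⟩ := coef_le k K
  obtain ⟨C₂, hC₂, hg₂⟩ := gro (k * (K * E) + K)
  obtain ⟨C₃, hC₃, hg₃⟩ := gro E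
  refine ⟨((K : ℝ) + 1) ^ k * (C₂ * C₁ * C₃ ^ (k * K)), ?_, ?_⟩
  · have h1 : (1 : ℝ) ≤ ((K : ℝ) + 1) ^ k := one_le_pow₀ (by
      have : (0 : ℝ) ≤ K := Nat.cast_nonneg K
      linarith)
    have h2 : (1 : ℝ) ≤ C₃ ^ (k * K) := one_le_pow₀ hC₃
    have h3 : (1 : ℝ) ≤ C₂ * C₁ := by nlinarith
    have h4 : (1 : ℝ) ≤ C₂ * C₁ * C₃ ^ (k * K) := by nlinarith
    nlinarith
  intro f ζ t H W hf hζ ht0 ht1 hH hW hζW htyp s B hs hs1 hB τ z hτ hz
  have hB0 : 0 ≤ B := (abs_nonneg _).trans (hB (fun i => (ζ i).eval t) (fun i => by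
    rw [sub_self, abs_zero]
    exact hs.le))
  have hτ2 : ∀ τ', |τ' - t| ≤ 1 → |τ'| ≤ 2 := by
    intro τ' h
    rw [abs_le] at h ⊢
    constructor <;> linarith
  -- the velocity
  have hvel : ∀ i, |(ζ i).eval τ - (ζ i).eval t| ≤ C₃ * W * s := by
    intro i
    have hd : ∀ x ∈ Set.uIcc t τ, ‖(ζ i).derivative.eval x‖ ≤ C₃ * W := by
      intro x hx
      have hx1 : |x - t| ≤ 1 := by
        have h1 : |x - t| ≤ |τ - t| := Set.abs_sub_left_of_mem_uIcc hx
        linarith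
      have h2 := hg₃ (ζ i).derivative ((Polynomial.natDegree_derivative_le _).trans
        ((Nat.sub_le _ _).trans (hζ i))) x (hτ2 x hx1)
      refine h2.trans ?_
      exact mul_le_mul_of_nonneg_left (sp_le _ hW (hζW i)) (by linarith)
    have h3 := (convex_uIcc t τ).norm_image_sub_le_of_norm_hasDerivWithin_le
      (f := fun x => (ζ i).eval x) (f' := fun x => (ζ i).derivative.eval x)
      (fun x _ => ((ζ i).hasDerivAt x).hasDerivWithinAt) hd Set.left_mem_uIcc Set.right_mem_uIcc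
    refine h3.trans ?_
    exact mul_le_mul_of_nonneg_left hτ (by positivity)
  -- the coefficients at the time `t`
  have hct : ∀ a, |(tcf K f ζ a).eval t| * s ^ tdg a ≤ C₁ * B := by
    intro a
    rw [eval_tcf]
    refine hco _ s B hs (fun x hx => ?_) a
    rw [ev_shf, ev_slp hf]
    refine hB _ fun i => ?_
    rw [show (ζ i).eval t + x i - (ζ i).eval t = x i by ring, abs_le]
    exact ⟨by linarith [(hx i).1], (hx i).2⟩
  have hρ0 : (0 : ℝ) ≤ C₃ * W + 1 := by positivity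
  have hρ1 : (1 : ℝ) ≤ C₃ * W + 1 := by
    have : 0 ≤ C₃ * W := by positivity
    linarith
  have hkey := ev_le (q := JMN.shf (fun i => (ζ i).eval τ) (fun b => (slp K f b).eval τ))
    (ρ := (C₃ * W + 1) * s) (m := C₂ * C₁ * (C₃ * W + 1) ^ (k * K) * H * B) (fun a => by
      rw [← eval_tcf]
      have h1 := hg₂ (tcf K f ζ a) (tcf_deg K E f ζ hζ a) τ (hτ2 τ (hτ.trans hs1))
      have h2 := htyp a
      have h3 : (C₃ * W + 1) ^ tdg a ≤ (C₃ * W + 1) ^ (k * K) :=
        pow_le_pow_right₀ hρ1 (tdg_le a)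
      have h5 : |(tcf K f ζ a).eval τ| ≤ C₂ * (H * |(tcf K f ζ a).eval t|) :=
        h1.trans (mul_le_mul_of_nonneg_left h2 (by linarith))
      have h6 : (0 : ℝ) ≤ s ^ tdg a := by positivity
      have h7 : (0 : ℝ) ≤ (C₃ * W + 1) ^ tdg a := by positivity
      rw [mul_pow]
      calc |(tcf K f ζ a).eval τ| * ((C₃ * W + 1) ^ tdg a * s ^ tdg a)
          ≤ (C₂ * (H * |(tcf K f ζ a).eval t|)) * ((C₃ * W + 1) ^ tdg a * s ^ tdg a) :=
            mul_le_mul_of_nonneg_right h5 (by positivity)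
        _ = (C₂ * H * (C₃ * W + 1) ^ tdg a) * (|(tcf K f ζ a).eval t| * s ^ tdg a) := by ring
        _ ≤ (C₂ * H * (C₃ * W + 1) ^ tdg a) * (C₁ * B) :=
            mul_le_mul_of_nonneg_left (hct a) (by positivity)
        _ ≤ (C₂ * H * (C₃ * W + 1) ^ (k * K)) * (C₁ * B) :=
            mul_le_mul_of_nonneg_right (mul_le_mul_of_nonneg_left h3 (by positivity))
              (by positivity)
        _ = _ := by ring) (x := fun i => z i - (ζ i).eval τ) (fun i => by
      have h1 : z i - (ζ i).eval τ = (z i - (ζ i).eval t) - ((ζ i).eval τ - (ζ i).eval t) := by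
        ring
      rw [h1]
      refine (abs_sub _ _).trans ?_
      have := hvel i
      have := hz i
      linarith)
  rw [ev_shf, ev_slp hf] at hkey
  have h0 : (fun i => (ζ i).eval τ + (z i - (ζ i).eval τ)) = z := funext fun i => by ring
  rw [h0] at hkey
  refine hkey.trans ?_
  have h8 : (C₃ * W + 1) ^ (k * K) ≤ C₃ ^ (k * K) * (W + 1) ^ (k * K) := by
    rw [← mul_pow]
    refine pow_le_pow_left₀ hρ0 ?_ _
    nlinarith
  calc ((K : ℝ) + 1) ^ k * (C₂ * C₁ * (C₃ * W + 1) ^ (k * K) * H * B)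
      ≤ ((K : ℝ) + 1) ^ k * (C₂ * C₁ * (C₃ ^ (k * K) * (W + 1) ^ (k * K)) * H * B) := by
        refine mul_le_mul_of_nonneg_left ?_ (by positivity)
        refine mul_le_mul_of_nonneg_right ?_ hB0
        refine mul_le_mul_of_nonneg_right ?_ hH
        exact mul_le_mul_of_nonneg_left h8 (by positivity)
    _ = _ := by ring

/-- The time `t` is good. -/
def Gd (K : ℕ) (C H : ℝ) (f : MvPolynomial (Fin (k + 1)) ℝ) (ζ : Fin k → Polynomial ℝ)
    (t : ℝ) : Prop :=
  ∀ W : ℝ, 0 ≤ W → (∀ i, ∀ τ ∈ Set.Icc (0 : ℝ) 1, |(ζ i).derivative.eval τ| ≤ W) →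
    ∀ s B : ℝ, 0 < s → s ≤ 1 →
      (∀ z : Fin k → ℝ, (∀ i, |z i - (ζ i).eval t| ≤ s) →
        |MvPolynomial.eval (Fin.cons t z : Fin (k + 1) → ℝ) f| ≤ B) →
      ∀ (τ : ℝ) (z : Fin k → ℝ), |τ - t| ≤ s → (∀ i, |z i - (ζ i).eval t| ≤ s) →
        |MvPolynomial.eval (Fin.cons τ z : Fin (k + 1) → ℝ) f| ≤
          C * (W + 1) ^ (k * K) * H * B

/-- **The slice**, event form. -/
theorem slice_ev (k K E : ℕ) : ∃ C : ℝ, 1 ≤ C ∧
    ∀ (V Γ : Type) [Fintype V] (r : V → ℝ) (c : V → Γ) (T : V → ℕ) (M : ℕ)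
      (f : Γ → MvPolynomial (Fin (k + 1)) ℝ) (ζ : Γ → Fin k → Polynomial ℝ) (h : ℝ),
      IsLaw r → (∀ v, 0 < r v → T v < M) → (∀ v, 0 < r v → (f (c v)).totalDegree ≤ K) →
      (∀ v, 0 < r v → ∀ i, (ζ (c v) i).natDegree ≤ E) → 0 < h → C * Real.exp h ≤ M →
      ms r (fun v => ¬ Gd K C (Real.exp h) (f (c v)) (ζ (c v)) ((T v : ℝ) / M)) ≤
        C * ((Real.log M - CH r T c) + 1) / h := by
  classical
  obtain ⟨C₁, hC₁, hsl⟩ := sli k K E
  obtain ⟨C₂, hC₂, htim⟩ := tim_ev (k * (K * E) + K)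
  set n : ℕ := Fintype.card (Fin k → Fin (K + 1)) with hn
  set D : ℕ := k * (K * E) + K with hD
  refine ⟨2 * C₁ + C₂ + n * (2 * (D + 1) * C₂), ?_, ?_⟩
  · have : (0 : ℝ) ≤ n * (2 * (D + 1) * C₂) := by positivity
    linarith
  intro V Γ _ r c T M f ζ h hr hT hf hζ hh hM
  have hr0 := hr.nonneg
  have hexp := Real.exp_pos h
  have hn0 : (0 : ℝ) ≤ n * (2 * (D + 1) * C₂) := by positivity
  have hM2 : C₂ * Real.exp h ≤ M := by
    refine le_trans (mul_le_mul_of_nonneg_right ?_ hexp.le) hM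
    linarith
  have hM0 : (0 : ℝ) < M := lt_of_lt_of_le (by positivity) hM2
  -- the bad set of one coefficient
  have hone : ∀ a : Fin k → Fin (K + 1), ms r (fun v => 0 < sp (tcf K (f (c v)) (ζ (c v)) a) ∧
      |(tcf K (f (c v)) (ζ (c v)) a).eval ((T v : ℝ) / M)| ≤
        1 / 2 * (Real.exp (-h) * sp (tcf K (f (c v)) (ζ (c v)) a))) ≤
      2 * (D + 1) * ((Real.log M - CH r T c) + C₂) / h := by
    intro a
    have h1 := htim V Γ r c T M (fun γ => tcf K (f γ) (ζ γ) a) h hr hT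
      (fun v hv => tcf_deg K E (f (c v)) (ζ (c v)) (hζ v hv) a) hh hM2
    refine le_trans (le_of_eq ?_) h1
    exact ms_eq r _ _
  have hall := ms_ex hr0 (fun (a : Fin k → Fin (K + 1)) v =>
    0 < sp (tcf K (f (c v)) (ζ (c v)) a) ∧
      |(tcf K (f (c v)) (ζ (c v)) a).eval ((T v : ℝ) / M)| ≤
        1 / 2 * (Real.exp (-h) * sp (tcf K (f (c v)) (ζ (c v)) a))) hone
  have hdef : 0 ≤ Real.log M - CH r T c := by
    have h1 := CH_le_H hr T c
    have h2 := H_le_log_card hr0 hr.sum_one T (Finset.range M)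
      (fun v hv => Finset.mem_range.mpr (hT v hv))
    rw [Finset.card_range] at h2
    linarith
  refine (ms_le hr0 ?_).trans (hall.trans ?_)
  · intro v hv hnot
    by_contra hcon
    push Not at hcon
    refine hnot ?_
    intro W hW hζW s B hs hs1 hB τ z hτ hz
    have ht : (T v : ℝ) / M ∈ Set.Icc (0 : ℝ) 1 := by
      refine ⟨by positivity, ?_⟩
      rw [div_le_one hM0]
      exact_mod_cast (hT v hv).le
    have hB0 : 0 ≤ B := (abs_nonneg _).trans (hB (fun i => (ζ (c v) i).eval ((T v : ℝ) / M))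
      (fun i => by
        rw [sub_self, abs_zero]
        exact hs.le))
    have h1 := hsl (f (c v)) (ζ (c v)) ((T v : ℝ) / M) (2 * Real.exp h) W (hf v hv) (hζ v hv)
      ht.1 ht.2 (by positivity) hW hζW (fun a => by
        rcases (sp_nonneg (tcf K (f (c v)) (ζ (c v)) a)).eq_or_lt with h0 | h0
        · rw [← h0]
          positivity
        · have h2 := hcon a h0
          have h3 : Real.exp h * Real.exp (-h) = 1 := by
            rw [← Real.exp_add, add_neg_cancel, Real.exp_zero]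
          have h4 := mul_le_mul_of_nonneg_left h2.le (show 0 ≤ 2 * Real.exp h by positivity)
          calc sp (tcf K (f (c v)) (ζ (c v)) a) =
                2 * Real.exp h * (1 / 2 * (Real.exp (-h) *
                  sp (tcf K (f (c v)) (ζ (c v)) a))) := by
                linear_combination (-(sp (tcf K (f (c v)) (ζ (c v)) a))) * h3
            _ ≤ _ := h4) s B hs hs1 hB τ z hτ hz
    refine h1.trans ?_
    have h5 : 0 ≤ (W + 1) ^ (k * K) * Real.exp h * B := by positivity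
    have h6 : 2 * C₁ ≤ 2 * C₁ + C₂ + n * (2 * (D + 1) * C₂) := by linarith
    calc C₁ * (W + 1) ^ (k * K) * (2 * Real.exp h) * B =
          2 * C₁ * ((W + 1) ^ (k * K) * Real.exp h * B) := by ring
      _ ≤ (2 * C₁ + C₂ + n * (2 * (D + 1) * C₂)) * ((W + 1) ^ (k * K) * Real.exp h * B) :=
          mul_le_mul_of_nonneg_right h6 h5
      _ = _ := by ring
  · rw [← mul_div_assoc]
    refine div_le_div_of_nonneg_right ?_ hh.le
    have h7 : (Real.log M - CH r T c) + C₂ ≤ C₂ * ((Real.log M - CH r T c) + 1) := by nlinarith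
    calc (Fintype.card (Fin k → Fin (K + 1)) : ℝ) *
          (2 * (D + 1) * ((Real.log M - CH r T c) + C₂))
        ≤ n * (2 * (D + 1) * (C₂ * ((Real.log M - CH r T c) + 1))) :=
          mul_le_mul_of_nonneg_left (mul_le_mul_of_nonneg_left h7 (by positivity))
            (Nat.cast_nonneg _)
      _ = n * (2 * (D + 1) * C₂) * ((Real.log M - CH r T c) + 1) := by ring
      _ ≤ _ := by
          refine mul_le_mul_of_nonneg_right ?_ (by linarith)
          linarith

end Pool.JMS
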